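import Pool.Agent.Lib.BDS.Defs

namespace Pool.Agent.Lib.BDS

open Pool.Agent.Lib.MP_fecf72_lc Set Finset
open scoped InnerProductSpace

variable {E : Type} [NormedAddCommGroup E] [InnerProductSpace ℂ E] {b : HilbertBasis ℕ ℂ E}

theorem inner_bv (i j : ℕ) : ⟪b i, b j⟫_ℂ = if i = j then 1 else 0 :=
  orthonormal_iff_ite.1 b.orthonormal i j

theorem ent_inj : Function.Injective (ent b) := fun S T h =>
  ContinuousLinearMap.ext_on (Submodule.dense_iff_topologicalClosure_eq_top.2 b.dense_span) (by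
    rintro _ ⟨j, rfl⟩
    refine b.repr.injective (lp.ext (funext fun i => ?_))
    rw [b.repr_apply_apply, b.repr_apply_apply]
    exact congrFun (congrFun h i) j)

theorem ent_add (S T : E →L[ℂ] E) : ent b (S + T) = ent b S + ent b T :=
  funext₂ fun i j => by simp [ent]

theorem ent_smul (c : ℂ) (T : E →L[ℂ] E) : ent b (c • T) = c • ent b T :=
  funext₂ fun i j => by simp [ent]

theorem bessel (x : E) (s : Finset ℕ) : ∑ i ∈ s, ‖⟪b i, x⟫_ℂ‖ ^ 2 ≤ ‖x‖ ^ 2 :=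
  b.orthonormal.sum_inner_products_le x

theorem hs_bound (T : E →L[ℂ] E) {Z : Set ℕ} {δ : ℝ} (hδ : 0 ≤ δ)
    (h : ∀ s : Finset ℕ, ↑s ⊆ Z → ∑ i ∈ s, ∑ j ∈ s, ‖ent b T i j‖ ^ 2 ≤ δ ^ 2) {y : E}
    (hy : ∀ i ∉ Z, ⟪b i, y⟫_ℂ = 0) : ‖⟪T y, y⟫_ℂ‖ ≤ δ * ‖y‖ ^ 2 := by
  classical
  have c : Continuous fun x : E => ‖⟪T x, x⟫_ℂ‖ := by fun_prop
  refine le_of_tendsto' ((c.tendsto y).comp (b.hasSum_repr y)) fun s0 => ?_
  have h1 := bessel (b := b) y
  simp only [← b.repr_apply_apply] at h1 hy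
  generalize (b.repr y : ℕ → ℂ) = u at h1 hy
  obtain ⟨s, hs, e⟩ : ∃ s : Finset ℕ, ↑s ⊆ Z ∧ ∑ i ∈ s0, u i • b i = ∑ i ∈ s, u i • b i :=
    ⟨s0.filter (· ∈ Z), fun i hi => (Finset.mem_filter.1 hi).2,
      (Finset.sum_filter_of_ne fun i _ hi => by_contra fun k => hi (by simp [hy i k])).symm⟩
  have h2 : ‖⟪T (∑ i ∈ s, u i • b i), ∑ i ∈ s, u i • b i⟫_ℂ‖ ≤
      ∑ z ∈ s ×ˢ s, ‖ent b T z.1 z.2‖ * (‖u z.1‖ * ‖u z.2‖) := by
    rw [Finset.sum_product, inner_sum]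
    refine norm_sum_le_of_le _ fun i _ => ?_
    rw [map_sum, sum_inner]
    refine norm_sum_le_of_le _ fun j _ => le_of_eq ?_
    rw [← inner_conj_symm, inner_smul_left, map_smul, inner_smul_right, ← ent]
    simp
    ring
  refine (congrArg (fun x => ‖⟪T x, x⟫_ℂ‖) e).trans_le (h2.trans ?_)
  refine le_of_pow_le_pow_left₀ two_ne_zero (by positivity)
    ((Finset.sum_mul_sq_le_sq_mul_sq _ _ _).trans ?_)
  have h4 : ∑ z ∈ s ×ˢ s, (‖u z.1‖ * ‖u z.2‖) ^ 2 = (∑ i ∈ s, ‖u i‖ ^ 2) ^ 2 := by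
    rw [sq (∑ i ∈ s, _), Finset.sum_mul_sum, Finset.sum_product]
    simp only [mul_pow]
  rw [h4, Finset.sum_product, mul_pow]
  gcongr
  exacts [h s hs, h1 s]

variable [CompleteSpace E]

theorem ent_star (T : E →L[ℂ] E) (i j : ℕ) :
    ent b (star T) i j = starRingEnd ℂ (ent b T j i) := by
  rw [ent, ent, ContinuousLinearMap.star_eq_adjoint,
    ContinuousLinearMap.adjoint_inner_right, inner_conj_symm]

variable (b) in
/-- The diagonal projection onto the coordinates in `A`. -/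
noncomputable def dg (A : Set ℕ) : E →L[ℂ] E := (Submodule.span ℂ (b '' Aᶜ))ᗮ.starProjection

open Classical in
theorem dg_apply (A : Set ℕ) (x : E) (i : ℕ) :
    ⟪b i, dg b A x⟫_ℂ = if i ∈ A then ⟪b i, x⟫_ℂ else 0 := by
  split_ifs with h
  · have : b i ∈ (Submodule.span ℂ (b '' Aᶜ))ᗮ := by
      rw [Submodule.mem_orthogonal']
      intro u hu
      induction hu using Submodule.span_induction with
      | mem u hu =>
        obtain ⟨j, hj, rfl⟩ := hu
        rw [inner_bv, if_neg]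
        rintro rfl
        exact hj h
      | zero => simp
      | add u v _ _ a b => rw [inner_add_right, a, b, add_zero]
      | smul c u _ a => rw [inner_smul_right, a, mul_zero]
    rw [dg, ← Submodule.inner_starProjection_left_eq_right,
      Submodule.starProjection_eq_self_iff.2 this]
  · exact (Submodule.mem_orthogonal _ _).1 (Submodule.starProjection_apply_mem _ x) _
      (Submodule.subset_span ⟨i, h, rfl⟩)

open Classical in
theorem ent_dg (A : Set ℕ) (i j : ℕ) : ent b (dg b A) i j = if i ∈ A ∧ i = j then 1 else 0 := by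
  rw [ent, dg_apply, inner_bv, ite_and]

theorem dg_union {A B : Set ℕ} (h : Disjoint A B) : dg b (A ∪ B) = dg b A + dg b B := by
  refine ent_inj (b := b) (funext₂ fun i j => ?_)
  have := fun k : i ∈ A => Set.disjoint_left.1 h k
  simp only [ent_add, Pi.add_apply, ent_dg, Set.mem_union]
  by_cases a : i ∈ A <;> by_cases c : i ∈ B <;> simp_all

theorem dg_univ : dg b Set.univ = 1 :=
  ent_inj (b := b) (funext₂ fun i j => by rw [ent_dg]; simp [ent, inner_bv])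

theorem dg_empty : dg b ∅ = (0 : ℂ) • (1 : E →L[ℂ] E) :=
  ent_inj (b := b) (funext₂ fun i j => by rw [ent_dg]; simp [ent])

theorem dg_single (k : ℕ) : dg b {k} = pr1 b k :=
  ent_inj (b := b) (funext₂ fun i j => by
    rw [ent_dg, ent, pr1, InnerProductSpace.rankOne_apply, inner_smul_right, inner_bv, inner_bv]
    by_cases a : i = k <;> by_cases c : k = j <;> simp_all)

theorem dg_pos (A : Set ℕ) : (dg b A).IsPositive :=
  ⟨Submodule.starProjection_isSymmetric _, Submodule.re_inner_starProjection_nonneg _⟩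

theorem pos_op {T : E →L[ℂ] E} (hT : IsSelfAdjoint T) (A : Set ℕ) {δ C : ℝ} {a w : ℚ} (hδ : 0 ≤ δ)
    (hC : ‖T‖ ≤ C) (hb : (0 : ℝ) < w) (ha : C ^ 2 ≤ w * (a - δ))
    (h : ∀ y : E, (∀ i ∉ Aᶜ, ⟪b i, y⟫_ℂ = 0) → ‖⟪T y, y⟫_ℂ‖ ≤ δ * ‖y‖ ^ 2) :
    ((a : ℂ) • (1 : E →L[ℂ] E) + (w : ℂ) • dg b A + T).IsPositive := by
  refine ContinuousLinearMap.isPositive_def'.2 ⟨(((IsSelfAdjoint.ratCast a).smul (.one _)).add
    ((IsSelfAdjoint.ratCast w).smul (dg_pos A).isSelfAdjoint)).add hT, fun v => ?_⟩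
  have e : dg b A v + dg b Aᶜ v = v := by
    rw [← add_apply, ← dg_union disjoint_compl_right, Set.union_compl_self,
      dg_univ, one_apply_eq_self]
  have h1 : (⟪dg b A v, v⟫_ℂ).re = ‖dg b A v‖ ^ 2 :=
    (Submodule.span ℂ (b '' Aᶜ))ᗮ.re_inner_starProjection_eq_normSq v
  have h2 : ‖dg b Aᶜ v‖ ≤ ‖v‖ := Submodule.norm_starProjection_apply_le _ v
  have h3 := h (dg b Aᶜ v) fun i hi => by rw [dg_apply, if_neg hi]
  generalize dg b Aᶜ v = y at e h2 h3
  have h4 : ⟪T v, v⟫_ℂ = ⟪T (dg b A v), v⟫_ℂ + (⟪T y, dg b A v⟫_ℂ + ⟪T y, y⟫_ℂ) := by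
    rw [← inner_add_right, e, ← inner_add_left, ← map_add, e]
  have h0 := (norm_nonneg T).trans hC
  have h5 : ‖⟪T (dg b A v), v⟫_ℂ‖ ≤ C * ‖dg b A v‖ * ‖v‖ := (norm_inner_le_norm _ _).trans (by
    gcongr; exact T.le_of_opNorm_le hC _)
  have h6 : ‖⟪T y, dg b A v⟫_ℂ‖ ≤ C * ‖v‖ * ‖dg b A v‖ := (norm_inner_le_norm _ _).trans (by
    gcongr; exact (T.le_of_opNorm_le hC _).trans (by gcongr))
  have h7 : δ * ‖y‖ ^ 2 ≤ δ * ‖v‖ ^ 2 := by gcongr
  have h8 := (neg_abs_le _).trans' (neg_le_neg ((Complex.abs_re_le_norm ⟪T v, v⟫_ℂ).trans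
    (h4 ▸ norm_add_le_of_le h5 (norm_add_le_of_le h6 (h3.trans h7)))))
  have h9 : (⟪v, v⟫_ℂ).re = ‖v‖ ^ 2 := inner_self_eq_norm_sq (𝕜 := ℂ) v
  simp only [ContinuousLinearMap.reApplyInnerSelf, add_apply,
    smul_apply, one_apply_eq_self, inner_add_left, inner_smul_left,
    map_ratCast, RCLike.re_to_complex, Complex.add_re, Complex.mul_re, Complex.ratCast_re,
    Complex.ratCast_im, zero_mul, sub_zero, h1, h9]
  refine le_of_mul_le_mul_left ?_ hb
  nlinarith [sq_nonneg (C * ‖v‖ - w * ‖dg b A v‖), mul_le_mul_of_nonneg_left h8 hb.le,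
    mul_le_mul_of_nonneg_right ha (sq_nonneg ‖v‖)]

theorem jump_card {W : ℕ → ℕ} (hW : Monotone W) (k : ℕ) :
    ((range k).filter fun j => W j < W (j + 1)).card ≤ W k := by
  induction k with
  | zero => simp
  | succ k ih =>
    rw [range_add_one, filter_insert]
    split_ifs with h
    · exact (card_insert_le _ _).trans ((Nat.succ_le_succ ih).trans h)
    · exact ih.trans (hW k.le_succ)

theorem jump_sum {ν : ℕ → ℝ} (hν : ∀ j, 0 ≤ ν j) {s : Finset ℕ}
    (h : ∀ e1 ∈ s, ∀ e2 ∈ s, ∀ e, e1 ≤ e → e ≤ e2 →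
      ⌊∑ j ∈ range (e + 1), ν j⌋₊ ≤ ⌊∑ j ∈ range e, ν j⌋₊) : ∑ j ∈ s, ν j ≤ 1 := by
  rcases s.eq_empty_or_nonempty with rfl | hs
  · simp
  have h1 : ∀ k, s.min' hs ≤ k → k ≤ s.max' hs + 1 →
      ⌊∑ j ∈ range k, ν j⌋₊ ≤ ⌊∑ j ∈ range (s.min' hs), ν j⌋₊ := by
    intro k hk
    induction hk with
    | refl => exact fun _ => le_rfl
    | step a ih => exact fun b => (h _ (s.min'_mem hs) _ (s.max'_mem hs) _ a
        (Nat.le_of_succ_le_succ b)).trans (ih (Nat.le_of_succ_le b))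
  have h0 := (s.min'_le_max' hs).trans (Nat.le_succ _)
  have h2 : ∑ j ∈ s, ν j ≤ ∑ j ∈ Finset.Ico (s.min' hs) (s.max' hs + 1), ν j :=
    sum_le_sum_of_subset_of_nonneg (fun j hj => Finset.mem_Ico.2
      ⟨s.min'_le j hj, Nat.lt_succ_of_le (s.le_max' j hj)⟩) fun j _ _ => hν j
  rw [sum_Ico_eq_sub _ h0] at h2
  have h3 := Nat.lt_floor_add_one (∑ j ∈ range (s.max' hs + 1), ν j)
  have h4 := Nat.floor_le (sum_nonneg fun j (_ : j ∈ range (s.min' hs)) => hν j)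
  have h5 : (_ : ℝ) ≤ _ := Nat.cast_le.2 (h1 _ h0 le_rfl)
  linarith

/-- Weight of a row to the left of a column. -/
noncomputable def nu (m : ℕ → ℕ → ℂ) (k j : ℕ) : ℝ := ∑ i ∈ range k, ‖m j i‖ ^ 2

/-- Rows at which the accumulated weight jumps. -/
noncomputable def SS (m : ℕ → ℕ → ℂ) (l k k' : ℕ) : Finset ℕ :=
  (range k').filter fun j =>
    ⌊∑ i ∈ range j, 2 ^ l * nu m k i⌋₊ < ⌊∑ i ∈ range (j + 1), 2 ^ l * nu m k i⌋₊

theorem nu_nonneg (m : ℕ → ℕ → ℂ) (l k j : ℕ) : 0 ≤ 2 ^ l * nu m k j := by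
  unfold nu; positivity

omit [CompleteSpace E] in
theorem SS_card {T : E →L[ℂ] E} {C : ℕ} (hC : ‖T‖ ≤ C) (l k k' : ℕ) :
    (SS (ent b T) l k k').card ≤ 2 ^ l * (k * C ^ 2) := by
  refine (jump_card (W := fun j => ⌊∑ i ∈ range j, 2 ^ l * nu (ent b T) k i⌋₊) (fun a b h =>
    Nat.floor_le_floor (sum_le_sum_of_subset_of_nonneg (range_mono h)
      fun j _ _ => nu_nonneg _ _ _ _)) k').trans (Nat.floor_le_of_le ?_)
  rw [← mul_sum]
  push_cast
  gcongr
  unfold nu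
  rw [sum_comm]
  refine (sum_le_card_nsmul _ _ ((C : ℝ) ^ 2) fun i _ => ?_).trans (by simp)
  refine (bessel (T (b i)) _).trans ?_
  gcongr
  simpa [b.orthonormal.1 i] using T.le_of_opNorm_le hC (b i)

/-- Index of the block of `i`. -/
noncomputable def blk (K : ℕ → ℕ) (i : ℕ) : ℕ := sInf {l | i < K (l + 1)}

section
variable {K : ℕ → ℕ} (hK : StrictMono K)
include hK

theorem lt_blk (i : ℕ) : i < K (blk K i + 1) :=
  Nat.sInf_mem (s := {l | i < K (l + 1)}) ⟨i, hK.id_le (i + 1)⟩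

theorem le_blk {i l : ℕ} (h : K l ≤ i) : l ≤ blk K i :=
  Nat.le_of_lt_succ (hK.lt_iff_lt.1 (h.trans_lt (lt_blk hK i)))

theorem blk_mono : Monotone (blk K) := fun i j h =>
  Nat.sInf_le (s := {l | i < K (l + 1)}) (h.trans_lt (lt_blk hK j))

omit hK in
theorem blk_le (h0 : K 0 = 0) (i : ℕ) : K (blk K i) ≤ i := by
  rcases e : blk K i with _ | l
  · exact h0.trans_le (Nat.zero_le _)
  · exact not_lt.1 (Nat.notMem_of_lt_sInf (s := {l | i < K (l + 1)})
      ((Nat.lt_succ_self l).trans_eq e.symm))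

theorem hs_sum (h0 : K 0 = 0) {T : E →L[ℂ] E} (hT : IsSelfAdjoint T)
    (hz : ∀ i j, blk K i = blk K j → ent b T i j = 0) {U : Set ℕ} {l0 : ℕ}
    (h : ∀ l, l0 ≤ l → ∀ e1 e e2, K l ≤ e1 → e1 ≤ e → e ≤ e2 → e2 < K (l + 1) →
      e ∈ SS (ent b T) l (K l) (K (l + 1)) → e1 ∈ U ∨ e2 ∈ U)
    (s : Finset ℕ) (hs : ↑s ⊆ (U ∪ Set.Iio (K l0))ᶜ) :
    ∑ i ∈ s, ∑ j ∈ s, ‖ent b T i j‖ ^ 2 ≤ 4 * (1 / 2) ^ l0 := by
  let f : ℕ → ℕ → ℝ := fun i j => if j < K (blk K i) then ‖ent b T i j‖ ^ 2 else 0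
  have h1 : ∀ i j, ‖ent b T i j‖ ^ 2 ≤ f i j + f j i := by
    intro i j
    have a : ∀ i j, 0 ≤ f i j := fun i j => by simp only [f]; positivity
    have b : ∀ i j, blk K j < blk K i → f i j = ‖ent b T i j‖ ^ 2 := fun i j k =>
      if_pos ((lt_blk hK j).trans_le (hK.monotone k))
    rcases lt_trichotomy (blk K i) (blk K j) with k | k | k
    · rw [b j i k, ← hT.star_eq, ent_star, hT.star_eq, RCLike.norm_conj]
      linarith [a i j]
    · simpa [hz i j k] using add_nonneg (a i j) (a j i)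
    · linarith [a j i, b i j k]
  have h2 : ∑ i ∈ s, ∑ j ∈ s, f i j ≤ 2 * (1 / 2) ^ l0 := by
    have a : ∀ i, ∑ j ∈ s, f i j ≤ nu (ent b T) (K (blk K i)) i := fun i => by
      rw [← sum_filter]
      exact sum_le_sum_of_subset_of_nonneg (fun j hj => Finset.mem_range.2 (mem_filter.1 hj).2)
        fun _ _ _ => sq_nonneg _
    refine (sum_le_sum fun i _ => a i).trans ?_
    rw [← sum_fiberwise_of_maps_to (t := Finset.Ico l0 (s.sup (blk K) + 1)) (g := blk K)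
      fun i hi => Finset.mem_Ico.2 ⟨le_blk hK (not_lt.1 fun k => hs hi (Or.inr k)),
        Nat.lt_succ_of_le (le_sup hi)⟩]
    refine (sum_le_sum (g := fun l => (1 / 2 : ℝ) ^ l) fun l hl => ?_).trans
      ((geom_sum_Ico_le_of_lt_one (by norm_num) (by norm_num)).trans_eq (by ring))
    have b := jump_sum (nu_nonneg (ent b T) l (K l)) (s := s.filter (blk K · = l))
      fun e1 a1 e2 a2 e a3 a4 => not_lt.1 fun a5 => by
        obtain ⟨a1, b1⟩ := mem_filter.1 a1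
        obtain ⟨a2, b2⟩ := mem_filter.1 a2
        have b3 : e2 < K (l + 1) := b2 ▸ lt_blk hK e2
        exact (h l (Finset.mem_Ico.1 hl).1 e1 e e2 (b1 ▸ blk_le h0 e1) a3 a4 b3
          (mem_filter.2 ⟨Finset.mem_range.2 (a4.trans_lt b3), a5⟩)).elim
          (fun k => hs a1 (Or.inl k)) fun k => hs a2 (Or.inl k)
    rw [← mul_sum, ← le_div_iff₀' (by positivity)] at b
    rw [sum_congr rfl fun i hi => by rw [(mem_filter.1 hi).2]]
    simpa using b
  refine (sum_le_sum fun i _ => sum_le_sum fun j _ => h1 i j).trans ?_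
  simp only [sum_add_distrib]
  rw [sum_comm (f := fun i j => f j i)]
  linarith

end

variable (b) in
/-- Closure properties of the operators of a model. -/
structure Alg (M : Set V) : Prop where
  add : ∀ S T, opC b S ∈ M → opC b T ∈ M → opC b (S + T) ∈ M
  star : ∀ T, opC b T ∈ M → opC b (star T) ∈ M
  smul : ∀ (q : ℚ) T, opC b T ∈ M → opC b ((q : ℂ) • T) ∈ M
  smulI : ∀ T, opC b T ∈ M → opC b (Complex.I • T) ∈ M
  one : opC b 1 ∈ M
  fin : ∀ k, opC b (dg b {k}) ∈ M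

variable {M : Set V} {φ : (E →L[ℂ] E) → ℂ}

theorem pigeon (hM : Alg b M) (hφ : StateIn b M φ) (h : ℕ → ℕ) (n : ℕ) (hn : ∀ e, h e ≤ n)
    (hU : ∀ r, opC b (dg b {e | h e = r}) ∈ M) :
    ∃ r ≤ n, (φ (dg b {e | h e = r})).re ≤ ((1 / (n + 1) : ℚ) : ℝ) := by
  have h1 : ∀ k, opC b (dg b {e | h e < k}) ∈ M ∧
      φ (dg b {e | h e < k}) = ∑ r ∈ range k, φ (dg b {e | h e = r}) := by
    intro k
    induction k with
    | zero =>
      have a := hM.smul 0 1 hM.one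
      simp only [Nat.not_lt_zero, ofPred_false, dg_empty, Rat.cast_zero] at a ⊢
      exact ⟨a, by simpa using hφ.smul 0 1 hM.one a⟩
    | succ k ih =>
      rw [show {e | h e < k + 1} = {e | h e < k} ∪ {e | h e = k} from
        Set.ext fun _ => Nat.lt_succ_iff_lt_or_eq,
        dg_union (A := {e | h e < k})
          (B := {e | h e = k}) (Set.disjoint_left.2 fun e a b => Nat.ne_of_lt a b), hφ.add _ _ ih.1 (hU k),
        sum_range_succ, ih.2]
      exact ⟨hM.add _ _ ih.1 (hU k), rfl⟩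
  have h2 := congrArg Complex.re (h1 (n + 1)).2
  rw [Set.eq_univ_of_forall (s := {e | h e < n + 1}) fun e => Nat.lt_succ_of_le (hn e), dg_univ,
    hφ.one, Complex.re_sum] at h2
  obtain ⟨r, h3, h4⟩ := exists_le_of_sum_le (s := range (n + 1)) nonempty_range_add_one
    (g := fun _ => ((1 / (n + 1) : ℚ) : ℝ)) (h2.symm.trans_le (by simp; field_simp; rfl))
  exact ⟨r, Nat.le_of_lt_succ (Finset.mem_range.1 h3), h4⟩

theorem dg_fin (hM : Alg b M) (hφ : StateIn b M φ) (h0 : ∀ k, φ (dg b {k}) = 0) {U : Set ℕ}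
    (hU : opC b (dg b U) ∈ M) (k : ℕ) :
    opC b (dg b (U ∪ Set.Iio k)) ∈ M ∧ φ (dg b (U ∪ Set.Iio k)) = φ (dg b U) := by
  induction k with
  | zero => simpa using hU
  | succ k ih =>
    rw [show U ∪ Set.Iio (k + 1) = U ∪ Set.Iio k ∪ {k} by
      rw [Set.union_assoc, Set.Iio_union_right, ← Set.Iio_succ_eq_Iic]; rfl]
    by_cases h : k ∈ U ∪ Set.Iio k
    · rwa [Set.union_eq_self_of_subset_right (Set.singleton_subset_iff.2 h)]
    · rw [dg_union (Set.disjoint_singleton_right.2 h), hφ.add _ _ ih.1 (hM.fin k), h0, add_zero]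
      exact ⟨hM.add _ _ ih.1 (hM.fin k), ih.2⟩

theorem kill (hM : Alg b M) (hφ : StateIn b M φ) (h0 : ∀ k, φ (dg b {k}) = 0) {K : ℕ → ℕ}
    (hK : StrictMono K) (hK0 : K 0 = 0)
    (h : ∀ T, opC b T ∈ M → ∀ n : ℕ, ∃ U l0, opC b (dg b U) ∈ M ∧
      (φ (dg b U)).re ≤ ((1 / (n + 1) : ℚ) : ℝ) ∧ ∀ l, l0 ≤ l → ∀ e1 e e2, K l ≤ e1 → e1 ≤ e →
        e ≤ e2 → e2 < K (l + 1) → e ∈ SS (ent b T) l (K l) (K (l + 1)) → e1 ∈ U ∨ e2 ∈ U)
    (T : E →L[ℂ] E) (hT : opC b T ∈ M) (hz : ∀ i j, blk K i = blk K j → ent b T i j = 0) : φ T = 0 := by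
  have h1 : ∀ T, opC b T ∈ M → IsSelfAdjoint T → (∀ i j, blk K i = blk K j → ent b T i j = 0) →
      0 ≤ (φ T).re ∧ (φ T).im = 0 := by
    intro T hT hs hz
    obtain ⟨C, hC⟩ := exists_nat_ge ‖T‖
    have key : ∀ m : ℕ, -((C ^ 2 + 2) * (1 / (m + 1))) ≤ (φ T).re ∧ (φ T).im = 0 := by
      intro m
      have hm : (0 : ℝ) < m + 1 := by positivity
      obtain ⟨U, l0, a1, a2, a3⟩ := h T hT ((m + 1) ^ 2)
      obtain ⟨l1, a4⟩ := exists_pow_lt_of_lt_one (x := (1 / (m + 1) : ℝ) ^ 2 / 4) (y := 1 / 2)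
        (by positivity) (by norm_num)
      obtain ⟨a5, a6⟩ := dg_fin hM hφ h0 a1 (K (max l0 l1))
      have a7 := pos_op hs (U ∪ Set.Iio (K (max l0 l1))) (δ := 1 / (m + 1))
        (a := (C ^ 2 + 1) / (m + 1)) (w := m + 1) (by positivity) hC (by push_cast; exact hm)
        (by push_cast; field_simp; simp) fun y => hs_bound T (by positivity) fun s hs' =>
          (hs_sum hK hK0 hs hz (fun l hl => a3 l ((le_max_left _ _).trans hl)) s hs').trans (by
            have : (1 / 2 : ℝ) ^ max l0 l1 ≤ (1 / 2) ^ l1 :=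
              pow_le_pow_of_le_one (by norm_num) (by norm_num) (le_max_right _ _)
            linarith)
      have b1 := hM.smul ((C ^ 2 + 1) / (m + 1)) _ hM.one
      have b2 := hM.smul (m + 1) _ a5
      have b3 := hφ.pos _ (hM.add _ _ (hM.add _ _ b1 b2) hT) a7
      rw [hφ.add _ _ (hM.add _ _ b1 b2) hT, hφ.add _ _ b1 b2, hφ.smul _ _ hM.one b1,
        hφ.smul _ _ a5 b2, a6, hφ.one] at b3
      have b4 := (hφ.pos _ a1 (dg_pos U)).2
      simp only [Complex.add_re, Complex.add_im, Complex.mul_re, Complex.mul_im, b4,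
        Complex.ratCast_re, Complex.ratCast_im, mul_one, mul_zero, zero_mul, add_zero, zero_add,
        sub_zero] at b3
      refine ⟨?_, b3.2⟩
      have b5 : (m + 1 : ℝ) * (φ (dg b U)).re ≤ 1 / (m + 1) := by
        rw [← le_div_iff₀' hm, div_div, ← sq]
        refine a2.trans ?_
        push_cast
        gcongr
        simp
      have b6 := b3.1
      push_cast at b6
      rw [div_eq_mul_one_div] at b6
      linarith
    refine ⟨le_of_tendsto' (f := fun m : ℕ => -(((C : ℝ) ^ 2 + 2) * (1 / (m + 1)))) (x := Filter.atTop)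
      ?_ fun m => (key m).1, (key 0).2⟩
    simpa only [mul_zero, neg_zero] using
      ((tendsto_one_div_add_atTop_nhds_zero_nat (𝕜 := ℝ)).const_mul ((C : ℝ) ^ 2 + 2)).neg
  have h2 : ∀ T, opC b T ∈ M → IsSelfAdjoint T → (∀ i j, blk K i = blk K j → ent b T i j = 0) →
      φ T = 0 := by
    intro T hT hs hz
    have a := hM.smul (-1) T hT
    have b := (h1 _ a ((IsSelfAdjoint.ratCast (-1)).smul hs) fun i j k => by
      rw [ent_smul]; simp [hz i j k]).1
    rw [hφ.smul _ _ hT a] at b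
    exact Complex.ext (le_antisymm (by simpa using b) (h1 T hT hs hz).1) (h1 T hT hs hz).2
  have a1 := hM.star T hT
  have a2 := hM.smulI T hT
  have a3 := hM.add _ _ hT a1
  have a4 := hM.add _ _ a2 (hM.star _ a2)
  have b1 := h2 _ a3 (.add_star_self T) fun i j k => by
    simp [ent_add, ent_star, hz i j k, hz j i k.symm]
  have b2 := h2 _ a4 (.add_star_self _) fun i j k => by
    simp only [ent_add, Pi.add_apply, ent_star]
    simp [ent_smul, hz i j k, hz j i k.symm]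
  have a5 := hM.smul (-1) _ (hM.smulI _ a1)
  rw [star_smul, show star Complex.I • star T = ((-1 : ℚ) : ℂ) • Complex.I • star T by simp,
    hφ.add _ _ a2 a5, hφ.smul _ _ (hM.smulI _ a1) a5, hφ.smul _ _ a1 (hM.smulI _ a1),
    hφ.smul _ _ hT a2] at b2
  rw [hφ.add _ _ hT a1] at b1
  push_cast at b2
  linear_combination (1 / 2) * b1 - Complex.I / 2 * b2 +
    (φ T - φ (star T)) / 2 * Complex.I_mul_I

end Pool.Agent.Lib.BDS
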