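import Pool.Agent.Lib.MP_fecf72_lc.Main

namespace Pool.Agent.Lib.MP_fecf72_lc.LV

open Set Filter

instance : MeasurableSpace (List ℕ) := ⊤
instance : MeasurableSingletonClass (List ℕ) := ⟨fun _ => trivial⟩

/-- Preconditions of Laver forcing: a stem and allowed successors (nodes are written backwards). -/
abbrev Lc : Type := List ℕ × (List ℕ → ℕ → Prop)

/-- Nodes above the stem. -/
def Ab (x : Lc) : List ℕ → Prop
  | [] => x.1 = []
  | n :: τ => x.1 = n :: τ ∨ (Ab x τ ∧ x.2 τ n)

/-- Conditions. -/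
def Nrm (x : Lc) : Prop := ∀ τ, Ab x τ → ∀ m, ∃ n, m ≤ n ∧ x.2 τ n

/-- The order. -/
def Qle (x y : Lc) : Prop := ∀ τ, Ab x τ → Ab y τ

/-- Restriction to a node. -/
def rst (x : Lc) (τ : List ℕ) : Lc := (τ, x.2)

variable {x y : Lc} {σ τ : List ℕ} {n : ℕ}

theorem Qle.refl (x : Lc) : Qle x x := fun _ h => h

theorem Qle.trans {z : Lc} (h : Qle x y) (k : Qle y z) : Qle x z := fun τ a => k τ (h τ a)

theorem ab_of_eq (h : x.1 = τ) : Ab x τ := by
  cases τ
  exacts [h, Or.inl h]

theorem ab_stem (x : Lc) : Ab x x.1 := ab_of_eq rfl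

theorem Ab.cons (h : Ab x τ) (k : x.2 τ n) : Ab x (n :: τ) := Or.inr ⟨h, k⟩

theorem Ab.suf : ∀ {τ : List ℕ}, Ab x τ → x.1 <:+ τ
  | [], h => by rw [show x.1 = [] from h]
  | n :: τ, h => by
    rcases h with h | h
    · rw [h]
    · exact (Ab.suf h.1).trans (List.suffix_cons n τ)

theorem Ab.of_cons (h : Ab x (n :: τ)) (k : x.1.length ≤ τ.length) : Ab x τ ∧ x.2 τ n := by
  rcases h with h | h
  · rw [h] at k; simp at k
  · exact h

theorem Ab.conv : ∀ {τ : List ℕ}, Ab x τ → σ <:+ τ → x.1.length ≤ σ.length → Ab x σ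
  | [], h, k, _ => by rwa [List.suffix_nil.1 k]
  | n :: τ, h, k, l => by
    rcases List.suffix_cons_iff.1 k with rfl | k
    · exact h
    · exact Ab.conv (h.of_cons (l.trans k.length_le)).1 k l

theorem Ab.ind {P : List ℕ → Prop} (h0 : P x.1) (h1 : ∀ τ n, Ab x τ → x.2 τ n → P τ → P (n :: τ)) :
    ∀ {τ : List ℕ}, Ab x τ → P τ
  | [], h => (show x.1 = [] from h) ▸ h0
  | n :: τ, h => by
    rcases h with h | h
    · exact h ▸ h0
    · exact h1 τ n h.1 h.2 (Ab.ind h0 h1 h.1)

theorem rst_le (h : Ab x σ) : Qle (rst x σ) x := fun _ k =>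
  Ab.ind (x := rst x σ) (P := Ab x) h (fun _ _ _ a b => b.cons a) k

theorem ab_rst (h : σ <:+ τ) (l : x.1.length ≤ σ.length) (k : Ab x τ) : Ab (rst x σ) τ := by
  induction τ with
  | nil => exact List.suffix_nil.1 h
  | cons n τ ih =>
    rcases List.suffix_cons_iff.1 h with rfl | h
    · exact ab_of_eq rfl
    · have := k.of_cons (l.trans h.length_le)
      exact (ih h this.1).cons this.2

theorem Qle.rst (h : Qle x y) (k : σ <:+ x.1) (l : y.1.length ≤ σ.length) : Qle x (rst y σ) :=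
  fun τ a => ab_rst (k.trans a.suf) l (h τ a)

theorem Qle.rst' (h : Qle x y) (k : x.1 = σ) : Qle x (LV.rst y σ) :=
  h.rst (k ▸ List.suffix_rfl) (k ▸ (h _ (ab_stem x)).suf.length_le)

theorem Nrm.rst (h : Nrm x) (k : Ab x σ) : Nrm (rst x σ) := fun τ a => h τ (rst_le k τ a)

theorem Nrm.long (h : Nrm x) (L : ℕ) (k : x.1.length ≤ L) : ∃ τ, Ab x τ ∧ τ.length = L := by
  induction k with
  | refl => exact ⟨_, ab_stem x, rfl⟩
  | step _ ih =>
    obtain ⟨τ, h1, h2⟩ := ih
    obtain ⟨n, -, h3⟩ := h τ h1 0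
    exact ⟨n :: τ, h1.cons h3, by simp [h2]⟩

theorem Nrm.sepv (h : Nrm x) (k : ¬ Qle x y) : ∃ σ, Ab x σ ∧ ∀ τ, σ <:+ τ → ¬ Ab y τ := by
  simp only [Qle, not_forall] at k
  obtain ⟨τ0, h1, h2⟩ := k
  rcases le_or_gt y.1.length τ0.length with l | l
  · exact ⟨τ0, h1, fun τ a b => h2 (b.conv a l)⟩
  · obtain ⟨n, h3, h4⟩ := h τ0 h1 (y.1.sum + 1)
    refine ⟨n :: τ0, h1.cons h4, fun τ a b => ?_⟩
    have := List.suffix_of_suffix_length_le a b.suf l
    have := List.single_le_sum (fun _ _ => Nat.zero_le _) n (this.subset List.mem_cons_self)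
    omega

theorem fus {s : List ℕ} {c : List ℕ → Lc} {B : List ℕ → ℕ → Prop} {I : List ℕ → Prop} (h0 : I s)
    (hs : ∀ τ, I τ → (c τ).1 = τ)
    (hB : ∀ τ n, I τ → s.length ≤ τ.length → B τ n → I (n :: τ) ∧ Qle (c (n :: τ)) (c τ)) :
    ∀ τ, Ab (s, B) τ → I τ ∧ Qle (rst (s, B) τ) (c τ) := by
  have h1 : ∀ τ, Ab (s, B) τ → I τ := fun τ h =>
    Ab.ind (x := (s, B)) h0 (fun τ n a b c => (hB τ n c a.suf.length_le b).1) h
  refine fun τ h => ⟨h1 τ h, fun σ k => ?_⟩
  have : Qle (c σ) (c τ) := Ab.ind (x := rst (s, B) τ) (P := fun σ => Qle (c σ) (c τ)) (Qle.refl _)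
    (fun σ n a b d => (hB σ n (h1 σ (rst_le h σ a)) (rst_le h σ a).suf.length_le b).2.trans d) k
  exact this σ (ab_of_eq (hs σ (h1 σ (rst_le h σ k))))

section
variable {α : Type*} [MeasurableSpace α]

theorem meas_app {ι β : Type*} [MeasurableSpace β] [MeasurableSpace ι] [Countable ι]
    [MeasurableSingletonClass ι] {f : α → ι → β} {g : α → ι} (hf : Measurable f)
    (hg : Measurable g) : Measurable fun a => f a (g a) :=
  meas_ctbl (f := fun i a => f a i) (fun _ => hf.eval) hg

theorem meas_cmp {ι β : Type*} [MeasurableSpace β] [MeasurableSpace ι] [Countable ι]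
    [MeasurableSingletonClass ι] (f : ι → β) {g : α → ι} (hg : Measurable g) :
    Measurable fun a => f (g a) := (measurable_of_countable f).comp hg

theorem meas_ab {X : α → Lc} (h : Measurable X) : ∀ τ, Measurable fun a => Ab (X a) τ
  | [] => meas_eq_ctbl h.fst measurable_const
  | _ :: τ => (meas_eq_ctbl h.fst measurable_const).or ((meas_ab h τ).and h.snd.eval.eval)

theorem meas_nrm {X : α → Lc} (h : Measurable X) : Measurable fun a => Nrm (X a) :=
  Measurable.forall fun τ => (meas_ab h τ).imp (Measurable.forall fun _ =>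
    Measurable.exists fun _ => measurable_const.and h.snd.eval.eval)

theorem meas_qle {X Y : α → Lc} (h : Measurable X) (k : Measurable Y) :
    Measurable fun a => Qle (X a) (Y a) :=
  Measurable.forall fun τ => (meas_ab h τ).imp (meas_ab k τ)

theorem meas_rst {X : α → Lc} (h : Measurable X) (τ : List ℕ) : Measurable fun a => rst (X a) τ :=
  measurable_const.prodMk h.snd

end

/-- Decoding of preconditions. -/
noncomputable def dq (c : Cs) : Lc :=
  (Denumerable.ofNat _ (sInf {m | c (2 * m) = true}),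
    fun τ n => c (2 * Nat.pair (Encodable.encode τ) n + 1) = false)

open Classical in
/-- Encoding of preconditions. -/
noncomputable def eq' (x : Lc) : Cs := fun j =>
  if j % 2 = 0 then decide (j / 2 = Encodable.encode x.1)
  else decide (¬ x.2 (Denumerable.ofNat _ (j / 2).unpair.1) (j / 2).unpair.2)

theorem dq_eq (x : Lc) : dq (eq' x) = x := by
  refine Prod.ext ?_ ?_
  · have : {m | eq' x (2 * m) = true} = {Encodable.encode x.1} := by
      ext m; simp [eq']
    simp [dq, this]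
  · funext τ n
    have e1 : (2 * Nat.pair (Encodable.encode τ) n + 1) % 2 ≠ 0 := by omega
    have e2 : (2 * Nat.pair (Encodable.encode τ) n + 1) / 2 = Nat.pair (Encodable.encode τ) n := by
      omega
    simp [dq, eq', e1, e2]

theorem meas_dq : Measurable dq :=
  (meas_cmp _ (meas_sInf fun _ => meas_cmp (· = true) (measurable_pi_apply _))).prodMk
    (measurable_pi_lambda _ fun _ => measurable_pi_lambda _ fun _ =>
      meas_cmp (· = false) (measurable_pi_apply _))

theorem meas_eq' : Measurable eq' := by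
  refine measurable_pi_lambda _ fun j => meas_bool ?_
  unfold eq'
  split_ifs
  · simp only [decide_eq_true_eq]
    exact meas_cmp (fun s => j / 2 = Encodable.encode s) measurable_fst
  · simp only [decide_eq_true_eq]
    exact measurable_snd.eval.eval.not

theorem ab_top : ∀ τ, Ab (dq fun _ => false) τ
  | [] => by simp [Ab, dq]
  | _ :: τ => (ab_top τ).cons rfl

theorem nrm_top : Nrm (dq fun _ => false) := fun _ _ m => ⟨m, le_rfl, rfl⟩

end Pool.Agent.Lib.MP_fecf72_lc.LV
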