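import Pool.Agent.Lib.MP_fecf72_lc.Defs

namespace Pool.Agent.Lib.BDS

open Pool.Agent.Lib.MP_fecf72_lc

variable {E : Type} [NormedAddCommGroup E] [InnerProductSpace ℂ E] (b : HilbertBasis ℕ ℂ E)

/-- Matrix entries of an operator in the basis `b`. -/
noncomputable def ent (T : E →L[ℂ] E) (i j : ℕ) : ℂ := inner ℂ (b i) (T (b j))

/-- The rank one projection onto a basis vector. -/
noncomputable def pr1 (k : ℕ) : E →L[ℂ] E := InnerProductSpace.rankOne ℂ (b k) (b k)

/-- An operator as a set: the numbers of all `(i, j, s, q)` with `q` rational and below the real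
part (`s` true) or the imaginary part (`s` false) of the entry at `(i, j)`. -/
noncomputable def opC (T : E →L[ℂ] E) : V :=
  img {p : ℕ × ℕ × Bool × ℚ | (p.2.2.2 : ℝ) <
    if p.2.2.1 then (ent b T p.1 p.2.1).re else (ent b T p.1 p.2.1).im}
    fun p => natC (Encodable.encode p)

/-- A complex number as a set. -/
noncomputable def cxC (z : ℂ) : V := ZFSet.pair (realC z.re) (realC z.im)

/-- The restriction of `φ` to the operators in `M` belongs to `M` and is a state. -/
structure StateIn (M : Set V) (φ : (E →L[ℂ] E) → ℂ) : Prop where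
  mem : img {T | opC b T ∈ M} (fun T => ZFSet.pair (opC b T) (cxC (φ T))) ∈ M
  add : ∀ S T, opC b S ∈ M → opC b T ∈ M → φ (S + T) = φ S + φ T
  smul : ∀ (c : ℂ) T, opC b T ∈ M → opC b (c • T) ∈ M → φ (c • T) = c * φ T
  pos : ∀ T, opC b T ∈ M → T.IsPositive → 0 ≤ (φ T).re ∧ (φ T).im = 0
  one : φ 1 = 1

end Pool.Agent.Lib.BDS
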