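import Pool.Agent.Lib.BDS.Comb

namespace Pool.Agent.Lib.MP_fecf72_lc.LV

open Set Filter

section
variable {U : Type 1}

/-- The precondition named by `ρ`. -/
noncomputable def qv (ρ : Nam U) (G : Set U) : Lc := dq (ev ρ G)

theorem ms_qv {S : Set U} {ρ : Nam U} (h : Sup S ρ) : Ms S (qv ρ) := (ms_ev h).comp meas_dq

theorem qv_empty (G : Set U) : qv (∅ : Nam U) G = dq fun _ => false := by
  rw [qv]; congr 1; funext n; simp [ev]

/-- The canonical name of a precondition. -/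
def nameQ (R : U → U → Prop) (f : Set U → Lc) : Nam U := nameOf R fun G => eq' (f G)

theorem qv_nameQ {R : U → U → Prop} (hR : Fo R) {S : Set U} {f : Set U → Lc} (hf : Ms S f) (p : U) :
    Frc R p fun G => qv (nameQ R f) G = f G :=
  (ev_nameOf hR (hf.comp meas_eq')).mono fun G _ _ h => by rw [qv, nameQ, h, dq_eq]

theorem ms_ab {S : Set U} {f : Set U → Lc} (h : Ms S f) (τ : List ℕ) :
    Ms S fun G => Ab (f G) τ := meas_ab h τ

theorem ms_qle {S : Set U} {f g : Set U → Lc} (h : Ms S f) (k : Ms S g) :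
    Ms S fun G => Qle (f G) (g G) := meas_qle h k

theorem ms_cmp {S : Set U} {ι β : Type*} [MeasurableSpace β] [MeasurableSpace ι] [Countable ι]
    [MeasurableSingletonClass ι] (f : ι → β) {g : Set U → ι} (h : Ms S g) :
    Ms S fun G => f (g G) := meas_cmp f h

theorem ms_app {S : Set U} {ι β : Type*} [MeasurableSpace β] [MeasurableSpace ι] [Countable ι]
    [MeasurableSingletonClass ι] {f : Set U → ι → β} {g : Set U → ι} (hf : Ms S f) (h : Ms S g) :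
    Ms S fun G => f G (g G) := meas_app hf h

theorem ms_stem {S : Set U} {f : Set U → Lc} (h : Ms S f) : Ms S fun G => (f G).1 :=
  Measurable.fst h

theorem ms_suc {S : Set U} {f : Set U → Lc} (h : Ms S f) (τ : List ℕ) (n : ℕ) :
    Ms S fun G => (f G).2 τ n := (Measurable.snd h).eval.eval

end

/-- The coordinatewise relations over a given order. -/
def coOf (R : U0 → U0 → Prop) (β : U0) : (U0 → Prop) × (U0 → U0 → Prop) :=
  (fun p => Sup {s | R s s} (dec p β) ∧ Frc R (rs p β) fun G => Nrm (qv (dec p β) G),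
   fun p q => Frc R (rs p β) fun G => Qle (qv (dec p β) G) (qv (dec q β) G))

/-- The coordinatewise relations of the iteration. -/
noncomputable def co (β : U0) : (U0 → Prop) × (U0 → U0 → Prop) :=
  coOf (mkR β fun γ _ => co γ) β
termination_by β
decreasing_by exact WithTop.coe_lt_coe.1 ‹_›

/-- The order of the iteration at level `α`. -/
def RR (α : Lv) : U0 → U0 → Prop := mkR α fun γ _ => co γ

/-- The conditions of the iteration at level `α`. -/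
def PP (α : Lv) : Set U0 := {p | RR α p p}

/-- Coordinate `β` is a name for a condition. -/
def okc (β p : U0) : Prop :=
  Sup (PP β) (dec p β) ∧ Frc (RR β) (rs p β) fun G => Nrm (qv (dec p β) G)

/-- Coordinate `β` is forced to be stronger. -/
def lec (β p q : U0) : Prop := Frc (RR β) (rs p β) fun G => Qle (qv (dec p β) G) (qv (dec q β) G)

theorem co_eq (β : U0) : co β = (okc β, lec β) := by rw [co]; rfl

theorem lec_refl (β p : U0) : lec β p p := frc_of_all fun _ _ _ => Qle.refl _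

theorem mem_PP {α : Lv} {p : U0} : p ∈ PP α ↔ Shape α p ∧ ∀ γ : U0, (γ : Lv) < α → okc γ p := by
  simp only [PP, RR, mkR, co_eq, mem_ofPred_eq, lec_refl, implies_true, and_true, and_self]

theorem RR_iff {α : Lv} {p q : U0} :
    RR α p q ↔ p ∈ PP α ∧ q ∈ PP α ∧ ∀ γ : U0, (γ : Lv) < α → lec γ p q := by
  simp only [mem_PP, RR, mkR, co_eq]

theorem rs_self {p : U0} {α γ : Lv} (hp : p ∈ PP α) (h : α ≤ γ) : rs p γ = p := by
  obtain ⟨⟨h1, -, h2⟩, -⟩ := mem_PP.1 hp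
  rw [rs]
  refine Eq.trans ?_ h1
  congr 1
  funext β
  split_ifs with k
  exacts [rfl, (h2 β fun k' => k (k'.trans_le h)).symm]

theorem okc_congr {p q β : U0} (h : ∀ γ ≤ β, dec p γ = dec q γ) : okc β p ↔ okc β q := by
  rw [okc, okc, h β le_rfl, rs_congr fun γ k => h γ (WithTop.coe_lt_coe.1 k).le]

theorem lec_congr {p q p' q' β : U0} (h : ∀ γ ≤ β, dec p γ = dec p' γ) (h' : dec q β = dec q' β) :
    lec β p q ↔ lec β p' q' := by
  rw [lec, lec, h β le_rfl, h', rs_congr fun γ k => h γ (WithTop.coe_lt_coe.1 k).le]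

theorem PP_rs {p : U0} {α γ : Lv} (hp : p ∈ PP α) (h : γ ≤ α) : rs p γ ∈ PP γ := by
  obtain ⟨⟨-, h1, -⟩, h2⟩ := mem_PP.1 hp
  refine mem_PP.2 ⟨shape_rs h1 γ, fun β hβ => ?_⟩
  exact (okc_congr fun δ hδ => dec_rs_lt ((WithTop.coe_le_coe.2 hδ).trans_lt hβ)).2
    (h2 β (hβ.trans_le h))

theorem RR_rs {p q : U0} {α γ : Lv} (hp : RR α p q) (h : γ ≤ α) : RR γ (rs p γ) (rs q γ) := by
  obtain ⟨h1, h2, h3⟩ := RR_iff.1 hp
  exact RR_iff.2 ⟨PP_rs h1 h, PP_rs h2 h, fun β hβ =>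
    (lec_congr (fun δ hδ => dec_rs_lt ((WithTop.coe_le_coe.2 hδ).trans_lt hβ)) (dec_rs_lt hβ)).2
      (h3 β (hβ.trans_le h))⟩

theorem fo (α : Lv) : Fo (RR α) where
  tr := by
    intro p q r h k
    obtain ⟨h1, -, h3⟩ := RR_iff.1 h
    obtain ⟨-, k2, k3⟩ := RR_iff.1 k
    exact RR_iff.2 ⟨h1, k2, fun β hβ => ((h3 β hβ).and ((k3 β hβ).le (RR_rs h hβ.le))).mono
      fun _ _ _ h => h.1.trans h.2⟩
  l := fun h => (RR_iff.1 h).1
  r := fun h => (RR_iff.1 h).2.1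

theorem okc_empty {β p : U0} (h : dec p β = ∅) : okc β p := by
  rw [okc, h]
  exact ⟨fun _ h => h.elim, frc_of_all fun G _ _ => qv_empty G ▸ nrm_top⟩

theorem lec_empty {β q : U0} (p : U0) (h : dec q β = ∅) : lec β p q := by
  rw [lec, h]
  exact frc_of_all fun G _ _ σ _ => qv_empty G ▸ ab_top σ

theorem PP.empty {α : Lv} {p β : U0} (hp : p ∈ PP α) (h : ¬ (β : Lv) < α) : dec p β = ∅ :=
  (mem_PP.1 hp).1.2.2 β h

theorem PP_mono {α γ : Lv} (h : γ ≤ α) : PP γ ⊆ PP α := by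
  intro p hp
  obtain ⟨⟨h1, h2, h3⟩, h4⟩ := mem_PP.1 hp
  refine mem_PP.2 ⟨⟨h1, h2, fun β k => h3 β fun k' => k (k'.trans_le h)⟩, fun β _ => ?_⟩
  by_cases k : (β : Lv) < γ
  exacts [h4 β k, okc_empty (h3 β k)]

theorem RR_up {p q : U0} {α γ : Lv} (h : γ ≤ α) (hp : p ∈ PP α) (k : RR γ (rs p γ) q) :
    RR α p q := by
  obtain ⟨-, h2, h3⟩ := RR_iff.1 k
  refine RR_iff.2 ⟨hp, PP_mono h h2, fun β _ => ?_⟩
  by_cases hβ : (β : Lv) < γ
  · exact (lec_congr (fun δ hδ => dec_rs_lt ((WithTop.coe_le_coe.2 hδ).trans_lt hβ)) rfl).1 (h3 β hβ)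
  · exact lec_empty p (PP.empty h2 hβ)

theorem RR_mono {p q : U0} {α γ : Lv} (h : γ ≤ α) (k : RR γ p q) : RR α p q :=
  RR_up h (PP_mono h ((fo γ).l k)) (by rwa [rs_self ((fo γ).l k) le_rfl])

theorem RR_rs_self {p : U0} {α γ : Lv} (h : γ ≤ α) (hp : p ∈ PP α) : RR α p (rs p γ) :=
  RR_up h hp (PP_rs hp h)

theorem RR_down {p q : U0} {α γ : Lv} (h : γ ≤ α) (hq : q ∈ PP γ) (k : RR α p q) :
    RR γ (rs p γ) q := by
  have := RR_rs k h
  rwa [rs_self hq le_rfl] at this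

theorem RR_build {α : Lv} {p r : U0} (hp : Shape α p) (hr : r ∈ PP α)
    (h : ∀ β : U0, (β : Lv) < α → RR β (rs p β) (rs r β) → okc β p ∧ lec β p r) : RR α p r := by
  have key : ∀ β : U0, (β : Lv) < α → okc β p ∧ lec β p r := by
    intro β
    induction β using WellFoundedLT.induction with
    | ind β ih =>
      intro hβ
      refine h β hβ (RR_iff.2 ⟨mem_PP.2 ⟨shape_rs hp.2.1 β, fun γ hγ => ?_⟩,
        PP_rs hr hβ.le, fun γ hγ => ?_⟩)
      · exact (okc_congr fun δ hδ => dec_rs_lt ((WithTop.coe_le_coe.2 hδ).trans_lt hγ)).2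
          (ih γ (WithTop.coe_lt_coe.1 hγ) (hγ.trans hβ)).1
      · exact (lec_congr (fun δ hδ => dec_rs_lt ((WithTop.coe_le_coe.2 hδ).trans_lt hγ))
          (dec_rs_lt hγ)).2 (ih γ (WithTop.coe_lt_coe.1 hγ) (hγ.trans hβ)).2
  exact RR_iff.2 ⟨mem_PP.2 ⟨hp, fun β hβ => (key β hβ).1⟩, hr, fun β hβ => (key β hβ).2⟩

theorem same_coord {β p r : U0} (hr : okc β r) (h : dec p β = dec r β)
    (k : RR β (rs p β) (rs r β)) : okc β p ∧ lec β p r := by
  rw [okc, lec, h]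
  exact ⟨⟨hr.1, hr.2.le k⟩, frc_of_all fun _ _ _ => Qle.refl _⟩

theorem exists_glue {α γ : Lv} (h : γ ≤ α) {s r : U0} (hr : r ∈ PP α) (hs : RR γ s (rs r γ)) :
    ∃ t, RR α t r ∧ RR α t s ∧ rs t γ = s ∧ ∀ β : U0, ¬ (β : Lv) < γ → dec t β = dec r β := by
  classical
  obtain ⟨h1, -, h3⟩ := RR_iff.1 hs
  have hsm : Sm fun β => if (β : Lv) < γ then dec s β else dec r β :=
    (sm_dec s).union (sm_dec r) fun β => by split_ifs <;> simp
  have e1 : ∀ β : U0, (β : Lv) < γ → dec (enc fun β => if (β : Lv) < γ then dec s β else dec r β) β =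
    dec s β := fun β k => by rw [dec_enc hsm]; exact if_pos k
  have e2 : ∀ β : U0, ¬ (β : Lv) < γ →
      dec (enc fun β => if (β : Lv) < γ then dec s β else dec r β) β = dec r β :=
    fun β k => by rw [dec_enc hsm]; exact if_neg k
  have e3 := (rs_congr e1).trans (rs_self h1 le_rfl)
  have key : RR α (enc fun β => if (β : Lv) < γ then dec s β else dec r β) r := by
    refine RR_build (shape_enc hsm (((mem_PP.1 h1).1.2.1.union (mem_PP.1 hr).1.2.1).mono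
      fun β hβ => ?_) fun β k => ?_) hr fun β hβ k => ?_
    · by_contra hc
      simp only [mem_union, mem_ofPred_eq, not_or, not_not] at hc
      exact hβ (by simp [hc.1, hc.2])
    · rw [if_neg fun k' => k (k'.trans_le h), PP.empty hr k]
    · by_cases hc : (β : Lv) < γ
      · have e4 := fun δ (hδ : δ ≤ β) => e1 δ ((WithTop.coe_le_coe.2 hδ).trans_lt hc)
        exact ⟨(okc_congr e4).2 ((mem_PP.1 h1).2 β hc),
          (lec_congr e4 (dec_rs_lt hc).symm).2 (h3 β hc)⟩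
      · exact same_coord ((mem_PP.1 hr).2 β hβ) (e2 β hc) k
  exact ⟨_, key, RR_up h ((fo α).l key) (by rw [e3]; exact h1), e3, e2⟩

theorem small_PP (β : U0) : Small.{0} (PP β) := by
  induction β using WellFoundedLT.induction with
  | ind β ih =>
    have : ∀ γ : Iio β, Small.{0} (PP (γ.1 : U0)) := fun γ => ih γ.1 γ.2
    refine small_of_injective (β := Set (Σ γ : Iio β, PP (γ.1 : U0) × ℕ))
      (f := fun p => {x | (x.2.1.1, x.2.2) ∈ dec p.1 x.1.1}) fun p q h => Subtype.ext ?_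
    obtain ⟨⟨h1, -, h2⟩, h3⟩ := mem_PP.1 p.2
    obtain ⟨⟨k1, -, k2⟩, k3⟩ := mem_PP.1 q.2
    rw [← h1, ← k1]
    congr 1
    funext γ
    by_cases hγ : (γ : Lv) < β
    · ext x
      have := fun hx : x.1 ∈ PP γ => Set.ext_iff.1 h ⟨⟨γ, WithTop.coe_lt_coe.1 hγ⟩, ⟨x.1, hx⟩, x.2⟩
      exact ⟨fun k => (this ((h3 γ hγ).1 x k)).1 k, fun k => (this ((k3 γ hγ).1 x k)).2 k⟩
    · rw [h2 γ hγ, k2 γ hγ]

theorem small_sup {β : U0} {τ : Nam U0} (h : Sup (PP β) τ) : Small.{0} τ := by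
  have := small_PP β
  exact small_subset (s := PP β ×ˢ (univ : Set ℕ)) fun x hx => ⟨h x hx, trivial⟩

theorem exists_upd {α : Lv} {β : U0} (h : (β : Lv) < α) {r : U0} (hr : r ∈ PP α) {s : U0}
    (hs : RR β s (rs r β)) {τ : Nam U0} (h1 : Sup (PP β) τ) 
    (h2 : Frc (RR β) s fun G => Nrm (qv τ G))
    (h3 : Frc (RR β) s fun G => Qle (qv τ G) (qv (dec r β) G)) :
    ∃ t, RR α t r ∧ rs t β = s ∧ dec t β = τ := by
  classical
  obtain ⟨t, k1, -, k2, k3⟩ := exists_glue h.le hr hs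
  have ht := (fo α).l k1
  have := small_sup h1
  have hsm : Sm (Function.update (dec t) β τ) :=
    (sm_dec t).union (sm_single β τ) fun γ => by
      by_cases hγ : γ = β
      · subst hγ; simp
      · simp [Function.update_of_ne hγ]
  have e1 : ∀ γ, γ ≠ β → dec (enc (Function.update (dec t) β τ)) γ = dec t γ := fun γ hγ => by
    rw [dec_enc hsm, Function.update_of_ne hγ]
  have e2 : dec (enc (Function.update (dec t) β τ)) β = τ := by
    rw [dec_enc hsm, Function.update_self]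
  have e3 : rs (enc (Function.update (dec t) β τ)) β = s :=
    (rs_congr fun γ k => e1 γ (WithTop.coe_lt_coe.1 k).ne).trans k2
  refine ⟨_, (fo α).tr (RR_build (shape_enc hsm (((mem_PP.1 ht).1.2.1.insert β).mono
    fun γ hγ => ?_) fun γ k => ?_) ht fun γ hγ k => ?_) k1, e3, e2⟩
  · by_cases hc : γ = β
    · exact Or.inl hc
    · exact Or.inr (by simpa [Function.update_of_ne hc] using hγ)
  · rw [Function.update_of_ne (fun (k' : γ = β) => k (k' ▸ h)), PP.empty ht k]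
  · by_cases hc : γ = β
    · subst hc
      rw [okc, lec, e2, e3, k3 γ (lt_irrefl _)]
      exact ⟨⟨h1, h2⟩, h3⟩
    · exact same_coord ((mem_PP.1 ht).2 γ hγ) (e1 γ hc) k

theorem top_mem (α : Lv) : top ∈ PP α :=
  mem_PP.2 ⟨shape_enc ((sm_dec 0).mono fun _ => empty_subset _) (by simp) fun _ _ => rfl,
    fun β _ => okc_empty (dec_top β)⟩

theorem RR_top {α : Lv} {p : U0} (hp : p ∈ PP α) : RR α p top :=
  RR_iff.2 ⟨hp, top_mem α, fun β _ => lec_empty p (dec_top β)⟩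

theorem IsF.proj {α γ : Lv} (h : γ ≤ α) {G : Set U0} (hG : IsF (RR α) G) :
    IsF (RR γ) (G ∩ PP γ) := by
  refine ⟨fun p hp q k => ⟨hG.1 p hp.1 q (RR_mono h k), (fo γ).r k⟩, fun p hp q hq => ?_⟩
  obtain ⟨r, h1, h2, h3⟩ := hG.2 p hp.1 q hq.1
  have hr := (fo α).l h2
  exact ⟨rs r γ, ⟨hG.1 r h1 _ (RR_rs_self h hr), PP_rs hr h⟩, RR_down h hp.2 h2, RR_down h hq.2 h3⟩

theorem Frc.lift {α γ : Lv} (h : γ ≤ α) {s : U0} (hs : s ∈ PP γ) {φ : Set U0 → Prop}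
    (k : Frc (RR γ) s φ) : Frc (RR α) s fun G => φ (G ∩ PP γ) := by
  obtain ⟨D, h1, h2⟩ := k
  refine ⟨fun n => {t | ∃ d ∈ D n, RR γ d d ∧ RR α t d}, fun n p hp => ?_, fun G hG k hsG => ?_⟩
  · obtain ⟨d, h3, h4⟩ := h1 n _ (PP_rs hp h)
    obtain ⟨t, h5, h6, -⟩ := exists_glue h hp h4
    exact ⟨t, ⟨d, h3, (fo γ).l h4, h6⟩, h5⟩
  · refine h2 _ (IsF.proj h hG) (fun n => ?_) ⟨hsG, hs⟩
    obtain ⟨t, ⟨d, h3, h4, h5⟩, h6⟩ := k n
    exact ⟨d, h3, hG.1 t h6 d h5, h4⟩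

theorem Frc.lift' {α γ : Lv} (h : γ ≤ α) {t : U0} (ht : t ∈ PP α) {φ : Set U0 → Prop}
    (hm : Ms (PP γ) φ) (k : Frc (RR γ) (rs t γ) φ) : Frc (RR α) t φ :=
  ((Frc.lift h (PP_rs ht h) k).le (RR_rs_self h ht)).mono fun G _ _ k => (hm.loc G).mp k

theorem sup_nameOf (α : Lv) (f : Set U0 → Cs) : Sup (PP α) (nameOf (RR α) f) := fun _ h => h.1

theorem PP.sup {α : Lv} {p β : U0} (hp : p ∈ PP α) (h : (β : Lv) < α) : Sup (PP β) (dec p β) :=
  ((mem_PP.1 hp).2 β h).1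

theorem PP.ok {α : Lv} {p β : U0} (hp : p ∈ PP α) (h : (β : Lv) < α) :
    Frc (RR β) (rs p β) fun G => Nrm (qv (dec p β) G) := ((mem_PP.1 hp).2 β h).2

theorem RR.lec {α : Lv} {p q β : U0} (hp : RR α p q) (h : (β : Lv) < α) :
    Frc (RR β) (rs p β) fun G => Qle (qv (dec p β) G) (qv (dec q β) G) := (RR_iff.1 hp).2.2 β h

/-- Strengthen one coordinate by a measurable function. -/
theorem exists_upd' {α : Lv} {β : U0} (h : (β : Lv) < α) {r : U0} (hr : r ∈ PP α) {s : U0}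
    (hs : RR β s (rs r β)) {f : Set U0 → Lc} (hf : Ms (PP β) f)
    (h1 : Frc (RR β) s fun G => Nrm (f G) ∧ Qle (f G) (qv (dec r β) G)) :
    ∃ t, RR α t r ∧ rs t β = s ∧ Frc (RR β) s fun G => qv (dec t β) G = f G := by
  have e := qv_nameQ (fo β) hf s
  obtain ⟨t, k1, k2, k3⟩ := exists_upd h hr hs (τ := nameQ (RR β) f) (sup_nameOf _ _)
    ((h1.and e).mono fun G _ _ k => k.2 ▸ k.1.1) ((h1.and e).mono fun G _ _ k => k.2 ▸ k.1.2)
  exact ⟨t, k1, k2, k3 ▸ e⟩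

/-- Restrict one coordinate to a node. -/
theorem exists_rst {α : Lv} {β : U0} (h : (β : Lv) < α) {r : U0} (hr : r ∈ PP α) {s : U0}
    (hs : RR β s (rs r β)) {σ : List ℕ} (h1 : Frc (RR β) s fun G => Ab (qv (dec r β) G) σ) :
    ∃ t, RR α t r ∧ rs t β = s ∧
      Frc (RR β) s fun G => qv (dec t β) G = rst (qv (dec r β) G) σ :=
  exists_upd' h hr hs ((ms_qv (PP.sup hr h)).comp (meas_rst measurable_id σ))
    ((h1.and ((PP.ok hr h).le hs)).mono fun _ _ _ k => ⟨k.2.rst k.1, rst_le k.1⟩)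

theorem RR_sep {α : Lv} {r p : U0} (hr : r ∈ PP α) (hp : p ∈ PP α)
    (h : ∀ β : U0, (β : Lv) < α → dec p β ≠ ∅ →
      Frc (RR α) r fun G => rs p ((β + 1 : U0) : Lv) ∈ G) : RR α r p := by
  refine RR_iff.2 ⟨hr, hp, fun β hβ => ?_⟩
  by_cases he : dec p β = ∅
  · exact lec_empty r he
  by_contra hc
  have m1 := ms_qv (PP.sup hr hβ)
  have m2 := ms_qv (PP.sup hp hβ)
  obtain ⟨s, h1, h2⟩ := Ms.of_not_frc (fo β) (S := PP β)
    (φ := fun G => Qle (qv (dec r β) G) (qv (dec p β) G)) (meas_qle m1 m2) hc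
  obtain ⟨s', σ, h3, h4⟩ := Frc.ex (S := PP β) (fo β)
    (φ := fun (σ : List ℕ) G => Ab (qv (dec r β) G) σ ∧ ∀ τ, σ <:+ τ → ¬ Ab (qv (dec p β) G) τ)
    ((h2.and ((PP.ok hr hβ).le h1)).mono fun G _ _ k => k.2.sepv k.1)
    (fun σ => Ms.and (meas_ab m1 σ) (ms_all fun τ => (ms_const _).imp (meas_ab m2 τ).not))
    ((fo β).l h1)
  obtain ⟨t, k1, k2, k3⟩ := exists_rst hβ hr ((fo β).tr h3 h1) (h4.mono fun _ _ _ k => k.1)
  obtain ⟨u, k4, k5⟩ := ((h β hβ he).le k1).compat (fo α) ((fo α).l k1)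
  have k6 : RR β (rs u β) s' := k2 ▸ RR_rs k4 hβ.le
  have k7 := k5.lec hβ
  rw [dec_rs_lt (lt_succ.2 le_rfl)] at k7
  exact (((k4.lec hβ).and (k7.and ((k3.and h4).le k6))).mono
    fun G _ _ ⟨a2, a3, a4, a5⟩ => a5.2 _ (Ab.suf (x := rst (qv (dec r β) G) σ)
      (a4 ▸ a2 _ (ab_stem _))) (a3 _ (ab_stem _))).elim (fo β) ((fo β).l k6)

theorem RR_succ {β r p : U0} (hr : r ∈ PP (sc β)) (hp : p ∈ PP (sc β))
    (h1 : RR β (rs r β) (rs p β))
    (h2 : Frc (RR β) (rs r β) fun G => Qle (qv (dec r β) G) (qv (dec p β) G)) : RR (sc β) r p := by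
  refine RR_iff.2 ⟨hr, hp, fun γ hγ => ?_⟩
  rcases (lt_succ.1 hγ).eq_or_lt with rfl | h
  · exact h2
  · have h' : (γ : Lv) < β := WithTop.coe_lt_coe.2 h
    exact (lec_congr (fun δ hδ => dec_rs_lt ((WithTop.coe_le_coe.2 hδ).trans_lt h'))
      (dec_rs_lt h')).1 ((RR_iff.1 h1).2.2 γ h')

theorem exists_long {β r : U0} (hr : r ∈ PP (sc β)) {P : ℕ → Prop} (hP : ∀ m, ∃ L, m ≤ L ∧ P L) :
    ∃ r1 τ, RR (sc β) r1 r ∧ P (List.length τ) ∧
      Frc (RR β) (rs r1 β) fun G => (qv (dec r1 β) G).1 = τ := by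
  obtain ⟨s, τ, h1, h2⟩ := Frc.ex (S := PP β) (fo β)
    (φ := fun (τ : List ℕ) G => Ab (qv (dec r β) G) τ ∧ P τ.length)
    ((PP.ok hr (lt_sc β)).mono fun G _ _ a => by
      obtain ⟨L, b1, b2⟩ := hP (qv (dec r β) G).1.length
      obtain ⟨τ, b3, rfl⟩ := a.long L b1
      exact ⟨τ, b3, b2⟩)
    (fun τ => Ms.and (meas_ab (ms_qv (PP.sup hr (lt_sc β))) τ) (ms_const _))
    (PP_rs hr (lt_sc β).le)
  obtain ⟨t, k1, k2, k3⟩ := exists_rst (lt_sc β) hr h1 (h2.mono fun _ _ _ k => k.1)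
  exact ⟨t, τ, k1, (h2.mono fun _ _ _ k => k.2).elim (fo β) ((fo β).l h1),
    k2 ▸ k3.mono fun G _ _ k => by rw [k]; rfl⟩

theorem get_below {β r : U0} (hr : r ∈ PP (sc β)) {ι : Type} [Countable ι] {u : ι → U0}
    (hu : ∀ i, u i ∈ PP (sc β)) {P : ι → Set U0 → Prop} (hP : ∀ i, Ms (PP β) (P i))
    (h : Frc (RR β) (rs r β) fun G =>
      ∃ i, P i G ∧ rs (u i) β ∈ G ∧ Qle (qv (dec r β) G) (qv (dec (u i) β) G)) :
    ∃ r2 i, RR (sc β) r2 r ∧ RR (sc β) r2 (u i) ∧ Frc (RR β) (rs r2 β) (P i) := by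
  obtain ⟨s, i, h1, h2⟩ := Frc.ex (S := PP β) (fo β) h (fun i => (hP i).and
    ((ms_mem (PP_rs (hu i) (lt_sc β).le)).and
      (meas_qle (ms_qv (PP.sup hr (lt_sc β))) (ms_qv (PP.sup (hu i) (lt_sc β))))))
    (PP_rs hr (lt_sc β).le)
  obtain ⟨s', h3, h4⟩ := (h2.mono fun _ _ _ k => k.2.1).compat (fo β) ((fo β).l h1)
  obtain ⟨r2, k1, -, k2, k3⟩ := exists_glue (lt_sc β).le hr ((fo β).tr h3 h1)
  refine ⟨r2, i, k1, RR_succ ((fo _).l k1) (hu i) (k2 ▸ h4) ?_, k2 ▸ (h2.le h3).mono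
    fun _ _ _ k => k.1⟩
  rw [k2, k3 β (lt_irrefl _)]
  exact (h2.le h3).mono fun _ _ _ k => k.2.2

theorem club_basic : ∀ᶠ N in Club, (∀ α : Lv, In N α → In N (RR α)) ∧
    (∀ β : U0, In N β → In N (β : Lv)) ∧ (∀ β : U0, In N β → In N (β + 1)) ∧
    (∀ (p : U0) (α : Lv), In N p → In N α → In N (rs p α)) ∧ In N top ∧ In N (0 : U0) ∧
    (∀ β : U0, In N (β : Lv) → In N β) := by
  filter_upwards [clo1 RR, MP_fecf72_lc.club_basic] with N h1 h2 using ⟨h1, h2.2⟩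

end Pool.Agent.Lib.MP_fecf72_lc.LV
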