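import Pool.Agent.Lib.BDS.Pure

namespace Pool.Agent.Lib.MP_fecf72_lc.LV

open Set Filter

theorem exists_lav {α : Type*} [MeasurableSpace α] {X : α → ℕ → Lc} (hX : Measurable X)
    {W : α → ℕ → Prop} (hW : Measurable W) (Dd : ℕ → ℕ → Prop) {w : ℕ → ℕ}
    (hw : Tendsto w atTop atTop) (i0 : ℕ) :
    ∃ (y : α → Lc) (ix : α → ℕ → ℕ → ℕ), Measurable y ∧ Measurable ix ∧ ∀ a, W a i0 →
      (∀ i, W a i → Nrm (X a i)) →
      (∀ i σ, W a i → Ab (X a i) σ → ∃ j, W a j ∧ (X a j).1 = σ ∧ Qle (X a j) (X a i)) →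
      (∀ i k, W a i → ∃ j, W a j ∧ (X a j).1 = (X a i).1 ∧ Qle (X a j) (X a i) ∧ Dd k j) →
      Nrm (y a) ∧ Qle (y a) (X a i0) ∧ ∀ k τ, Ab (y a) τ → (y a).1.length + w k < τ.length →
        ∃ e, e ≤ w k ∧ W a (ix a e k) ∧ Dd k (ix a e k) ∧ Qle (rst (y a) τ) (X a (ix a e k)) := by
  choose κ hκ using fun l : List ℕ => tendsto_atTop_atTop.1 hw (Encodable.encode l)
  let pe : α → ℕ → List ℕ → ℕ := fun a i σ =>
    sInf {j | W a j ∧ (X a j).1 = σ ∧ Qle (X a j) (X a i)}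
  let dc : α → ℕ → ℕ → ℕ := fun a k i =>
    sInf {j | W a j ∧ (X a j).1 = (X a i).1 ∧ Qle (X a j) (X a i) ∧ Dd k j}
  let it : α → ℕ → ℕ → ℕ := fun a i k => Nat.rec i (fun k j => dc a k j) k
  let ch : α → ℕ → ℕ → ℕ → ℕ := fun a i k m => sInf {n | m ≤ n ∧ (X a (it a i k)).2 (X a i).1 n}
  let I : α → List ℕ → ℕ := fun a l => List.rec i0
    (fun m l j => pe a (it a j (κ (m :: l))) (ch a j (κ (m :: l)) m :: (X a j).1)) l
  let adr : α → List ℕ → List ℕ := fun a τ => List.rec [] (fun n τ l =>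
    if τ.length < (X a i0).1.length then [] else sInf {m | ch a (I a l) (κ (m :: l)) m = n} :: l) τ
  have m1 : Measurable pe := measurable_pi_lambda _ fun i => measurable_pi_lambda _ fun σ =>
    meas_sInf fun j => hW.eval.and ((meas_eq_ctbl hX.eval.fst measurable_const).and
      (meas_qle hX.eval hX.eval))
  have m2 : Measurable dc := measurable_pi_lambda _ fun k => measurable_pi_lambda _ fun i =>
    meas_sInf fun j => hW.eval.and ((meas_eq_ctbl hX.eval.fst hX.eval.fst).and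
      ((meas_qle hX.eval hX.eval).and measurable_const))
  have m3 : ∀ i k, Measurable fun a => it a i k := fun i k => by
    induction k with
    | zero => exact measurable_const
    | succ k ih => exact meas_app (f := fun a => dc a k) (g := fun a => it a i k) m2.eval ih
  have m4 : ∀ i k m, Measurable fun a => ch a i k m := fun i k m => meas_sInf fun n =>
    measurable_const.and (meas_app (meas_app hX (m3 i k)).snd hX.eval.fst).eval
  have m5 : ∀ l, Measurable fun a => I a l := fun l => by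
    induction l with
    | nil => exact measurable_const
    | cons m l ih =>
      exact meas_app (f := fun a j => pe a (it a j (κ (m :: l))) (ch a j (κ (m :: l)) m :: (X a j).1))
        (measurable_pi_lambda _ fun j => meas_app (meas_app m1 (m3 _ _))
          (meas_cmp (fun z : ℕ × List ℕ => z.1 :: z.2) ((m4 _ _ _).prodMk hX.eval.fst))) ih
  have m4' : ∀ l k m, Measurable fun a => ch a (I a l) k m := fun l k m =>
    meas_app (f := fun a j => ch a j k m) (measurable_pi_lambda _ fun j => m4 j k m) (m5 l)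
  have m6 : ∀ τ, Measurable fun a => adr a τ := fun τ => by
    induction τ with
    | nil => exact measurable_const
    | cons n τ ih =>
      exact Measurable.ite (measurableSet_setOfPred.2
        (meas_cmp (fun l : List ℕ => τ.length < l.length) hX.eval.fst)) measurable_const
        (meas_app (f := fun a l => sInf {m | ch a (I a l) (κ (m :: l)) m = n} :: l)
          (measurable_pi_lambda _ fun l => meas_cmp (· :: l)
            (meas_sInf fun m => meas_cmp (· = n) (m4' _ _ _))) ih)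
  refine ⟨fun a => ((X a i0).1, fun τ n => ∃ m, ch a (I a (adr a τ)) (κ (m :: adr a τ)) m = n),
    fun a e k => it a (I a ((Encodable.decode e).getD [])) (k + 1),
    hX.eval.fst.prodMk (measurable_pi_lambda _ fun τ => measurable_pi_lambda _ fun n =>
      Measurable.exists fun m => meas_cmp (· = n) (meas_app
        (f := fun a l => ch a (I a l) (κ (m :: l)) m)
        (measurable_pi_lambda _ fun l => m4' _ _ _) (m6 τ))),
    measurable_pi_lambda _ fun e => measurable_pi_lambda _ fun k => meas_app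
      (f := fun a j => it a j (k + 1)) (measurable_pi_lambda _ fun j => m3 j (k + 1)) (m5 _),
    fun a h0 h1 h2 h3 => ?_⟩
  have k1 : ∀ i, W a i → ∀ k, W a (it a i k) ∧ (X a (it a i k)).1 = (X a i).1 ∧
      Qle (X a (it a i (k + 1))) (X a (it a i k)) ∧ Dd k (it a i (k + 1)) := by
    intro i hi k
    have : W a (it a i k) ∧ (X a (it a i k)).1 = (X a i).1 := by
      induction k with
      | zero => exact ⟨hi, rfl⟩
      | succ k ih =>
        have := Nat.sInf_mem (h3 _ k ih.1)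
        exact ⟨this.1, this.2.1.trans ih.2⟩
    exact ⟨this.1, this.2, (Nat.sInf_mem (h3 _ k this.1)).2.2⟩
  have k2 : ∀ i, W a i → ∀ k k', k ≤ k' → Qle (X a (it a i k')) (X a (it a i k)) := by
    intro i hi k k' h
    induction h with
    | refl => exact Qle.refl _
    | step _ ih => exact (k1 i hi _).2.2.1.trans ih
  have k3 : ∀ i, W a i → ∀ k m, m ≤ ch a i k m ∧ (X a (it a i k)).2 (X a i).1 (ch a i k m) :=
    fun i hi k m => Nat.sInf_mem (h1 _ (k1 i hi k).1 _ (ab_of_eq (k1 i hi k).2.1) m)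
  have k4 : ∀ m l, W a (I a l) → W a (I a (m :: l)) ∧
      (X a (I a (m :: l))).1 = ch a (I a l) (κ (m :: l)) m :: (X a (I a l)).1 ∧
      Qle (X a (I a (m :: l))) (X a (it a (I a l) (κ (m :: l)))) := fun m l h =>
    Nat.sInf_mem (h2 _ _ (k1 _ h _).1 ((ab_of_eq (k1 _ h _).2.1).cons (k3 _ h _ m).2))
  have k5 : ∀ l, W a (I a l) := fun l => by
    induction l with
    | nil => exact h0
    | cons m l ih => exact (k4 m l ih).1
  have k6 : adr a (X a i0).1 = [] := by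
    generalize hs : (X a i0).1 = s
    cases s
    exacts [rfl, if_pos (by rw [hs]; exact Nat.lt_succ_self _)]
  have k7 : ∀ τ n, (X a i0).1.length ≤ τ.length →
      (∃ m, ch a (I a (adr a τ)) (κ (m :: adr a τ)) m = n) →
      ∃ m, adr a (n :: τ) = m :: adr a τ ∧ ch a (I a (adr a τ)) (κ (m :: adr a τ)) m = n :=
    fun τ n h k => ⟨_, if_neg (not_lt.2 h), Nat.sInf_mem k⟩
  have k8 := fus (s := (X a i0).1) (c := fun τ => X a (I a (adr a τ)))
    (B := fun τ n => ∃ m, ch a (I a (adr a τ)) (κ (m :: adr a τ)) m = n)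
    (I := fun τ => (X a (I a (adr a τ))).1 = τ ∧
      τ.length = (X a i0).1.length + (adr a τ).length ∧ ∀ k, Encodable.encode (adr a τ) ≤ w k ∨
        ∃ l, Encodable.encode l ≤ w k ∧ Qle (X a (I a (adr a τ))) (X a (it a (I a l) (k + 1))))
    (by rw [k6]; exact ⟨rfl, rfl, fun k => Or.inl (Nat.zero_le _)⟩) (fun _ h => h.1)
    fun τ n b1 b2 b3 => by
      obtain ⟨m, b4, b5⟩ := k7 τ n b2 b3
      obtain ⟨-, b6, b7⟩ := k4 m _ (k5 (adr a τ))
      have b8 := b7.trans (k2 _ (k5 _) 0 _ (Nat.zero_le _))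
      rw [b4]
      refine ⟨⟨by rw [b6, b5, b1.1], by simp [b1.2.1, add_assoc], fun k => ?_⟩, b8⟩
      rcases le_or_gt (κ (m :: adr a τ)) k with h | h
      · exact Or.inl (hκ _ k h)
      rcases b1.2.2 k with h' | ⟨l, h', h''⟩
      · exact Or.inr ⟨_, h', b7.trans (k2 _ (k5 _) _ _ h)⟩
      · exact Or.inr ⟨l, h', b8.trans h''⟩
  refine ⟨fun τ _ m => ⟨_, (k3 _ (k5 _) _ m).1, m, rfl⟩, ?_, fun k τ b1 b2 => ?_⟩
  · have := (k8 _ (ab_stem _)).2
    rwa [k6] at this
  · obtain ⟨⟨-, b3, b4⟩, b5⟩ := k8 τ b1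
    rcases b4 k with h | ⟨l, h, h'⟩
    · have := Encodable.length_le_encode (adr a τ)
      dsimp only at b2
      omega
    · refine ⟨_, h, ?_⟩
      simp only [Encodable.encodek, Option.getD_some]
      exact ⟨(k1 _ (k5 l) (k + 1)).1, (k1 _ (k5 l) _).2.2.2, b5.trans h'⟩

theorem ms_image {S : Set U0} {f : Set U0 → ℕ → ℕ} (hf : Ms S f) (n : ℕ) :
    Ms S fun G => (Finset.range n).image (f G) := measurable_finset_iff.2 fun m => by
  simp only [Finset.mem_image]
  exact Measurable.exists fun i => measurable_const.and (ms_cmp (· = m) (hf.app i))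

theorem lav_step {β p : U0} (hp : p ∈ PP (sc β)) {f b : Set U0 → ℕ → ℕ} (hf : Ms univ f)
    (hb : Ms (PP β) b) (h : ∀ G k, f G k ≤ b G k) {w : ℕ → ℕ} (hw : Tendsto w atTop atTop) :
    ∃ q, ∃ h : Set U0 → ℕ → Finset ℕ, RR (sc β) q p ∧ Ms (PP β) h ∧
      (∀ G k, (h G k).card ≤ w k + 1) ∧
      Frc (RR (sc β)) q fun G => ∀ k, f G k ∈ h G k := by
  let D : ℕ → Set U0 := fun k => {r | ∃ m, Frc (RR (sc β)) r fun G => f G k = m}
  obtain ⟨N, sh, pr, hc, ⟨-, b2, -, b4, b5, -⟩, hβ, hN, hU, hD⟩ := (club_sh.and (club_proper.and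
    (club_countable.and (club_basic.and ((clo0 β).and ((clo0 p).and ((clo0 (univ : Set U0)).and
      (club_all fun n => clo0 (D n))))))))).exists
  obtain ⟨u, hu⟩ := exists_enum hc (· ∈ PP (sc β)) (top_mem _) b5
  have hu1 := fun i => ((hu (u i)).2 ⟨i, rfl⟩).1
  obtain ⟨i0, rfl⟩ := (hu p).1 ⟨hp, hN⟩
  obtain ⟨q0, h1, h2⟩ := pr β (b2 β hβ) _ (PP_rs hp (lt_sc β).le) (b4 _ _ hN (b2 β hβ))
  obtain ⟨y, ix, my, mi, H⟩ := exists_lav (α := Fl (PP β)) (ms_X hu1) (ms_W hu1)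
    (fun k j => u j ∈ D k) hw i0
  have H' := (h2.and (frc_mem h1)).mono fun G hG _ k => by
    obtain ⟨a1, a2, a3⟩ := sh β hβ u hu G hG k.1
    exact H ⟨G⟩ k.2 a1 (fun i σ c1 c2 =>
      let ⟨j, d1, d2, d3, _⟩ := a2 i σ _ hU (a3 i σ _ hU (pd_univ β) c1 c2); ⟨j, d1, d2, d3⟩)
      fun i k c1 =>
        let ⟨j, d1, d2, d3, _, ⟨m, d4⟩, d5⟩ := a2 i _ _ (hD k) (a3 i _ _ (hD k)
          (pd_dec (hf.app k) (hb.app k) fun G => h G k) c1 (ab_stem _))
        ⟨j, d1, d2, d3, m, d4.le d5⟩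
  obtain ⟨t, k1, k2, k3⟩ := exists_upd' (lt_sc β) hp h1 (f := fun G => y ⟨G⟩) my
    (H'.mono fun _ _ _ k => ⟨k.1, k.2.1⟩)
  choose! v hv using fun k j (h : u j ∈ D k) => h
  have mx : ∀ e k, Ms (PP β) fun G => ix ⟨G⟩ e k := fun e k => mi.eval.eval
  refine ⟨t, fun G k => (Finset.range (w k + 1)).image fun e => v k (ix ⟨G⟩ e k), k1,
    ms_pi fun k => ms_image (ms_pi fun e => ms_cmp (v k) (mx e k)) _,
    fun G k => Finset.card_image_le.trans (Finset.card_range _).le,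
    frc_all fun k => frc_of_dense (fo _) fun r hr => ?_⟩
  have a0 : RR β (rs r β) q0 := k2 ▸ RR_rs hr (lt_sc β).le
  obtain ⟨s, s0, a1, a2⟩ := Ms.dec_val (S := PP β) (f := fun G => (y ⟨G⟩).1) (fo β) my.fst
    ((fo β).l a0)
  obtain ⟨r1, a3, -, a4, -⟩ := exists_glue (lt_sc β).le ((fo _).l hr) a1
  obtain ⟨r2, τ, a5, a6, a7⟩ := exists_long ((fo _).l a3) (P := fun L => s0.length + w k < L)
    fun m => ⟨max m (s0.length + w k + 1), le_max_left _ _, le_max_right m (_ + 1)⟩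
  have c1 := (fo _).tr a5 a3
  have c2 : RR β (rs r2 β) s := a4 ▸ RR_rs a5 (lt_sc β).le
  obtain ⟨r3, i, c3, c4, c5⟩ := get_below ((fo _).l a5) hu1
    (P := fun i G => u i ∈ D k ∧ ∃ e, e ≤ w k ∧ ix ⟨G⟩ e k = i)
    (fun i => (ms_const _).and (ms_ex fun e => (ms_const _).and (ms_cmp (· = i) (mx e k))))
    (((((fo _).tr c1 hr).lec (lt_sc β)).and ((a7.and (a2.le c2)).and
      ((k3.and H').le ((fo β).tr c2 ((fo β).tr a1 a0))))).mono
      fun G _ _ ⟨d1, ⟨d2, d3⟩, d4, _, _, d5⟩ => by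
        rw [d4] at d1
        obtain ⟨e, e1, e2, e3, e4⟩ := d5 k τ (d1 _ (ab_of_eq d2)) (d3 ▸ a6)
        exact ⟨_, ⟨e3, e, e1, rfl⟩, e2, (d1.rst' d2).trans e4⟩)
  have c6 := (c5.mono fun _ _ _ k => k.1).elim (fo β) (PP_rs ((fo _).l c3) (lt_sc β).le)
  refine ⟨r3, (fo _).tr c3 c1, (((hv k i c6).le c4).and (Frc.lift' (lt_sc β).le ((fo _).l c3)
    (ms_ex fun e => (ms_const _).and (ms_cmp (· = i) (mx e k))) (c5.mono fun _ _ _ k => k.2))).mono
    fun G _ _ ⟨d1, e, d2, d3⟩ => ?_⟩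
  exact Finset.mem_image.2 ⟨e, Finset.mem_range.2 (Nat.lt_succ_of_le d2), by rw [d3, d1]⟩

end Pool.Agent.Lib.MP_fecf72_lc.LV
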