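import Pool.Agent.Lib.BDS.Step

namespace Pool.Agent.Lib.MP_fecf72_lc.LV

open Set Filter

theorem PEL.refl (N : Set Wd) (γ : Lv) : PEL N γ γ := fun q hq h1 _ _ h2 _ h3 =>
  ⟨q, hq, rs_self hq le_rfl, (h1.and h3).mono fun _ _ _ k =>
    ⟨k.1, rs_self (h2 _).1 le_rfl ▸ k.2⟩⟩

theorem PEL.trans {N : Set Wd} {γ β α : Lv} (h : PEL N γ β) (k : PEL N β α) (h1 : γ ≤ β)
    (h2 : β ≤ α) (h3 : ∀ p : U0, In N p → In N (rs p β)) : PEL N γ α := by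
  intro q hq a1 u ι a2 a3 a4
  obtain ⟨q1, b1, b2, b3⟩ := h q hq a1 (fun i => rs (u i) β) ι
    (fun i => ⟨PP_rs (a2 i).1 h2, h3 _ (a2 i).2⟩) a3 (by simpa only [rs_rs _ h1] using a4)
  obtain ⟨q2, c1, c2, c3⟩ := k q1 b1 (b3.mono fun _ _ _ k => k.1) u ι a2 (a3.mono (PP_mono h1))
    (b3.mono fun _ _ _ k => k.2)
  exact ⟨q2, c1, by rw [← rs_rs q2 h1, c2, b2], c3⟩

theorem exists_limit {δ : Lv} {γ : ℕ → Lv} (hγ : Monotone γ) (hδ : ∀ n, γ n ≤ δ) {q : ℕ → U0}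
    (h1 : ∀ n, q n ∈ PP (γ n)) (h2 : ∀ n, rs (q (n + 1)) (γ n) = q n) :
    ∃ q' ∈ PP δ, ∀ n, rs q' (γ n) = q n := by
  have h3 : ∀ n m, n ≤ m → rs (q m) (γ n) = q n := by
    intro n m hm
    induction hm with
    | refl => exact rs_self (h1 n) le_rfl
    | step hm ih => rw [← rs_rs _ (hγ hm), h2, ih]
  have hsm : Sm fun β => ⋃ n, dec (q n) β :=
    sm_of_cover (fun n => sm_dec (q n)) fun β x hx => mem_iUnion.1 hx
  have h4 : ∀ n (β : U0), (β : Lv) < γ n → dec (enc fun β => ⋃ n, dec (q n) β) β = dec (q n) β := by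
    intro n β hβ
    rw [dec_enc hsm]
    refine (iUnion_subset fun m => ?_).antisymm (subset_iUnion (fun n => dec (q n) β) n)
    rcases le_total n m with h | h
    · rw [← h3 n m h, dec_rs_lt hβ]
    · by_cases k : (β : Lv) < γ m
      · rw [← h3 m n h, dec_rs_lt k]
      · rw [PP.empty (h1 m) k]; exact empty_subset _
  have h5 : ∀ β : U0, (∀ n, ¬ (β : Lv) < γ n) → ⋃ n, dec (q n) β = ∅ := fun β h =>
    iUnion_eq_empty.2 fun n => PP.empty (h1 n) (h n)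
  refine ⟨_, mem_PP.2 ⟨shape_enc hsm ((countable_iUnion fun n => (mem_PP.1 (h1 n)).1.2.1).mono
    fun β hβ => ?_) fun β hβ => h5 β fun n k => hβ (k.trans_le (hδ n)), fun β _ => ?_⟩,
    fun n => (rs_congr (h4 n)).trans (rs_self (h1 n) le_rfl)⟩
  · by_contra hc
    simp only [mem_iUnion, mem_ofPred_eq, not_exists, not_not] at hc
    exact hβ (iUnion_eq_empty.2 hc)
  · by_cases k : ∃ n, (β : Lv) < γ n
    · obtain ⟨n, k⟩ := k
      exact (okc_congr fun δ hδ => h4 n δ ((WithTop.coe_le_coe.2 hδ).trans_lt k)).2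
        ((mem_PP.1 (h1 n)).2 β k)
    · exact okc_empty (by rw [dec_enc hsm]; exact h5 β fun n k' => k ⟨n, k'⟩)

theorem ms_rs_mem {γ α : Lv} (h : γ ≤ α) {u : ℕ → U0} (hu : ∀ i, u i ∈ PP α) {ι : Set U0 → ℕ}
    (hι : Ms (PP γ) ι) : Ms (PP γ) fun G => rs (u (ι G)) γ ∈ G :=
  ms_ctbl (f := fun i G => rs (u i) γ ∈ G) (fun i => ms_mem (PP_rs (hu i) h)) hι

theorem lim {N : Set Wd} {δ : Lv} {γ : ℕ → Lv} (hγ : Monotone γ) (hδ : ∀ n, γ n ≤ δ)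
    (hrs : ∀ n (p : U0), In N p → In N (rs p (γ n)))
    (hcof : ∀ p ∈ PP δ, In N p → ∀ β : U0, (β : Lv) < δ → dec p β ≠ ∅ → ∃ n, (β : Lv) < γ n)
    (hP : ∀ n, PEL N (γ n) (γ (n + 1))) {u : ℕ → U0} (hu : ∀ i, u i ∈ PP δ ∧ In N (u i))
    {K : ℕ → Set U0} (hK : ∀ n i, u i ∈ K n → ∀ G, IsF (RR (γ n)) G → GenN N (RR (γ n)) G →
      rs (u i) (γ n) ∈ G → ∃ j, u j ∈ K (n + 1) ∧ RR δ (u j) (u i) ∧ rs (u j) (γ n) ∈ G)
    {q0 : U0} (h1 : q0 ∈ PP (γ 0)) (h2 : Frc (RR (γ 0)) q0 (GenN N (RR (γ 0)))) {ι0 : Set U0 → ℕ}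
    (h3 : Ms (PP (γ 0)) ι0)
    (h4 : Frc (RR (γ 0)) q0 fun G => rs (u (ι0 G)) (γ 0) ∈ G ∧ u (ι0 G) ∈ K 0) :
    ∃ q' ∈ PP δ, rs q' (γ 0) = q0 ∧
      Frc (RR δ) q' fun G => u (ι0 G) ∈ G ∧ ∀ n, ∃ j, u j ∈ G ∧ u j ∈ K n := by
  let I : ℕ → U0 × (Set U0 → ℕ) → Prop := fun n z => z.1 ∈ PP (γ n) ∧
    Frc (RR (γ n)) z.1 (GenN N (RR (γ n))) ∧ Ms (PP (γ n)) z.2 ∧
    Frc (RR (γ n)) z.1 fun G => rs (u (z.2 G)) (γ n) ∈ G ∧ u (z.2 G) ∈ K n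
  have step : ∀ n z, I n z → ∃ z', I (n + 1) z' ∧ rs z'.1 (γ n) = z.1 ∧
      Frc (RR (γ (n + 1))) z'.1 fun G => RR δ (u (z'.2 G)) (u (z.2 G)) := by
    rintro n ⟨q, ι⟩ ⟨a1, a2, a3, a4⟩
    have hn := hγ (Nat.le_succ n)
    let ι' : Set U0 → ℕ := fun G =>
      sInf {j | u j ∈ K (n + 1) ∧ RR δ (u j) (u (ι G)) ∧ rs (u j) (γ n) ∈ G}
    have m1 : Ms (PP (γ n)) ι' := ms_sInf fun j => (ms_const _).and
      ((a3.comp (measurable_of_countable fun i => RR δ (u j) (u i))).and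
        (ms_mem (PP_rs (hu j).1 (hδ n))))
    have b1 : Frc (RR (γ n)) q fun G => u (ι' G) ∈ K (n + 1) ∧ RR δ (u (ι' G)) (u (ι G)) ∧
        rs (u (ι' G)) (γ n) ∈ G :=
      (a2.and a4).mono fun G hG _ k => Nat.sInf_mem (hK n _ k.2.2 G hG k.1 k.2.1)
    obtain ⟨q', c1, c2, c3⟩ := hP n q a1 a2 (fun j => rs (u j) (γ (n + 1))) ι'
      (fun j => ⟨PP_rs (hu j).1 (hδ _), hrs _ _ (hu j).2⟩) m1
      (b1.mono fun G _ _ k => by simpa only [rs_rs _ hn] using k.2.2)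
    have b2 := Frc.lift' hn c1 (φ := fun G => u (ι' G) ∈ K (n + 1) ∧ RR δ (u (ι' G)) (u (ι G)))
      ((m1.prod a3).comp (measurable_of_countable
        fun z : ℕ × ℕ => u z.1 ∈ K (n + 1) ∧ RR δ (u z.1) (u z.2)))
      (c2 ▸ b1.mono fun _ _ _ k => ⟨k.1, k.2.1⟩)
    exact ⟨(q', ι'), ⟨c1, c3.mono fun _ _ _ k => k.1, m1.mono (PP_mono hn),
      (c3.and b2).mono fun _ _ _ k => ⟨k.1.2, k.2.1⟩⟩, c2, b2.mono fun _ _ _ k => k.2⟩
  choose! nx hnx using step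
  let z : ℕ → U0 × (Set U0 → ℕ) := fun n => Nat.rec (q0, ι0) nx n
  have hz : ∀ n, I n (z n) := by
    intro n
    induction n with
    | zero => exact ⟨h1, h2, h3, h4⟩
    | succ n ih => exact (hnx n _ ih).1
  obtain ⟨q', k1, k2⟩ := exists_limit hγ hδ (q := fun n => (z n).1) (fun n => (hz n).1)
    fun n => (hnx n _ (hz n)).2.1
  have k3 : ∀ n, Frc (RR δ) q' fun G => rs (u ((z n).2 G)) (γ n) ∈ G ∧ u ((z n).2 G) ∈ K n :=
    fun n => Frc.lift' (hδ n) k1 ((ms_rs_mem (hδ n) (fun i => (hu i).1) (hz n).2.2.1).and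
      ((hz n).2.2.1.comp (measurable_of_countable fun i => u i ∈ K n))) (k2 n ▸ (hz n).2.2.2)
  have k4 : ∀ n, Frc (RR δ) q' fun G => RR δ (u ((z (n + 1)).2 G)) (u ((z n).2 G)) :=
    fun n => Frc.lift' (hδ (n + 1)) k1 (((hz (n + 1)).2.2.1.prod ((hz n).2.2.1.mono
      (PP_mono (hγ (Nat.le_succ n))))).comp (measurable_of_countable
        fun z : ℕ × ℕ => RR δ (u z.1) (u z.2))) (k2 (n + 1) ▸ (hnx n _ (hz n)).2.2)
  have k5 : Frc (RR δ) q' fun G => ∀ n m, n ≤ m → rs (u ((z n).2 G)) (γ m) ∈ G := by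
    refine ((frc_all k3).and (frc_all k4)).mono fun G hG _ k n m hm => ?_
    have : RR δ (u ((z m).2 G)) (u ((z n).2 G)) := by
      induction hm with
      | refl => exact (hu _).1
      | step _ ih => exact (fo δ).tr (k.2 _) ih
    exact hG.1 _ (k.1 m).1 _ (RR_mono (hδ m) (RR_rs this (hδ m)))
  have k6 : ∀ n, Frc (RR δ) q' fun G => u ((z n).2 G) ∈ G := by
    intro n
    refine frc_of_dense (fo δ) fun r hr => ?_
    obtain ⟨r1, i, a1, a2⟩ := (hz n).2.2.1.dec_val (fo δ) ((fo δ).l hr)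
    have : RR δ r1 (u i) := RR_sep ((fo δ).l a1) (hu i).1 fun β hβ he => by
      obtain ⟨m, hm⟩ := hcof _ (hu i).1 (hu i).2 β hβ he
      have hm' : sc β ≤ γ (max n m) := succ_le (hm.trans_le (hγ (le_max_right _ _)))
      refine (a2.and (k5.le ((fo δ).tr a1 hr))).mono fun G hG _ k => ?_
      have := k.2 n _ (le_max_left n m)
      rw [k.1] at this
      refine hG.1 _ this _ (RR_mono (hδ (max n m)) ?_)
      rw [← rs_rs _ hm']
      exact RR_rs_self hm' (PP_rs (hu i).1 (hδ _))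
    exact ⟨r1, a1, (a2.and (frc_mem this)).mono fun G _ _ k => k.1 ▸ k.2⟩
  exact ⟨q', k1, k2 0, ((frc_all k6).and (frc_all k3)).mono fun G _ _ k =>
    ⟨k.1 0, fun n => ⟨_, k.1 n, (k.2 n).2⟩⟩⟩

theorem club_supp : ∀ᶠ N in Club, ∀ α, ∀ p ∈ PP α, In N p → ∀ β : U0, dec p β ≠ ∅ → In N β := by
  filter_upwards [clo_sub (fun p : U0 => {β | {β | dec p β ≠ ∅}.Countable ∧ dec p β ≠ ∅})
    fun p => by
      by_cases h : {β | dec p β ≠ ∅}.Countable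
      · exact h.mono fun _ k => k.2
      · simp [h]] with N h α p hp hN β hβ
  exact h p hN β ⟨(mem_PP.1 hp).1.2.1, hβ⟩

theorem club_pel : ∀ᶠ N in Club, ∀ α : Lv, In N α → ∀ γ ≤ α, In N γ → PEL N γ α := by
  filter_upwards [club_pel_succ, club_countable, club_basic, club_supp, clo0 (univ : Set U0),
    sk1 fun (α : Lv) β => α = sc β, club_meet2,
    clo4 fun (α γ : Lv) (p : U0) (D : Set U0) => {s | ∃ d ∈ D, RR α d p ∧ s = rs d γ},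
    sk4 fun (z : Lv × Lv) (p : U0) (D : Set U0) s d => d ∈ D ∧ RR z.1 d p ∧ s = rs d z.2,
    clo_pair Lv Lv]
    with N su hc ⟨b1, b2, b3, b4, b5, _, b7⟩ sp hU s1 mt c1 s2 cp α
  induction α using WellFoundedLT.induction with
  | ind α ih =>
  intro hα γ0 h1 h2
  rcases h1.eq_or_lt with rfl | h1
  · exact PEL.refl _ _
  rcases lv_cases α with h | h
  · obtain ⟨β, hβ, rfl⟩ := s1 α hα h
    exact (ih β (lt_sc β) (b2 β hβ) γ0 (le_of_lt_sc h1) h2).trans (su β hβ) (le_of_lt_sc h1)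
      (lt_sc β).le fun p hp => b4 p _ hp (b2 β hβ)
  obtain ⟨γ, rfl, k1, k2, k3⟩ := exists_cof hc (fun β k => b2 _ (b3 β k)) b7 h h1 h2
  intro q hq a1 u ι a2 a3 a4
  obtain ⟨u', hu'⟩ := exists_enum hc (· ∈ PP α) (top_mem _) b5
  obtain ⟨D, hD⟩ := exists_enum hc (Dn (RR α)) (dn_univ _) hU
  choose idx hidx using fun i => (hu' (u i)).1 (a2 i)
  have hu'' := fun i => (hu' _).2 ⟨i, rfl⟩
  obtain ⟨q', c2, c3, c4⟩ := lim (N := N) k1 (fun n => (k2 n).1.le)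
    (fun n p hp => b4 p _ hp (k2 n).2) (fun p hp hN β hβ he => k3 β (sp α p hp hN β he) hβ)
    (fun n => ih _ (k2 _).1 (k2 _).2 _ (k1 (Nat.le_succ n)) (k2 n).2) hu''
    (K := fun n => Nat.casesOn n univ D) (by
      intro n i _ G hG hN hp
      have hd := (hD _).2 ⟨n, rfl⟩
      obtain ⟨s, e1, e2, e3⟩ := mt _ _ G _ (fo _) (b1 _ (k2 n).2)
        (c1 α (γ n) _ _ hα (k2 n).2 (hu'' i).2 hd.2) (b4 _ _ (hu'' i).2 (k2 n).2) hG hN hp
        (frc_meet (fo _) fun r hr => by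
          obtain ⟨t, e1, -, e2, -⟩ := exists_glue (k2 n).1.le (hu'' i).1 hr
          obtain ⟨d, e3, e4⟩ := hd.1 t ((fo _).l e1)
          have := RR_rs e4 (k2 n).1.le
          exact ⟨_, ⟨d, e3, (fo _).tr e4 e1, rfl⟩, _, e2 ▸ this, (fo _).l this⟩)
      obtain ⟨d, e4, e5, e6, rfl⟩ := s2 (α, γ n) _ _ s ((cp _ _).2 ⟨hα, (k2 n).2⟩) (hu'' i).2 hd.2
        e3 e1
      obtain ⟨j, rfl⟩ := (hu' d).1 ⟨(fo _).l e6, e4⟩
      exact ⟨j, e5, e6, e2⟩) hq a1 (a3.comp (measurable_of_countable idx))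
    (a4.mono fun G _ _ k => ⟨hidx _ ▸ k, trivial⟩)
  refine ⟨q', c2, c3, c4.mono fun G _ _ k => ⟨fun E e1 e2 => ?_, hidx _ ▸ k.1⟩⟩
  obtain ⟨n, rfl⟩ := (hD E).1 ⟨e2, e1⟩
  obtain ⟨j, e3, e4⟩ := k.2 (n + 1)
  exact ⟨_, e4, e3, (hu'' j).2⟩

theorem eq_top_of_zero {p : U0} (h : p ∈ PP ((0 : U0) : Lv)) : p = top := by
  rw [← (mem_PP.1 h).1.1, top]
  congr 1
  exact funext fun β => PP.empty h (not_lt.2 (zero_le_lv _))

theorem genN_zero {N : Set Wd} (h : In N top) :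
    Frc (RR ((0 : U0) : Lv)) top (GenN N (RR ((0 : U0) : Lv))) :=
  frc_of_all fun _ _ hG D _ hD => by
    obtain ⟨d, h1, h2⟩ := hD top (top_mem _)
    obtain rfl := eq_top_of_zero ((fo _).l h2)
    exact ⟨_, h1, hG, h⟩

theorem rs_zero {α : Lv} {p : U0} (h : p ∈ PP α) : rs p ((0 : U0) : Lv) = top :=
  eq_top_of_zero (PP_rs h (zero_le_lv _))

theorem club_proper : ∀ᶠ N in Club, ∀ α : Lv, In N α → ∀ p ∈ PP α, In N p →
    ∃ q, RR α q p ∧ Frc (RR α) q (GenN N (RR α)) := by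
  filter_upwards [club_pel, club_basic] with N h ⟨_, b2, _, _, b5, b6, _⟩ α hα p h1 h2
  obtain ⟨q, k1, -, k2⟩ := h α hα _ (zero_le_lv α) (b2 0 b6) top (top_mem _) (genN_zero b5)
    (fun _ => p) (fun _ => 0) (fun _ => ⟨h1, h2⟩) (ms_const _)
    (frc_of_all fun G _ k => by rwa [rs_zero h1])
  obtain ⟨r, k3, k4⟩ := (k2.mono fun _ _ _ k => k.2).compat (fo α) k1
  exact ⟨r, k4, (k2.le k3).mono fun _ _ _ k => k.1⟩

theorem Frc.down {α γ : Lv} (h : γ ≤ α) {s : U0} (hs : s ∈ PP γ) {φ : Set U0 → Prop}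
    (hm : Ms (PP γ) φ) (k : Frc (RR α) s φ) : Frc (RR γ) s φ := by
  by_contra hc
  obtain ⟨q, h1, h2⟩ := hm.of_not_frc (fo γ) hc
  have hq := (fo γ).l h1
  have := Frc.lift' h (PP_mono h hq) hm.not (by rwa [rs_self hq le_rfl])
  exact ((this.and (k.le (RR_mono h h1))).mono fun _ _ _ k => k.1 k.2).elim (fo α) (PP_mono h hq)

theorem Cf.bdd {α : Lv} (h : Cf α) (h0 : ((0 : U0) : Lv) < α) {T : Set U0} (hT : T.Countable)
    (k : T ⊆ PP α) : ∃ γ : U0, (γ : Lv) < α ∧ T ⊆ PP γ := by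
  have hc : (insert 0 (⋃ p ∈ T, {β | dec p β ≠ ∅})).Countable :=
    (hT.biUnion fun p hp => (mem_PP.1 (k hp)).1.2.1).insert 0
  obtain ⟨b, hb⟩ := hc.exists_eq_range (insert_nonempty _ _)
  obtain ⟨γ, h1, h2⟩ := h b fun n => by
    rcases (hb ▸ mem_range_self n : b n ∈ insert 0 (⋃ p ∈ T, {β | dec p β ≠ ∅})) with e | e
    · rwa [e]
    · obtain ⟨p, hp, e⟩ := mem_iUnion₂.1 e
      by_contra k'
      exact e (PP.empty (k hp) k')
  refine ⟨γ, h1, fun p hp => ?_⟩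
  have : rs p γ = p := (rs_congr fun _ _ => rfl).trans (by
    rw [rs]
    refine Eq.trans ?_ (mem_PP.1 (k hp)).1.1
    congr 1
    funext β
    split_ifs with j
    · rfl
    · by_contra e
      obtain ⟨n, rfl⟩ : β ∈ range b := hb ▸ Or.inr (mem_biUnion hp fun e' => e e'.symm)
      exact j (WithTop.coe_lt_coe.2 (h2 n)))
  exact this ▸ PP_rs (k hp) h1.le

theorem exists_ctbl_name {α : Lv} {f : Set U0 → Cs} (hf : Ms univ f) {s : U0} (hs : s ∈ PP α) :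
    ∃ s' ρ, RR α s' s ∧ Set.Countable ρ ∧ Sup (PP α) ρ ∧ Frc (RR α) s' fun G => f G = ev ρ G := by
  obtain ⟨N, pr, hc, h1, h2, h3⟩ := (club_proper.and (club_countable.and ((clo0 α).and
    ((clo0 s).and (club_all fun n : ℕ =>
      clo0 {t | ∃ b, Frc (RR α) t fun G => f G n = b}))))).exists
  obtain ⟨s', k1, k2⟩ := pr α h1 s hs h2
  have hN := countable_In U0 hc
  have := hN.to_subtype
  refine ⟨s', {x | In N x.1 ∧ x ∈ nameOf (RR α) f}, k1,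
    (hN.prod (countable_univ (α := ℕ))).mono fun x hx => mk_mem_prod hx.1 (mem_univ _),
    fun x hx => hx.2.1, ?_⟩
  have k3 : Frc (RR α) s' fun G => ∀ z : {t : U0 | In N t} × ℕ × Bool,
      (Frc (RR α) z.1.1 fun G => f G z.2.1 = z.2.2) → z.1.1 ∈ G → f G z.2.1 = z.2.2 :=
    frc_all fun z => by
      by_cases h : Frc (RR α) z.1.1 fun G => f G z.2.1 = z.2.2
      · exact Frc.of_ev (Eventually.mono h fun _ k _ => k)
      · exact frc_of_all fun _ _ _ k => (h k).elim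
  refine (k2.and k3).mono fun G hG _ k => funext fun n => Bool.eq_iff_iff.2 ⟨fun h => ?_, fun h => ?_⟩
  · obtain ⟨t, ⟨b, a1⟩, a2, a3⟩ := k.1 _ (h3 n) fun r hr =>
      let ⟨q, b, c1, c2⟩ := (hf.app n).dec_val (fo α) hr; ⟨q, ⟨b, c2⟩, c1⟩
    obtain rfl : true = b := h.symm.trans (k.2 (⟨t, a3⟩, n, b) a1 a2)
    exact ev_true.2 ⟨t, a2, a3, hG.self (fo α) a2, a1⟩
  · obtain ⟨t, a1, a2, -, a3⟩ := ev_true.1 h
    exact k.2 (⟨t, a2⟩, n, true) a3 a1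

theorem small_names (γ : U0) : Small.{0} {ρ : Nam U0 | Sup (PP γ) ρ} := by
  have := small_PP γ
  exact small_subset (s := 𝒫 (PP γ ×ˢ (univ : Set ℕ))) fun ρ h x hx => ⟨h x hx, trivial⟩

theorem RR_glue_le {δ γ : Lv} {r p p' : U0} (hγ : γ ≤ δ) (h1 : RR δ r p) (hp : p' ∈ PP δ)
    (h2 : RR γ (rs r γ) (rs p' γ)) (h3 : ∀ β : U0, ¬ (β : Lv) < γ → dec p' β = dec p β) :
    RR δ r p' := by
  refine RR_iff.2 ⟨(fo δ).l h1, hp, fun β hβ => ?_⟩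
  by_cases hc : (β : Lv) < γ
  · exact (lec_congr (fun δ hδ => dec_rs_lt ((WithTop.coe_le_coe.2 hδ).trans_lt hc))
      (dec_rs_lt hc)).1 ((RR_iff.1 h2).2.2 β hc)
  · exact (lec_congr (fun _ _ => rfl) (h3 β hc)).2 ((RR_iff.1 h1).2.2 β hβ)

end Pool.Agent.Lib.MP_fecf72_lc.LV
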