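import Pool.Agent.Lib.BDS.Thin

namespace Pool.Agent.Lib.MP_fecf72_lc.LV

open Set Filter

/-- The Laver real at coordinate `β`. -/
noncomputable def lr (β : U0) (G : Set U0) (i : ℕ) : ℕ :=
  sInf {n | ∃ s ∈ G, s ∈ PP (sc β) ∧ ∃ σ : List ℕ, σ.length = i ∧
    Frc (RR β) (rs s β) fun G => n :: σ <:+ (qv (dec s β) G).1}

theorem ms_lr (β : U0) : Ms (PP (sc β)) (lr β) :=
  ms_pi fun _ => ms_sInf fun _ => ms_open' _ fun _ h => h.1

theorem lr_dec {β t : U0} (ht : t ∈ PP (sc β)) {τ : List ℕ}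
    (h : Frc (RR β) (rs t β) fun G => (qv (dec t β) G).1 = τ) :
    Frc (RR (sc β)) t fun G => ∀ σ, σ <:+ τ → Kf (lr β G) σ.length = kk σ := by
  refine frc_of_all fun G hG htG => kf_eq fun n σ k => ?_
  have : {n | ∃ s ∈ G, s ∈ PP (sc β) ∧ ∃ σ' : List ℕ, σ'.length = σ.length ∧
      Frc (RR β) (rs s β) fun G => n :: σ' <:+ (qv (dec s β) G).1} = {n} := by
    refine eq_singleton_iff_unique_mem.2 ⟨⟨t, htG, ht, σ, rfl, h.mono fun _ _ _ a => a ▸ k⟩, ?_⟩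
    rintro m ⟨s, a1, -, σ', a2, a3⟩
    obtain ⟨r, -, b1, b2⟩ := hG.2 t htG s a1
    have b3 := RR_rs b1 (lt_sc β).le
    exact ((((b1.lec (lt_sc β)).and (b2.lec (lt_sc β))).and ((h.le b3).and
      (a3.le (RR_rs b2 (lt_sc β).le)))).mono fun G _ _ c => List.head_eq_of_cons_eq
        ((List.suffix_of_suffix_length_le (c.2.2.trans (c.1.2 _ (ab_stem _)).suf)
          ((c.2.1 ▸ k : n :: σ <:+ _).trans (c.1.1 _ (ab_stem _)).suf)
          (by simp [a2])).eq_of_length (by simp [a2]))).elim (fo β) ((fo β).l b3)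
  rw [lr, this, csInf_singleton]

theorem pd_fin {β : U0} {F : Set U0 → Finset ℕ} (hF : Ms univ F) (k : ℕ) :
    PD β {d | ∃ L, Frc (RR (sc β)) d fun G => (F G).filter (· ≤ k) = L} := by
  intro p hp σ h
  obtain ⟨t, d, ⟨m, h1⟩, h2⟩ := pd_dec (β := β)
    (ms_cmp (fun s : Finset ℕ => Encodable.encode (s.filter (· ≤ k))) hF)
    (ms_const ((Finset.range (k + 1)).powerset.sup Encodable.encode))
    (fun G => Finset.le_sup (f := Encodable.encode) (Finset.mem_powerset.2 fun m hm =>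
      Finset.mem_range.2 (Nat.lt_succ_of_le (Finset.mem_filter.1 hm).2))) p hp σ h
  exact ⟨t, d, ⟨(Encodable.decode m).getD ∅, h1.mono fun G _ _ a => by simp [← a]⟩, h2⟩

theorem exists_suf {τ : List ℕ} {l : ℕ} (h : l < τ.length) :
    ∃ m σ, m :: σ <:+ τ ∧ σ.length = l := by
  have e : (τ.drop (τ.length - (l + 1))).length = l + 1 := by simp; omega
  obtain ⟨m, σ, k⟩ := List.exists_cons_of_length_eq_add_one e
  exact ⟨m, σ, k ▸ List.drop_suffix _ _, by simpa [k] using e⟩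

/-- The set `S` does not meet the hull of the complement of the chosen residue class. -/
def Av (c : Cs) (n r a b : ℕ) (S : Finset ℕ) : Prop :=
  ∀ e1 e e2, a ≤ e1 → e1 ≤ e → e ≤ e2 → e2 < b → e ∈ S →
    cnt c e1 % (n + 1) = r ∨ cnt c e2 % (n + 1) = r

theorem ms_av {S : Set U0} {c : Set U0 → Cs} {a b : Set U0 → ℕ} {F : Set U0 → Finset ℕ}
    (hc : Ms S c) (ha : Ms S a) (hb : Ms S b) (hF : Ms S F) (n r : ℕ) :
    Ms S fun G => Av (c G) n r (a G) (b G) (F G) :=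
  ms_all fun e1 => ms_all fun e => ms_all fun e2 => (ms_cmp (· ≤ e1) ha).imp ((ms_const _).imp
    ((ms_const _).imp ((ms_cmp (e2 < ·) hb).imp ((ms_cmp (e ∈ ·) hF).imp
      ((ms_cmp (· % (n + 1) = r) (hc.comp (meas_cnt e1))).or
        (ms_cmp (· % (n + 1) = r) (hc.comp (meas_cnt e2))))))))

theorem star_step {β p : U0} (hp : p ∈ PP (sc β)) {H : Sn} (hH : Ms (PP (sc β)) H) {R : ℕ → ℕ → ℕ}
    (hR : ∀ G l, (H G l).card ≤ R l (Kf (lr β G) l)) : ∃ q0 ρ l0, RR β q0 (rs p β) ∧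
      Set.Countable ρ ∧ Sup (PP β) ρ ∧ ∀ s n r, RR β s q0 → r ≤ n → ∃ t, RR (sc β) t p ∧
        rs t β = s ∧ Frc (RR (sc β)) t fun G => ∀ l, l0 ≤ l →
          Av (ev ρ G) n r (Kf (lr β G) l) (Kf (lr β G) (l + 1)) (H G l) := by
  obtain ⟨p2, s0, e1, -, e2⟩ := exists_long hp (P := fun _ => True) fun m => ⟨m, le_rfl, trivial⟩
  have hp2 := (fo _).l e1
  let D : List ℕ → Set U0 := fun σ =>
    {d | ∃ L, Frc (RR (sc β)) d fun G => (H G σ.tail.length).filter (· ≤ kk σ) = L}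
  obtain ⟨N, sh, pr, hc, ⟨-, b2, -, b4, b5, -⟩, hβ, hN, hD⟩ := (club_sh.and (club_proper.and
    (club_countable.and (club_basic.and ((clo0 β).and ((clo0 p2).and
      (club_all fun n => clo0 (D n)))))))).exists
  obtain ⟨u, hu⟩ := exists_enum hc (· ∈ PP (sc β)) (top_mem _) b5
  have hu1 := fun i => ((hu (u i)).2 ⟨i, rfl⟩).1
  obtain ⟨i0, rfl⟩ := (hu p2).1 ⟨hp2, hN⟩
  obtain ⟨q0, h1, h2⟩ := pr β (b2 β hβ) _ (PP_rs hp2 (lt_sc β).le) (b4 _ _ hN (b2 β hβ))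
  obtain ⟨y, idx, my, mi, T⟩ := exists_tree (α := Fl (PP β)) (ms_X hu1) (ms_W hu1)
    (Q := fun _ _ σ j => u j ∈ D σ) (fun _ _ _ => measurable_const) (ι := fun _ => i0)
    measurable_const
  have T' := (h2.and (frc_mem h1)).mono fun G hG _ k => by
    obtain ⟨a1, a2, a3⟩ := sh β hβ u hu G hG k.1
    exact T ⟨G⟩ k.2 a1 fun i σ c1 c2 =>
      let ⟨j, d1, d2, d3, _, ⟨m, d4⟩, d5⟩ := a2 i σ _ (hD σ) (a3 i σ _ (hD σ)
        (pd_fin (hH.univ.app _) _) c1 c2)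
      ⟨j, d1, d2, d3, m, d4.le d5⟩
  choose! v hv using fun σ j (h : u j ∈ D σ) => h
  let v' : List ℕ → ℕ → Finset ℕ := fun σ j =>
    if (v σ j).card ≤ R σ.tail.length (kk σ.tail) then v σ j else ∅
  obtain ⟨c, mc, Z⟩ := exists_thin my (lab := fun G σ => v' σ (idx G σ))
    (measurable_pi_lambda _ fun σ => meas_cmp (v' σ) mi.eval) (R := fun τ => R τ.length (kk τ))
    fun a τ m => by
      simp only [v']; split_ifs with h
      exacts [h, Nat.zero_le _]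
  obtain ⟨q1, ρ, h3, h4, h5, h6⟩ := exists_ctbl_name (f := fun G => c ⟨G⟩)
    (Ms.univ (S := PP β) mc) ((fo β).l h1)
  refine ⟨q1, ρ, s0.length + 1, (fo β).tr h3 ((fo β).tr h1 (RR_rs e1 (lt_sc β).le)), h4, h5,
    fun s n r hs hr => ?_⟩
  obtain ⟨z, mz, Z'⟩ := Z n r hr
  have hs0 := (fo β).tr hs h3
  have T1 := (T'.le hs0).mono fun G _ _ k => And.intro k (Z' ⟨G⟩ k.1)
  obtain ⟨t, k1, k2, k3⟩ := exists_upd' (lt_sc β) hp2 ((fo β).tr hs0 h1) (f := fun G => z ⟨G⟩) mz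
    (T1.mono fun _ _ _ k => ⟨k.2.1, k.2.2.2.1.trans k.1.2.2.1⟩)
  refine ⟨t, (fo _).tr k1 e1, k2, frc_all fun l => ?_⟩
  by_cases hl : s0.length + 1 ≤ l
  swap
  · exact frc_of_all fun _ _ _ k => (hl k).elim
  refine frc_of_dense (fo _) fun r0 hr0 => ?_
  obtain ⟨r1, τ, a1, a2, a3⟩ := exists_long ((fo _).l hr0) (P := fun L => l < L)
    fun m => ⟨max m (l + 1), le_max_left _ _, le_max_right m (_ + 1)⟩
  obtain ⟨m, σ, a4, rfl⟩ := exists_suf a2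
  have a5 := (fo _).tr a1 hr0
  have a6 : RR β (rs r1 β) s := k2 ▸ RR_rs a5 (lt_sc β).le
  have mA : ∀ i, Ms (PP β) fun G => Av (ev ρ G) n r (kk σ) (kk (m :: σ)) (v' (m :: σ) i) :=
    fun i => ms_av (ms_ev h5) (ms_const _) (ms_const _) (ms_const _) n r
  obtain ⟨r2, i, c1, c2, c3⟩ := get_below ((fo _).l a1) hu1
    (P := fun i G => u i ∈ D (m :: σ) ∧ Av (ev ρ G) n r (kk σ) (kk (m :: σ)) (v' (m :: σ) i))
    (fun i => (ms_const _).and (mA i))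
    ((((a5.lec (lt_sc β)).and a3).and (((k3.and T1).and ((h6.le hs).and
      (e2.le ((fo β).tr hs0 h1)))).le a6)).mono
      fun G _ _ ⟨⟨d1, d2⟩, ⟨d3, ⟨_, d4, _, d5, d6⟩, _, d7, d8, d9⟩, d10, d11⟩ => by
        rw [d3] at d1
        have f0 : (y ⟨G⟩).1.length < σ.length := by rw [d4, d11]; exact hl
        have f1 : Ab (z ⟨G⟩) (m :: σ) :=
          (d1 _ (ab_of_eq d2)).conv a4 (d7 ▸ f0.le.trans (Nat.le_succ _))
        have f2 := (d8 _ f1).of_cons f0.le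
        exact ⟨_, ⟨d6 σ m f2.1 f2.2, d10 ▸ d9 σ m f1 f0⟩, (d5 _ (d8 _ f1)).1,
          ((d1.trans d8).rst (d2 ▸ a4) (f0.le.trans (Nat.le_succ _))).trans (d5 _ (d8 _ f1)).2⟩)
  have c4 := (c3.mono fun _ _ _ k => k.1).elim (fo β) (PP_rs ((fo _).l c1) (lt_sc β).le)
  refine ⟨r2, (fo _).tr c1 a1, ((((hv _ i c4).le c2).and ((lr_dec ((fo _).l a1) a3).le c1)).and
    (Frc.lift' (lt_sc β).le ((fo _).l c1) (mA i) (c3.mono fun _ _ _ k => k.2))).mono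
    fun G _ _ ⟨⟨d1, d2⟩, d3⟩ _ => ?_⟩
  have f1 := d2 σ ((List.suffix_cons m σ).trans a4)
  have f2 := d2 _ a4
  rw [f1, show Kf (lr β G) (σ.length + 1) = _ from f2]
  refine fun e1 e e2 g1 g2 g3 g4 g5 => d3 e1 e e2 g1 g2 g3 g4 ?_
  simp only [v', ← d1, List.tail_cons]
  rw [if_pos ((Finset.card_filter_le _ _).trans (f1 ▸ hR G _))]
  exact Finset.mem_filter.2 ⟨g5, g3.trans g4.le⟩

/-- The conclusion of the main forcing theorem. -/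
def St (Λ : U0 → Nam U0 → ℕ → ℕ → Prop) (p0 : U0) (a : Set U0 → ℕ → ℕ) : Prop :=
  Ms univ a ∧ ∀ S : Sn, Ms univ S → ∀ (R : ℕ → ℕ → ℕ) n p, RR ⊤ p p0 → ∃ q ρ r l0, RR ⊤ q p ∧
    r ≤ n ∧ Λ q ρ n r ∧ Frc (RR ⊤) q fun G => ∀ l, l0 ≤ l → (S G l).card ≤ R l (Kf (a G) l) →
      Av (ev ρ G) n r (Kf (a G) l) (Kf (a G) (l + 1)) (S G l)

theorem star {Λ : U0 → Nam U0 → ℕ → ℕ → Prop}
    (mono : ∀ p q ρ n r, Λ p ρ n r → RR ⊤ q p → Λ q ρ n r) {p0 : U0} (h0 : p0 ∈ PP ⊤)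
    (hΛ : ∀ s ρ n, RR ⊤ s p0 → ∃ s' r, RR ⊤ s' s ∧ r ≤ n ∧ Λ s' ρ n r) : ∃ a, St Λ p0 a := by
  have t0 : ((0 : U0) : Lv) < ⊤ := WithTop.coe_lt_top _
  have h1 : ∀ z : U0 × Nam U0 × ℕ, ∃ δ : U0, RR ⊤ z.1 p0 → ∃ s' r, s' ∈ PP δ ∧ RR ⊤ s' z.1 ∧
      r ≤ z.2.2 ∧ Λ s' z.2.1 z.2.2 r := by
    rintro ⟨s, ρ, n⟩
    by_cases hs : RR ⊤ s p0
    · obtain ⟨s', r, a1, a2⟩ := hΛ s ρ n hs
      obtain ⟨δ, -, b1⟩ := Cf.bdd cf_top t0 (countable_singleton s')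
        (singleton_subset_iff.2 ((fo ⊤).l a1))
      exact ⟨δ, fun _ => ⟨s', r, b1 rfl, a1, a2⟩⟩
    · exact ⟨0, fun k => (hs k).elim⟩
  choose δ hδ using h1
  have h2 : ∀ γ : U0, ∃ o, ∀ q ∈ PP γ, ∀ ρ n, Sup (PP γ) ρ → δ (q, ρ, n) ≤ o := by
    intro γ
    have := small_PP γ
    have := small_names γ
    obtain ⟨o, ho⟩ := Ordinal.bddAbove_of_small
      (s := δ '' (PP γ ×ˢ {ρ : Nam U0 | Sup (PP γ) ρ} ×ˢ univ))
    exact ⟨o, fun q hq ρ n ha => ho ⟨(q, ρ, n), ⟨hq, ha, trivial⟩, rfl⟩⟩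
  choose g hg using h2
  obtain ⟨γ0, -, h3⟩ := Cf.bdd cf_top t0 (countable_singleton p0) (singleton_subset_iff.2 h0)
  obtain ⟨β, h4, h5, h6⟩ := exists_closed fun γ => max (g γ) γ0
  have h7 : p0 ∈ PP β :=
    PP_mono (WithTop.coe_le_coe.2 ((le_max_right _ _).trans (h6 0 h4).le)) (h3 rfl)
  have mK : ∀ l, Ms (PP (sc β)) fun G => Kf (lr β G) l := fun l => (ms_lr β).comp (meas_kf l)
  refine ⟨lr β, (ms_lr β).univ, fun S hS R n p hp => ?_⟩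
  obtain ⟨q, H, a1, a2, a3, a4⟩ := (lp (sc β) ⊤ le_top).fin tendsto_id hS
    (ms_pi fun l => mK (l + 1)) (ms_pi fun l => ms_cmp (R l) (mK l)) ((fo _).l hp)
  have hq := (fo _).l a1
  obtain ⟨q0, ρ, l0, b1, b2, b3, b4⟩ := star_step (PP_rs hq le_top) a2
    (R := fun l k => (l + 1) * R l k) a3
  rw [rs_rs _ (lt_sc β).le] at b1
  obtain ⟨γ, k1, k2⟩ := Cf.bdd h5 (WithTop.coe_lt_coe.2 h4) ((b2.image Prod.fst).insert q0)
    (insert_subset ((fo _).l b1) (image_subset_iff.2 b3))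
  obtain ⟨s, r, k3, k4, k5, k6⟩ := hδ (q0, ρ, n)
    (RR_mono le_top ((fo β).tr b1 (RR_down le_top h7 ((fo _).tr a1 hp))))
  have k7 := PP_mono (WithTop.coe_le_coe.2 (((hg γ q0 (k2 (mem_insert _ _)) ρ n fun z hz =>
    k2 (mem_insert_of_mem _ ⟨z, hz, rfl⟩)).trans (le_max_left _ _)).trans
      (h6 γ (WithTop.coe_lt_coe.1 k1)).le)) k3
  have k8 := RR_down le_top ((fo _).l b1) k4
  rw [rs_self k7 le_rfl] at k8
  obtain ⟨t, c1, c2, c3⟩ := b4 s n r k8 k5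
  obtain ⟨q', c4, c5, c6, -⟩ := exists_glue le_top hq c1
  refine ⟨q', ρ, r, l0, (fo _).tr c4 a1, k5, mono _ _ _ _ _ k6 ((fo _).tr c5 (RR_mono le_top
    (c2 ▸ RR_rs_self (lt_sc β).le ((fo _).l c1)))), ((a4.le c4).and (Frc.lift' le_top ((fo _).l c4)
      (ms_all fun l => (ms_const _).imp (ms_av ((ms_ev b3).mono (PP_mono (lt_sc β).le)) (mK l)
        (mK (l + 1)) (a2.app l) n r)) (c6 ▸ c3))).mono fun G _ _ k l hl hc => ?_⟩
  exact fun e1 e e2 g1 g2 g3 g4 g5 => k.2 l hl e1 e e2 g1 g2 g3 g4 (k.1 l hc e g5 (g3.trans g4.le))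

end Pool.Agent.Lib.MP_fecf72_lc.LV
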