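import Pool.Agent.Lib.MP_fecf72_lc.Main
import Pool.Agent.Lib.BDS.Star
import Pool.Agent.Lib.BDS.Ana

namespace Pool.Agent.Lib.MP_fecf72_lc.LV

open Set Filter Pool.Agent.Lib.BDS

variable {E : Type} [NormedAddCommGroup E] [InnerProductSpace ℂ E] {b : HilbertBasis ℕ ℂ E}

/-- Infinite matrices. -/
abbrev Mat : Type := ℕ → ℕ → ℂ

open Classical in
/-- A matrix as a point of Cantor space. -/
noncomputable def cod (m : Mat) : Cs := fun n => decide (∃ p : ℕ × ℕ × Bool × ℚ,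
  Encodable.encode p = n ∧ (p.2.2.2 : ℝ) < if p.2.2.1 then (m p.1 p.2.1).re else (m p.1 p.2.1).im)

theorem opC_eq (T : E →L[ℂ] E) : opC b T = cC (cod (ent b T)) := by
  ext y
  simp only [opC, cC, mem_img, cod, decide_eq_true_eq, mem_ofPred_eq]
  exact ⟨fun ⟨q, h, e⟩ => ⟨_, ⟨q, rfl, h⟩, e⟩, fun ⟨_, ⟨q, rfl, h⟩, e⟩ => ⟨q, h, e⟩⟩

theorem cod_inj : Function.Injective cod := fun m m' h => by
  have key : ∀ p : ℕ × ℕ × Bool × ℚ,
      ((p.2.2.2 : ℝ) < if p.2.2.1 then (m p.1 p.2.1).re else (m p.1 p.2.1).im) ↔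
      (p.2.2.2 : ℝ) < if p.2.2.1 then (m' p.1 p.2.1).re else (m' p.1 p.2.1).im := fun p => by
    simpa only [cod, decide_eq_decide, Encodable.encode_inj, exists_eq_left] using
      congrFun h (Encodable.encode p)
  exact funext₂ fun i j => Complex.ext (eq_of_forall_rat_lt_iff_lt fun q => key (i, j, true, q))
    (eq_of_forall_rat_lt_iff_lt fun q => key (i, j, false, q))

theorem meas_cod : Measurable cod :=
  measurable_pi_lambda _ fun n => meas_bool (by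
    simp only [cod, decide_eq_true_eq]
    refine Measurable.exists fun p => measurable_const.and (measurableSet_setOfPred.1
      (measurableSet_lt measurable_const ?_))
    split_ifs <;> fun_prop)

/-- Decoding of matrices. -/
noncomputable def dcd : Cs → Mat := (meas_cod.measurableEmbedding cod_inj).invFun

theorem dcd_cod (m : Mat) : dcd (cod m) = m :=
  (meas_cod.measurableEmbedding cod_inj).leftInverse_invFun m

theorem meas_dcd : Measurable dcd := (meas_cod.measurableEmbedding cod_inj).measurable_invFun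

theorem opC_inj : Function.Injective (opC b) := fun S T h =>
  ent_inj (cod_inj (cC_inj (by rwa [← opC_eq, ← opC_eq])))

theorem meas_SS (l k k' : ℕ) : Measurable fun m : Mat => SS m l k k' :=
  measurable_finset_iff.2 fun j => by
    simp only [SS, Finset.mem_filter, nu]
    exact measurable_const.and (meas_lt (by fun_prop) (by fun_prop))

theorem natC_eq (m : ℕ) : natC m = cC fun j => decide (j < m) := by
  ext x
  simp only [cC, mem_img, mem_ofPred_eq, decide_eq_true_eq]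
  induction m with
  | zero => simp [natC]
  | succ m ih =>
    rw [natC, ZFSet.mem_insert_iff, ih]
    exact ⟨fun h => h.elim (fun k => ⟨m, m.lt_succ_self, k.symm⟩)
      fun ⟨j, a, b⟩ => ⟨j, Nat.lt_succ_of_lt a, b⟩, fun ⟨j, a, b⟩ =>
        (Nat.lt_succ_iff_lt_or_eq.1 a).elim (fun k => Or.inr ⟨j, k, b⟩) fun k => Or.inl (k ▸ b.symm)⟩

/-- The set name of a measurable point. -/
noncomputable def nm (f : Set U0 → Cs) : Nm U0 := hat (nameOf (RR ⊤) f)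

theorem top_top : ∀ p, RR ⊤ p p → RR ⊤ p top := fun _ h => RR_top h

theorem club_cs : ∀ᶠ N in Club, ∀ G, GG N (RR ⊤) G →
    (∀ f : Set U0 → Cs, In N f → Ms univ f → In N (nm f) ∧ val N G (nm f) = cC (f G)) ∧
    ∀ c, cC c ∈ Mod N G → ∃ f : Set U0 → Cs, In N f ∧ Ms univ f ∧ f G = c := by
  filter_upwards [club_countable, club_names top_top (fo ⊤), club_mem (fo ⊤), clo1 nm,
    clo1 fun π : Nm U0 => ev {x | FMem (RR ⊤) (nN top x.2) π x.1}, club_reflect (U := U0),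
    clo0 (RR ⊤), clo0 top, clo1 fun (f : Set U0 → Cs) G => ev (nameOf (RR ⊤) f) G = f G]
    with N hc nm cm c1 c2 rf hR ht c3 G hG
  obtain ⟨n1, -, -, n4, -⟩ := nm G hG
  refine ⟨fun f hf mf => ⟨c1 f hf, ?_⟩, ?_⟩
  · rw [← rf _ _ _ G hR ht (c3 f hf) (ev_nameOf (fo ⊤) mf) hG.f hG.g n1]
    ext x
    simp only [mem_val hc, cC, mem_img, mem_ofPred_eq, ev_true]
    constructor
    · rintro ⟨_, _, ⟨⟨⟨p, n⟩, h⟩, rfl, rfl⟩, k1, -, rfl⟩
      exact ⟨n, ⟨p, k1, h⟩, (n4 n).2.symm⟩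
    · rintro ⟨n, ⟨p, k1, h⟩, rfl⟩
      exact ⟨_, _, ⟨⟨(p, n), h⟩, rfl, rfl⟩, k1, (n4 n).1, (n4 n).2.symm⟩
  · rintro c ⟨π, h3, h4⟩
    refine ⟨_, c2 π h3, ms_ev' _, funext fun n => Bool.eq_iff_iff.2 ?_⟩
    rw [ev_true, ← natC_mem_cC, ← h4, ← (n4 n).2, cm G hG _ _ (n4 n).1 h3]
    rfl

theorem club_cl (F : Mat → Mat → Mat) (hF : Measurable fun z : Mat × Mat => F z.1 z.2) :
    ∀ᶠ N in Club, ∀ G, GG N (RR ⊤) G → ∀ S T T' : E →L[ℂ] E, opC b S ∈ Mod N G → opC b T ∈ Mod N G →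
      ent b T' = F (ent b S) (ent b T) → opC b T' ∈ Mod N G := by
  filter_upwards [club_cs, clo2 fun (f g : Set U0 → Cs) G => cod (F (dcd (f G)) (dcd (g G)))]
    with N cs c G hG S T T' hS hT e
  obtain ⟨f, a1, a2, a3⟩ := (cs G hG).2 _ (opC_eq S ▸ hS)
  obtain ⟨g, b1, b2, b3⟩ := (cs G hG).2 _ (opC_eq T ▸ hT)
  obtain ⟨c1, c2⟩ := (cs G hG).1 _ (c f g a1 b1)
    ((((a2.comp meas_dcd).prod (b2.comp meas_dcd)).comp hF).comp meas_cod)
  exact ⟨_, c1, by rw [c2, a3, b3, dcd_cod, dcd_cod, opC_eq, e]⟩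

theorem club_const (T : E →L[ℂ] E) : ∀ᶠ N in Club, ∀ G, GG N (RR ⊤) G → opC b T ∈ Mod N G := by
  filter_upwards [club_cs, clo0 fun _ : Set U0 => cod (ent b T)] with N cs c G hG
  obtain ⟨c1, c2⟩ := (cs G hG).1 _ c (ms_const _)
  exact ⟨_, c1, c2.trans (opC_eq T).symm⟩

variable [CompleteSpace E]

theorem club_alg : ∀ᶠ N in Club, ∀ G, GG N (RR ⊤) G → Alg b (Mod N G) := by
  filter_upwards [club_cl (b := b) (· + ·) (by fun_prop),
    club_cl (b := b) (fun m _ i j => starRingEnd ℂ (m j i)) (measurable_pi_lambda _ fun i =>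
      measurable_pi_lambda _ fun j => Complex.continuous_conj.measurable.comp (by fun_prop)),
    club_all fun q : ℚ => club_cl (b := b) (fun m _ => (q : ℂ) • m) (by fun_prop),
    club_cl (b := b) (fun m _ => Complex.I • m) (by fun_prop), club_const (b := b) 1,
    club_all fun k => club_const (b := b) (dg b {k})] with N c1 c2 c3 c4 c5 c6 G hG
  exact ⟨fun S T a c => c1 G hG S T _ a c (ent_add S T),
    fun T a => c2 G hG T T _ a a (funext₂ (ent_star T)), fun q T a => c3 q G hG T T _ a a (ent_smul _ T),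
    fun T a => c4 G hG T T _ a a (ent_smul _ T), c5 G hG, fun k => c6 k G hG⟩

variable (b) in
/-- The projection onto a residue class of blocks. -/
noncomputable def du (n r : ℕ) (c : Cs) : E →L[ℂ] E := dg b {e | cnt c e % (n + 1) = r}

theorem meas_du (n r : ℕ) : Measurable fun c => cod (ent b (du b n r c)) :=
  meas_cod.comp (measurable_pi_lambda _ fun i => measurable_pi_lambda _ fun j => by
    simp only [du, ent_dg]
    exact Measurable.ite (measurableSet_setOfPred.2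
      ((meas_cmp (· % (n + 1) = r) (meas_cnt i)).and measurable_const))
      measurable_const measurable_const)

variable (b) in
/-- The condition forces that the state gives small value to the projection. -/
def Lm (τ : Nm U0) (s : U0) (ρ : Nam U0) (n r : ℕ) (π : Nm U0 × Nm U0) : Prop :=
  FMem (RR ⊤) (opN top (nm fun G => cod (ent b (du b n r (ev ρ G)))) (opN top π.1 π.2)) τ s ∧
    FF (RR ⊤) (.not (.mem 0 1)) [nN top (Encodable.encode (1 / (n + 1) : ℚ)), π.1] s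

theorem Lm.le {τ : Nm U0} (p q : U0) (ρ : Nam U0) (n r : ℕ) (h : ∃ π, Lm b τ p ρ n r π)
    (k : RR ⊤ q p) : ∃ π, Lm b τ q ρ n r π :=
  h.imp fun _ h => ⟨h.1.le (fo ⊤) k, h.2.le (fo ⊤) k⟩

theorem natC_mem_realC {q : ℚ} {x : ℝ} : natC (Encodable.encode q) ∈ realC x ↔ (q : ℝ) < x :=
  mem_img.trans ⟨fun ⟨_, h, e⟩ => Encodable.encode_injective (natC_inj e) ▸ h, fun h => ⟨q, h, rfl⟩⟩

theorem club_lam : ∀ᶠ N in Club, ∀ G, GG N (RR ⊤) G → ∀ (τ : Nm U0) (φ : (E →L[ℂ] E) → ℂ), In N τ →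
    val N G τ = img {T | opC b T ∈ Mod N G} (fun T => ZFSet.pair (opC b T) (cxC (φ T))) →
    ∀ ρ : Nam U0, In N ρ → ∀ n r, opC b (du b n r (ev ρ G)) ∈ Mod N G ∧
      ((∃ s ∈ G, ∃ π, Lm b τ s ρ n r π) ↔ (φ (du b n r (ev ρ G))).re ≤ ((1 / (n + 1) : ℚ) : ℝ)) := by
  filter_upwards [club_cs, club_names top_top (fo ⊤), club_mem (fo ⊤), club_sat (fo ⊤),
    club_zfc top_top (fo ⊤), clo_pair (Nm U0) (Nm U0), clo_pair (Nm U0) (Nam U0),
    club_all fun z : ℕ × ℕ => clo1 fun (ρ : Nam U0) G => cod (ent b (du b z.1 z.2 (ev ρ G))),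
    club_all fun z : ℕ × ℕ => club_wit1 (fo ⊤) fun (x : Nm U0 × Nam U0) s π =>
      Lm b x.1 s x.2 z.1 z.2 π] with N cs nm cm st zf p1 p2 c1 w1 G hG τ φ hτ e ρ hρ n r
  obtain ⟨-, -, -, n4, -, -, n7⟩ := nm G hG
  obtain ⟨a1, a2⟩ := (cs G hG).1 _ (c1 (n, r) ρ hρ) ((ms_ev' ρ).comp (meas_du n r))
  rw [← opC_eq] at a2
  have a3 : opC b (du b n r (ev ρ G)) ∈ Mod N G := ⟨_, a1, a2⟩
  have key : ∀ π1 π2 : Nm U0, In N π1 → In N π2 → ((∃ s ∈ G, Lm b τ s ρ n r (π1, π2)) ↔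
      ZFSet.pair (opC b (du b n r (ev ρ G))) (ZFSet.pair (val N G π1) (val N G π2)) ∈ val N G τ ∧
        natC (Encodable.encode (1 / (n + 1) : ℚ)) ∉ val N G π1) := by
    intro π1 π2 h1 h2
    have b1 := n7 _ _ h1 h2
    have b2 := n7 _ _ a1 b1.1
    have b3 := st G hG (.not (.mem 0 1)) [nN top (Encodable.encode (1 / (n + 1) : ℚ)), π1]
      (by simp [h1, (n4 _).1])
    rw [← a2, ← b1.2, ← b2.2, cm G hG _ _ b2.1 hτ, ← (n4 _).2]
    refine ⟨fun ⟨s, h, k⟩ => ⟨⟨s, h, k.1⟩, b3.2 ⟨s, h, k.2⟩⟩, fun ⟨⟨s, h, k⟩, k'⟩ => ?_⟩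
    obtain ⟨s', h', k'⟩ := b3.1 k'
    obtain ⟨t, d1, d2, d3⟩ := hG.f.2 s h s' h'
    exact ⟨t, d1, k.le (fo ⊤) d2, k'.le (fo ⊤) d3⟩
  refine ⟨a3, fun h => ?_, fun h => ?_⟩
  · obtain ⟨s, h1, ⟨π1, π2⟩, h2, h3⟩ := w1 (n, r) G hG (τ, ρ) ((p2 _ _).2 ⟨hτ, hρ⟩) h
    obtain ⟨h4, h5⟩ := (key π1 π2 ((p1 _ _).1 h2).1 ((p1 _ _).1 h2).2).1 ⟨s, h1, h3⟩
    obtain ⟨T, -, h6⟩ := mem_img.1 (e ▸ h4)
    simp only [cxC, ZFSet.pair_inj] at h6
    rwa [← h6.2.1, natC_mem_realC, not_lt, opC_inj h6.1] at h5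
  · have tr := (zf G hG).trans
    have t2 : ∀ x y, ZFSet.pair x y ∈ Mod N G → x ∈ Mod N G ∧ y ∈ Mod N G := fun x y k =>
      have := tr _ k {x, y} (by simp [ZFSet.pair])
      ⟨tr _ this x (by simp), tr _ this y (by simp)⟩
    have h1 : ZFSet.pair (opC b (du b n r (ev ρ G))) (cxC (φ (du b n r (ev ρ G)))) ∈ val N G τ :=
      e ▸ mem_img.2 ⟨_, a3, rfl⟩
    obtain ⟨⟨π1, h2, h3⟩, π2, h4, h5⟩ := t2 _ _ (t2 _ _ (tr _ ⟨τ, hτ, rfl⟩ _ h1)).2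
    obtain ⟨s, h6, h7⟩ := (key π1 π2 h2 h4).2 (by
      rw [h3, h5, natC_mem_realC, not_lt]; exact ⟨h1, h⟩)
    exact ⟨s, h6, _, h7⟩

/-- Names for the sets of jumps. -/
noncomputable def SN (a : Set U0 → ℕ → ℕ) (f : Set U0 → Cs) : Sn :=
  fun G l => SS (dcd (f G)) l (Kf (a G) l) (Kf (a G) (l + 1))

theorem ms_SN {a : Set U0 → ℕ → ℕ} {f : Set U0 → Cs} (ha : ∀ l, Ms univ fun G => Kf (a G) l)
    (hf : Ms univ f) : Ms univ (SN a f) := by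
  refine ms_pi fun l => ?_
  have h : ∀ z : ℕ × ℕ, Ms univ fun G => SS (dcd (f G)) l z.1 z.2 := fun z => by
    have h1 := hf.comp meas_dcd
    have h2 := h1.comp (meas_SS l z.1 z.2)
    exact h2
  have h3 := ms_ctbl (f := fun (z : ℕ × ℕ) G => SS (dcd (f G)) l z.1 z.2) h ((ha l).prod (ha (l + 1)))
  exact h3

/-- The avoidance property. -/
def Pa (a : Set U0 → ℕ → ℕ) (f : Set U0 → Cs) (ρ : Nam U0) (C n r l0 : ℕ) (G : Set U0) : Prop :=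
  ∀ l, l0 ≤ l → (SN a f G l).card ≤ 2 ^ l * (Kf (a G) l * C ^ 2) →
    Av (ev ρ G) n r (Kf (a G) l) (Kf (a G) (l + 1)) (SN a f G l)

theorem club_bd : ∀ᶠ N in Club, ∀ G, GG N (RR ⊤) G → ∀ φ, StateIn b (Mod N G) φ →
    (∀ k, φ (pr1 b k) = 0) →
    ∃ g : ℕ → ℕ, seqC (fun i => natC (g i)) ∈ Mod N G ∧ Monotone g ∧ (∀ n, {i | g i = n}.Finite) ∧
      ∀ ψ, StateIn b (Mod N G) ψ →
        (∀ D, opC b D ∈ Mod N G → (∀ i j, i ≠ j → ent b D i j = 0) → ψ D = φ D) →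
        ∀ T, opC b T ∈ Mod N G → (∀ i j, g i = g j → ent b T i j = 0) → ψ T = 0 := by
  filter_upwards [club_ne (R := RR ⊤), club_cs, club_alg (b := b), club_lam (b := b), club_names top_top (fo ⊤),
    club_truth (U := U0), clo0 (RR ⊤),
    club_wit2 (fo ⊤) fun (τ : Nm U0) p (x : (Set U0 → ℕ → ℕ) × Nam U0) =>
      St (fun s ρ n r => ∃ π, Lm b τ s ρ n r π) p x.1 ∨
        ∃ n, ∀ s r, RR ⊤ s p → r ≤ n → ¬ ∃ π, Lm b τ s x.2 n r π,
    clo_pair (Set U0 → ℕ → ℕ) (Nam U0), clo_pair (Set U0 → ℕ → ℕ) (Set U0 → Cs),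
    clo_pair (Nm U0) ((Set U0 → ℕ → ℕ) × (Set U0 → Cs)),
    clo1n fun (a : Set U0 → ℕ → ℕ) i G j => decide (j < blk (Kf (a G)) i),
    clo1 fun a : Set U0 → ℕ → ℕ => seqN top fun i => nm fun G j => decide (j < blk (Kf (a G)) i),
    club_all fun y : ℕ × ℕ => club_wit2 (fo ⊤)
      fun (z : Nm U0 × (Set U0 → ℕ → ℕ) × (Set U0 → Cs)) q (ρ : Nam U0) => ∃ r l0, r ≤ y.2 ∧
        (∃ π, Lm b z.1 q ρ y.2 r π) ∧ Frc (RR ⊤) q (Pa z.2.1 z.2.2 ρ y.1 y.2 r l0),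
    club_all fun y : ℕ × ℕ × ℕ × ℕ => clo3' fun a f ρ => Pa a f ρ y.1 y.2.1 y.2.2.1 y.2.2.2]
    with N ne cs al lm nm tr hR w1 p1 p2 p3 c1 c2 w2 c3 G hG φ hφ h0
  obtain ⟨q0, hq0⟩ := ne G hG
  obtain ⟨-, -, -, -, -, n6, -⟩ := nm G hG
  obtain ⟨τ, hτ, e⟩ := hφ.mem
  have lm := lm G hG τ φ hτ e
  have hM := al G hG
  obtain ⟨p, hp, ⟨a, ρ⟩, hx, ⟨ma, h1⟩ | ⟨n, h1⟩⟩ := w1 G hG τ hτ ⟨q0, hq0, fun r hr => by
    by_cases k : ∀ s ρ n, RR ⊤ s r → ∃ s' r', RR ⊤ s' s ∧ r' ≤ n ∧ ∃ π, Lm b τ s' ρ n r' π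
    · obtain ⟨a, ha⟩ := star Lm.le ((fo ⊤).l hr) k
      exact ⟨r, (a, ∅), (fo ⊤).l hr, Or.inl ha⟩
    · simp only [not_forall] at k
      obtain ⟨s, ρ, n, k1, k2⟩ := k
      exact ⟨s, (fun _ _ => 0, ρ), k1, Or.inr ⟨n, fun s' r' a d c => k2 ⟨s', r', a, d, c⟩⟩⟩⟩
  swap
  · have lm := lm ρ ((p1 _ _).1 hx).2 n
    obtain ⟨r, k1, k2⟩ := Pool.Agent.Lib.BDS.pigeon hM hφ (fun e => cnt (ev ρ G) e % (n + 1)) n
      (fun e => Nat.le_of_lt_succ (Nat.mod_lt _ n.succ_pos)) fun r => (lm r).1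
    obtain ⟨s, k3, k4⟩ := (lm r).2.2 k2
    obtain ⟨t, -, k5, k6⟩ := hG.f.2 p hp s k3
    exact (h1 t r k5 k1 (Lm.le _ _ _ _ _ k4 k6)).elim
  have ha : In N a := ((p1 _ _).1 hx).1
  have mK : ∀ l, Ms univ fun G => Kf (a G) l := fun l => Ms.comp ma (meas_kf l)
  have hK : StrictMono (Kf (a G)) := strictMono_nat_of_lt_succ fun l => by
    simp [Kf, Finset.sum_range_succ]
  have hb := fun i => (cs G hG).1 _ (c1 a ha i) (ms_pi fun j => ms_cmp (fun m => decide (j < m))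
    (ms_sInf fun l => ms_cmp (i < ·) (mK (l + 1))))
  refine ⟨blk (Kf (a G)), ⟨_, c2 a ha, ?_⟩, blk_mono hK, fun n => (finite_Iio (Kf (a G) (n + 1))).subset
    fun i hi => (hi : _ = n) ▸ lt_blk hK i, fun ψ hψ hd => ?_⟩
  · rw [n6 _ fun i => (hb i).1]
    simp only [fun i => (hb i).2, natC_eq]
  have hd : ∀ A, opC b (dg b A) ∈ Mod N G → ψ (dg b A) = φ (dg b A) := fun A hA =>
    hd _ hA fun i j k => by rw [ent_dg, if_neg fun k' => k k'.2]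
  refine kill hM hψ (fun k => by rw [hd _ (hM.fin k), dg_single, h0]) hK rfl fun T hT n => ?_
  obtain ⟨C, hC⟩ := exists_nat_ge ‖T‖
  obtain ⟨f, hf, mf, ef⟩ := (cs G hG).2 _ (opC_eq T ▸ hT)
  have mS := ms_SN mK mf
  obtain ⟨q, hq, ρ, hρ, r, l0, -, k1, k2⟩ := w2 (C, n) G hG (τ, a, f)
    ((p3 _ _).2 ⟨hτ, (p2 _ _).2 ⟨ha, hf⟩⟩) ⟨p, hp, fun s hs =>
      let ⟨q, ρ, r, l0, b1, b2⟩ := h1 _ mS (fun l k => 2 ^ l * (k * C ^ 2)) n s hs
      ⟨q, ρ, b1, r, l0, b2⟩⟩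
  have k3 := (tr _ _ G (fo ⊤) hR (c3 (C, n, r, l0) a f ρ ha hf hρ) (ms_all fun l =>
    (ms_const _).imp ((ms_cmp (fun z : Finset ℕ × ℕ => z.1.card ≤ 2 ^ l * (z.2 * C ^ 2))
      ((mS.app l).prod (mK l))).imp (ms_av (ms_ev' ρ) (mK l) (mK (l + 1)) (mS.app l) n r)))
    hG.f hG.g).1 ⟨q, hq, k2⟩
  simp only [Pa, SN, ef, dcd_cod] at k3
  exact ⟨{e | cnt (ev ρ G) e % (n + 1) = r}, l0, (lm ρ hρ n r).1,
    (congrArg Complex.re (hd _ (lm ρ hρ n r).1)).trans_le ((lm ρ hρ n r).2.1 ⟨q, hq, k1⟩),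
    fun l hl => k3 l hl (SS_card hC _ _ _)⟩

variable (b) in
theorem main : ∃ M : Set V, M.Countable ∧ IsZFC M ∧ ∀ φ, StateIn b M φ →
    (∀ k, φ (pr1 b k) = 0) →
    ∃ g : ℕ → ℕ, seqC (fun i => natC (g i)) ∈ M ∧ Monotone g ∧ (∀ n, {i | g i = n}.Finite) ∧
      ∀ ψ, StateIn b M ψ → (∀ D, opC b D ∈ M → (∀ i j, i ≠ j → ent b D i j = 0) → ψ D = φ D) →
        ∀ T, opC b T ∈ M → (∀ i j, g i = g j → ent b T i j = 0) → ψ T = 0 := by
  obtain ⟨N, h1, h2, h3, h4, h5, h6⟩ := (club_countable.and ((club_zfc top_top (fo ⊤)).and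
    ((club_bd (b := b)).and (club_proper.and ((clo0 (⊤ : Lv)).and (clo0 top)))))).exists
  obtain ⟨q, k1, k2⟩ := h4 ⊤ h5 top (top_mem _) h6
  obtain ⟨G, k3, -, k4⟩ := k2.exists (fo ⊤) ((fo ⊤).l k1)
  exact ⟨Mod N G, (countable_In _ h1).image _, h2 G ⟨k3, k4⟩, h3 G ⟨k3, k4⟩⟩

end Pool.Agent.Lib.MP_fecf72_lc.LV
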