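import Pool.Agent.Lib.BDS.Lav

namespace Pool.Agent.Lib.MP_fecf72_lc.LV

open Set Filter

/-- Names for slaloms. -/
abbrev Sn : Type 1 := Set U0 → ℕ → Finset ℕ

/-- Slaloms of the model at level `β0`. -/
def Sl (β0 : Lv) (w : ℕ → ℕ) (h : Sn) : Prop := Ms (PP β0) h ∧ ∀ G k, (h G k).card ≤ w k + 1

/-- The Laver property of the quotient between two levels. -/
def LP (β0 δ : Lv) : Prop :=
  ∀ w : ℕ → ℕ, Tendsto w atTop atTop → ∀ f b : Set U0 → ℕ → ℕ, Ms univ f → Ms (PP β0) b →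
    (∀ G k, f G k ≤ b G k) → ∀ p ∈ PP δ, ∃ q h, RR δ q p ∧ Sl β0 w h ∧
      Frc (RR δ) q fun G => ∀ k, f G k ∈ h G k

theorem ms_memf {S : Set U0} {F : Sn} (h : Ms S F) (k m : ℕ) : Ms S fun G => m ∈ F G k :=
  ms_cmp (m ∈ ·) (h.app k)

theorem LP.fin {β0 δ : Lv} (h : LP β0 δ) {w : ℕ → ℕ} (hw : Tendsto w atTop atTop) {F : Sn}
    {b c : Set U0 → ℕ → ℕ} (hF : Ms univ F) (hb : Ms (PP β0) b) (hc : Ms (PP β0) c) {p : U0}
    (hp : p ∈ PP δ) : ∃ q, ∃ H : Sn, RR δ q p ∧ Ms (PP β0) H ∧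
      (∀ G k, (H G k).card ≤ (w k + 1) * c G k) ∧ Frc (RR δ) q fun G => ∀ k,
        (F G k).card ≤ c G k → ∀ m ∈ F G k, m ≤ b G k → m ∈ H G k := by
  obtain ⟨q, H, h1, ⟨h2, h3⟩, h4⟩ := h w hw
    (fun G k => Encodable.encode ((F G k).filter (· ≤ b G k)))
    (fun G k => (Finset.range (b G k + 1)).powerset.sup Encodable.encode)
    (ms_pi fun k => ms_cmp (fun z : Finset ℕ × ℕ => Encodable.encode (z.1.filter (· ≤ z.2)))
      ((hF.app k).prod (hb.univ.app k)))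
    (ms_pi fun k => ms_cmp (fun n => (Finset.range (n + 1)).powerset.sup Encodable.encode)
      (hb.app k))
    (fun G k => Finset.le_sup (f := Encodable.encode) (Finset.mem_powerset.2 fun m hm =>
      Finset.mem_range.2 (Nat.lt_succ_of_le (Finset.mem_filter.1 hm).2))) p hp
  let d : ℕ → ℕ → Finset ℕ := fun n e =>
    if ((Encodable.decode e).getD (∅ : Finset ℕ)).card ≤ n then (Encodable.decode e).getD ∅ else ∅
  refine ⟨q, fun G k => (H G k).biUnion (d (c G k)), h1, ms_pi fun k =>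
    ms_cmp (fun z : Finset ℕ × ℕ => z.1.biUnion (d z.2)) ((h2.app k).prod (hc.app k)),
    fun G k => (Finset.card_biUnion_le_card_mul _ _ (c G k) fun e _ => ?_).trans
      (Nat.mul_le_mul_right _ (h3 G k)), h4.mono fun G _ _ a k a1 m a2 a3 =>
        Finset.mem_biUnion.2 ⟨_, a k, ?_⟩⟩
  · simp only [d]; split_ifs with h
    exacts [h, Nat.zero_le _]
  · simp only [d, Encodable.encodek, Option.getD_some]
    rw [if_pos ((Finset.card_filter_le _ _).trans a1)]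
    exact Finset.mem_filter.2 ⟨a2, a3⟩

theorem lp_refl (β0 : Lv) : LP β0 β0 := by
  intro w _ f b hf _ _ p hp
  obtain ⟨e, h1, h2⟩ := mixM (fo β0) (fun _ y => y = f) fun _ _ h => h ▸ hf
  obtain ⟨s, a, _, h3, -, rfl, h4⟩ := h2 p f hp rfl
  exact ⟨s, fun G k => {e G k}, h3, ⟨ms_pi fun k => ms_cmp (fun m : ℕ => ({m} : Finset ℕ)) (h1.app k),
    fun G k => by simp⟩, h4.mono fun G _ _ a k => by simp [a]⟩

theorem exists_slow {w : ℕ → ℕ} (hw : Tendsto w atTop atTop) (φ : ℕ → ℕ) (h : φ 0 = 0) :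
    ∃ w0 : ℕ → ℕ, Tendsto w0 atTop atTop ∧ ∀ k, φ (w0 k) ≤ w k := by
  refine ⟨fun k => Nat.findGreatest (fun m => φ m ≤ w k) (w k), tendsto_atTop.2 fun m => ?_,
    fun k => Nat.findGreatest_spec (P := fun m => φ m ≤ w k) (Nat.zero_le _) (by simp [h])⟩
  filter_upwards [tendsto_atTop.1 hw m, tendsto_atTop.1 hw (φ m)] with k h1 h2
  exact Nat.le_findGreatest h1 h2

theorem lp_succ {β0 : Lv} {β : U0} (h0 : β0 ≤ β) (hL : LP β0 β) : LP β0 (sc β) := by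
  intro w hw f b hf hb hfb p hp
  obtain ⟨w0, hw0, e⟩ := exists_slow hw (fun m => m * m + 2 * m) rfl
  have hb' := hb.mono (PP_mono h0)
  obtain ⟨q, h, h1, h2, h3, h4⟩ := lav_step hp hf hb' hfb hw0
  obtain ⟨s, H, k1, k2, k3, k4⟩ := hL.fin hw0 h2.univ hb (c := fun _ k => w0 k + 1) (ms_const _)
    (PP_rs ((fo _).l h1) (lt_sc β).le)
  obtain ⟨t, k5, -, k6, -⟩ := exists_glue (lt_sc β).le ((fo _).l h1) k1
  refine ⟨t, H, (fo _).tr k5 h1, ⟨k2, fun G k => (k3 G k).trans (by nlinarith [e k])⟩,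
    ((h4.le k5).and (Frc.lift' (lt_sc β).le ((fo _).l k5)
      (φ := fun G => ∀ k, ∀ m ∈ h G k, m ≤ b G k → m ∈ H G k) (ms_all fun k => ms_all fun m =>
        (ms_memf h2 k m).imp (((ms_const m).le (hb'.app k)).imp
          (ms_memf (k2.mono (PP_mono h0)) k m)))
      (k6 ▸ k4.mono fun G _ _ a k => a k (h3 G k)))).mono fun G _ _ a k =>
        a.2 k _ (a.1 k) (hfb G k)⟩

section
variable {β0 δ : Lv} {f b : Set U0 → ℕ → ℕ} {w : ℕ → ℕ}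

/-- The slalom `h` captures an interpretation of `f` below `p`. -/
def Gd (δ : Lv) (f : Set U0 → ℕ → ℕ) (γ : Lv) (p : U0) (h : Sn) (G : Set U0) : Prop :=
  ∀ i, ∃ s ∈ G, ∃ r, RR δ r p ∧ s = rs r γ ∧ Frc (RR δ) r fun G => ∀ k < i, f G k ∈ h G k

theorem gd_exists (hf : Ms univ f) (hb : Ms (PP β0) b) (hfb : ∀ G k, f G k ≤ b G k)
    (hw : Tendsto w atTop atTop) {γ : Lv} (hγ0 : β0 ≤ γ) (hγ : γ ≤ δ) (hL : LP β0 γ) {p : U0}
    (hp : p ∈ PP δ) {i0 : ℕ} {h0 : Sn} (s0 : Sl β0 w h0)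
    (h1 : Frc (RR δ) p fun G => ∀ k < i0, f G k ∈ h0 G k) :
    ∃ p' h, RR δ p' p ∧ Sl β0 w h ∧ (∀ G, ∀ k < i0, h G k = h0 G k) ∧
      Frc (RR γ) (rs p' γ) (Gd δ f γ p' h) := by
  let Re : List ℕ → Set U0 → Prop := fun l G => ∃ s ∈ G, ∃ r, RR δ r p ∧ s = rs r γ ∧
    Frc (RR δ) r fun G => (List.range l.length).map (f G) = l
  have mR : ∀ l, Ms (PP γ) (Re l) := fun l => ms_open' _ fun _ ⟨_, a1, a2, _⟩ =>
    a2 ▸ PP_rs ((fo δ).l a1) hγ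
  let F : Set U0 → ℕ → List ℕ := fun G n =>
    Nat.rec [] (fun _ l => l ++ [sInf {m | Re (l ++ [m]) G}]) n
  let g : Set U0 → ℕ → ℕ := fun G n => sInf {m | Re (F G n ++ [m]) G}
  have mF : ∀ n, Ms (PP γ) fun G => F G n := fun n => by
    induction n with
    | zero => exact ms_const _
    | succ n ih =>
      exact ms_app (f := fun G l => l ++ [sInf {m | Re (l ++ [m]) G}]) (g := fun G => F G n)
        (ms_pi fun l => ms_cmp (fun m => l ++ [m]) (ms_sInf fun m => mR _)) ih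
  have mg : Ms (PP γ) g := ms_pi fun n => ms_app (f := fun G l => sInf {m | Re (l ++ [m]) G})
    (ms_pi fun l => ms_sInf fun m => mR _) (mF n)
  have eF : ∀ G n, F G n = (List.range n).map (g G) := fun G n => by
    induction n with
    | zero => rfl
    | succ n ih => rw [List.range_succ, List.map_append, ← ih]; rfl
  have hb' := hb.mono (PP_mono hγ0)
  have mm : ∀ k, Ms (PP γ) fun G => min (g G k) (b G k) := fun k =>
    ms_cmp (fun z : ℕ × ℕ => min z.1 z.2) ((mg.app k).prod (hb'.app k))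
  obtain ⟨s, H, a1, ⟨s1, s2⟩, a2⟩ := hL w hw (fun G k => min (g G k) (b G k)) b
    (ms_pi mm).univ hb (fun G k => min_le_right _ _) _ (PP_rs hp hγ)
  have a3 : Frc (RR γ) s fun G => ∀ l, Re l G → ∃ m, Re (l ++ [m]) G := frc_all fun l => by
    refine frc_of_dense (fo γ) fun t ht => ?_
    by_cases hc : ∃ r, RR δ r p ∧ (Frc (RR δ) r fun G => (List.range l.length).map (f G) = l) ∧
      ∃ t', RR γ t' t ∧ RR γ t' (rs r γ)
    · obtain ⟨r, b1, b2, t', b3, b4⟩ := hc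
      obtain ⟨r1, b5, -, b6, -⟩ := exists_glue hγ ((fo δ).l b1) b4
      obtain ⟨r2, m, b7, b8⟩ := (hf.app l.length).dec_val (fo δ) ((fo δ).l b5)
      exact ⟨rs r2 γ, (fo γ).tr (b6 ▸ RR_rs b7 hγ) b3, frc_of_all fun G _ hG _ =>
        ⟨m, _, hG, r2, (fo δ).tr b7 ((fo δ).tr b5 b1), rfl,
          ((b2.le ((fo δ).tr b7 b5)).and b8).mono fun G _ _ c => by
            simp [List.range_succ, c.1, c.2]⟩⟩
    · refine ⟨t, (fo γ).l ht, frc_of_all fun G hG htG ⟨s', b1, r, b2, b3, b4⟩ => ?_⟩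
      obtain ⟨t', -, b5⟩ := hG.2 t htG s' b1
      exact (hc ⟨r, b2, b4, t', b3 ▸ b5⟩).elim
  have a4 : Frc (RR γ) s fun G => ∀ n, Re (F G n) G := by
    refine (a3.and (frc_mem a1)).mono fun G _ _ c n => ?_
    induction n with
    | zero => exact ⟨_, c.2, p, hp, rfl, frc_of_all fun _ _ _ => rfl⟩
    | succ n ih => exact Nat.sInf_mem (s := {m | Re (F G n ++ [m]) G}) (c.1 _ ih)
  obtain ⟨p', b1, -, b2, b3⟩ := exists_glue hγ hp a1
  refine ⟨p', fun G k => if k < i0 then h0 G k else H G k, b1, ⟨ms_pi fun k => ?_, fun G k => ?_⟩,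
    fun G k hk => if_pos hk, b2 ▸ frc_all fun i => frc_of_dense (fo γ) fun r0 c0 => ?_⟩
  · split_ifs
    exacts [s0.1.app k, s1.app k]
  · dsimp only
    split_ifs
    exacts [s0.2 G k, s2 G k]
  obtain ⟨r1, l, c1, c2⟩ := (mF i).dec_val (fo γ) ((fo γ).l c0)
  have c3 := (fo γ).tr c1 c0
  obtain ⟨G, hG, c4, c5, c6⟩ := (c2.and (a4.le c3)).exists (fo γ) ((fo γ).l c1)
  obtain ⟨_, c7, r, c8, rfl, c9⟩ := c6 i
  have el : l.length = i := by rw [← c5, eF]; simp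
  rw [c5, el] at c9
  obtain ⟨t, -, d1, d2⟩ := hG.2 r1 c4 _ c7
  obtain ⟨r', d3, -, d4, -⟩ := exists_glue hγ ((fo δ).l c8) d2
  have d5 := (fo δ).tr d3 c8
  have d6 := (fo γ).tr d1 c3
  refine ⟨t, (fo γ).tr d1 c1, frc_of_all fun G' _ ht => ⟨t, ht, r',
    RR_glue_le hγ d5 ((fo δ).l b1) (by rwa [d4, b2]) b3, d4.symm, (((c9.le d3).and (h1.le d5)).and
      (Frc.lift' hγ ((fo δ).l d3) ((ms_cmp (· = l) (mF i)).and (ms_all fun k =>
        ms_cmp (fun z : ℕ × Finset ℕ => z.1 ∈ z.2) ((mm k).prod ((s1.mono (PP_mono hγ0)).app k))))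
        (d4 ▸ (c2.le d1).and (a2.le d6)))).mono fun G _ _ c k hk => ?_⟩⟩
  dsimp only
  split_ifs with h
  · exact c.1.2 k h
  · have e := List.map_inj_left.1 ((eF G i).symm.trans (c.2.1.trans c.1.1.symm)) k
      (List.mem_range.2 hk)
    have := c.2.2 k
    rwa [e, min_eq_left (hfb G k)] at this

theorem Gd.glue {γ γ' : Lv} (h1 : γ ≤ γ') (h2 : γ' ≤ δ) {p p' : U0} {h : Sn} (k1 : RR δ p' p)
    (k2 : ∀ β : U0, ¬ (β : Lv) < γ → dec p' β = dec p β)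
    (k : Frc (RR γ') (rs p γ') (Gd δ f γ' p h)) : Frc (RR γ') (rs p' γ') (Gd δ f γ' p' h) := by
  refine (k.le (RR_rs k1 h2)).mono fun G hG hp c i => ?_
  obtain ⟨_, c1, r, c2, rfl, c3⟩ := c i
  obtain ⟨t, c4, c5, c6⟩ := hG.2 _ hp _ c1
  obtain ⟨r', c7, -, c8, -⟩ := exists_glue h2 ((fo δ).l c2) c6
  exact ⟨t, c4, r', RR_glue_le h2 ((fo δ).tr c7 c2) ((fo δ).l k1) (c8 ▸ c5)
    fun β a => k2 β fun a' => a (a'.trans_le h1), c8.symm, c3.le c7⟩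

/-- The next condition and slalom. -/
def Nx (β0 δ : Lv) (f : Set U0 → ℕ → ℕ) (w : ℕ → ℕ) (γ' : Lv) (p : U0) (h : Sn) (i : ℕ) (p' : U0)
    (h' : Sn) : Prop :=
  RR δ p' p ∧ (Frc (RR δ) p' fun G => ∀ k < i, f G k ∈ h G k) ∧ Sl β0 w h' ∧
    (∀ G, ∀ k < i, h' G k = h G k) ∧ Frc (RR γ') (rs p' γ') (Gd δ f γ' p' h')

theorem nx_exists (hf : Ms univ f) (hb : Ms (PP β0) b) (hfb : ∀ G k, f G k ≤ b G k)
    (hw : Tendsto w atTop atTop) {γ γ' : Lv} (hγ0 : β0 ≤ γ) (hγ : γ ≤ γ') (hγ' : γ' ≤ δ)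
    (hL : LP β0 γ) (hL' : LP β0 γ') (j : ℕ → ℕ) {p : U0} {h : Sn} (s0 : Sl β0 w h) {t0 : U0}
    (h0 : t0 ∈ PP γ) (h1 : Frc (RR γ) t0 (Gd δ f γ p h)) : ∃ t, RR γ t t0 ∧ ∃ v : Sn,
      (Ms (PP β0) v ∧ ∀ G k, (v G k).card ≤ (w k + 1) * (w k * (w k + 1))) ∧ ∀ i, Frc (RR γ) t
      fun G => ∃ s ∈ {s | ∃ z : U0 × Sn, s = rs z.1 γ ∧ Nx β0 δ f w γ' p h (j i) z.1 z.2 ∧
        Frc (RR δ) z.1 fun G => ∀ k, i < w k → ∀ m ∈ z.2 G k, m ≤ b G k → m ∈ v G k}, s ∈ G := by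
  have hδ := hγ.trans hγ'
  choose e he1 he2 using fun i => mixM (fo γ) (fun a h' =>
    ∃ p', RR γ a (rs p' γ) ∧ Nx β0 δ f w γ' p h (j i) p' h') fun _ _ ⟨_, _, a⟩ => a.2.2.1.1.univ
  let e' : ℕ → Sn := fun i G k => if (e i G k).card ≤ w k + 1 then e i G k else ∅
  have me : ∀ i, Ms (PP γ) (e' i) := fun i => ms_pi fun k =>
    ms_cmp (fun s : Finset ℕ => if s.card ≤ w k + 1 then s else ∅) ((he1 i).app k)
  obtain ⟨t, v, a1, a2, a3, a4⟩ := hL.fin hw (F := fun G k => (Finset.range (w k)).biUnion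
    fun i => e' i G k) (ms_pi fun k => measurable_finset_iff.2 fun m => by
      simp only [Finset.mem_biUnion]
      exact Measurable.exists fun i => measurable_const.and (ms_memf (me i).univ k m))
    hb (c := fun _ k => w k * (w k + 1)) (ms_const _) h0
  replace a4 : Frc (RR γ) t fun G => ∀ i k, i < w k → ∀ m ∈ e' i G k, m ≤ b G k → m ∈ v G k :=
    a4.mono fun G _ _ a i k hk m hm => a k ((Finset.card_biUnion_le_card_mul _ _ (w k + 1)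
      fun i _ => by
        simp only [e']; split_ifs with h
        exacts [h, Nat.zero_le _]).trans (by simp)) m
      (Finset.mem_biUnion.2 ⟨i, Finset.mem_range.2 hk, hm⟩)
  refine ⟨t, a1, v, ⟨a2, a3⟩, fun i => frc_of_dense (fo γ) fun r hr => ?_⟩
  obtain ⟨G, hG, b1, b2⟩ := (h1.le ((fo γ).tr hr a1)).exists (fo γ) ((fo γ).l hr)
  obtain ⟨_, b3, r0, b4, rfl, b5⟩ := b2 (j i)
  obtain ⟨s1, -, b6, b7⟩ := hG.2 r b1 _ b3
  obtain ⟨r1, b8, -, b9, -⟩ := exists_glue hδ ((fo δ).l b4) b7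
  obtain ⟨p', h', c1, c2, c3⟩ := gd_exists hf hb hfb hw (hγ0.trans hγ) hγ' hL' ((fo δ).l b8) s0
    (b5.le b8)
  have c4 := RR_rs c1 hδ
  obtain ⟨s2, a, y, c5, c6, ⟨p2, c7, d1, d2, d3, d4, d5⟩, c9⟩ := he2 i _ h' ((fo γ).l c4)
    ⟨p', (fo γ).l c4, (fo δ).tr c1 ((fo δ).tr b8 b4), b5.le ((fo δ).tr c1 b8), c2, c3⟩
  have c10 : RR γ s2 r := (fo γ).tr c5 ((fo γ).tr (b9 ▸ c4) b6)
  obtain ⟨p3, d6, -, d7, d8⟩ := exists_glue hδ ((fo δ).l d1) ((fo γ).tr c6 c7)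
  refine ⟨s2, c10, frc_of_all fun G _ hs => ⟨s2, ⟨(p3, y), d7.symm, ⟨(fo δ).tr d6 d1, d2.le d6, d3,
    d4, Gd.glue hγ hγ' d6 d8 d5⟩, Frc.lift' hδ ((fo δ).l d6) (ms_all fun k => (ms_const _).imp
      (ms_all fun m => (ms_memf (d3.1.mono (PP_mono hγ0)) k m).imp (((ms_const m).le
        ((hb.mono (PP_mono hγ0)).app k)).imp (ms_memf (a2.mono (PP_mono hγ0)) k m))))
      (d7 ▸ (c9.and (a4.le ((fo γ).tr c10 hr))).mono fun G _ _ c k hk m hm => c.2 i k hk m ?_)⟩, hs⟩⟩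
  simp only [e', c.1]
  rwa [if_pos (d3.2 G k)]

end

theorem lp_limit {β0 δ : Lv} (h0 : β0 < δ) (hδ : ∀ β : U0, (β : Lv) < δ → sc β < δ)
    (hL : ∀ γ < δ, β0 ≤ γ → LP β0 γ) : LP β0 δ := by
  intro w1 hw1 f b hf hb hfb p0 hp0
  obtain ⟨w, hw, ew⟩ := exists_slow hw1 (fun m => m + m * ((m + 1) * (m * (m + 1)))) rfl
  choose j0 hj0 using fun i => tendsto_atTop_atTop.1 hw (i + 1)
  let j : ℕ → ℕ := fun i => max i (j0 i)
  obtain ⟨p1, h1, a1, a0, -, a2⟩ := gd_exists hf hb hfb hw le_rfl h0.le (lp_refl β0) hp0 (i0 := 0)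
    (h0 := fun _ _ => ∅) ⟨ms_const _, fun _ _ => Nat.zero_le _⟩
    (frc_of_all fun _ _ _ k hk => absurd hk (Nat.not_lt_zero _))
  let Pv : Sn → Prop := fun v =>
    Ms (PP β0) v ∧ ∀ G k, (v G k).card ≤ (w k + 1) * (w k * (w k + 1))
  let A' : ℕ → Lv × Lv → U0 → Sn × Sn → Set U0 := fun i g p z' =>
    {s | ∃ z : U0 × Sn, s = rs z.1 g.1 ∧ Nx β0 δ f w g.2 p z'.1 (j i) z.1 z.2 ∧
      Frc (RR δ) z.1 fun G => ∀ k, i < w k → ∀ m ∈ z.2 G k, m ≤ b G k → m ∈ z'.2 G k}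
  obtain ⟨N, pel, pr, hc, ⟨b1, b2, b3, b4, b5, -, b7⟩, sp, mt, hp1, hh1, hβ0, he, cp, cp', cp'', c1,
    s1, c2, s2⟩ :=
    (club_pel.and (club_proper.and (club_countable.and (club_basic.and (club_supp.and
    (club_meet2.and ((clo0 p1).and ((clo0 h1).and ((clo0 β0).and
    ((clo0 (fun _ _ => ∅ : Sn)).and ((clo_pair Lv Lv).and ((clo_pair Sn Sn).and
    ((clo_pair U0 Sn).and
    ((clo3' fun (g : Lv × Lv) (p : U0) (h : Sn) =>
      {t | ∃ v, Pv v ∧ ∀ i, Frc (RR g.1) t fun G => ∃ s ∈ A' i g p (h, v), s ∈ G}).and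
    ((sk4 fun (g : Lv × Lv) (p : U0) (h : Sn) (t : U0) (v : Sn) =>
      Pv v ∧ ∀ i, Frc (RR g.1) t fun G => ∃ s ∈ A' i g p (h, v), s ∈ G).and
    ((club_all fun i => clo3' (A' i)).and
    (club_all fun i => sk4 fun (g : Lv × Lv) (p : U0) (z' : Sn × Sn) (s : U0)
      (z : U0 × Sn) => s = rs z.1 g.1 ∧ Nx β0 δ f w g.2 p z'.1 (j i) z.1 z.2 ∧
      Frc (RR δ) z.1 fun G => ∀ k, i < w k → ∀ m ∈ z.2 G k, m ≤ b G k →
        m ∈ z'.2 G k))))))))))))))))).exists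
  obtain ⟨γ, e0, k1, k2, k3⟩ := exists_cof hc (fun β k => b2 _ (b3 β k)) b7 hδ h0 hβ0
  have k0 : ∀ n, β0 ≤ γ n := fun n => e0 ▸ k1 (Nat.zero_le n)
  obtain ⟨u, hu⟩ := exists_enum hc (· ∈ PP δ) (top_mem _) b5
  have hu' := fun i => (hu _).2 ⟨i, rfl⟩
  obtain ⟨i0, rfl⟩ := (hu p1).1 ⟨(fo δ).l a1, hp1⟩
  obtain ⟨ws, hws⟩ := exists_enum hc Pv ⟨ms_const _, fun _ _ => Nat.zero_le _⟩ he
  have hws' := fun n => ((hws _).2 ⟨n, rfl⟩).1
  let g : Sn := fun G k => h1 G k ∪ (Finset.range (w k)).biUnion fun n => ws n G k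
  have sg : Sl β0 w1 g := ⟨ms_pi fun k => measurable_finset_iff.2 fun m => by
      simp only [g, Finset.mem_union, Finset.mem_biUnion]
      exact Measurable.or (ms_memf a0.1 k m) (Measurable.exists fun n =>
        measurable_const.and (ms_memf (hws' n).1 k m)), fun G k => by
    have e1 := Finset.card_biUnion_le_card_mul (Finset.range (w k)) (fun n => ws n G k) _
      fun n _ => (hws' n).2 G k
    have e2 := Finset.card_union_le (h1 G k) ((Finset.range (w k)).biUnion fun n => ws n G k)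
    have e3 := a0.2 G k
    have e4 := ew k
    rw [Finset.card_range] at e1
    simp only [g]
    omega⟩
  obtain ⟨q0, q1, q2⟩ := pr β0 hβ0 _ (PP_rs (hu' i0).1 h0.le) (b4 _ _ hp1 hβ0)
  obtain ⟨q', c3, -, c4⟩ := lim (N := N) k1 (fun n => (k2 n).1.le)
    (fun n p hp => b4 p _ hp (k2 n).2) (fun p hp hN β hβ he => k3 β (sp δ p hp hN β he) hβ)
    (fun n => pel _ (k2 _).2 _ (k1 (Nat.le_succ n)) (k2 n).2) hu'
    (K := fun n => {p | (Frc (RR δ) p fun G => ∀ k < n, f G k ∈ g G k) ∧ ∃ h : Sn, In N h ∧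
      Sl β0 w h ∧ (Frc (RR δ) p fun G => ∀ k, ∀ m ∈ h G k, m ≤ b G k → m ∈ g G k) ∧
      Frc (RR (γ n)) (rs p (γ n)) (Gd δ f (γ n) p h)}) (by
      rintro n i ⟨-, h, d1, d0, d2, d3⟩ G hG hN hp
      have hγ := (cp (γ n) (γ (n + 1))).2 ⟨(k2 _).2, (k2 _).2⟩
      have hR := b1 _ (k2 n).2
      obtain ⟨t, d4, d5, d6⟩ := mt _ _ G _ (fo _) hR (c1 _ _ h hγ (hu' i).2 d1)
        (b4 _ _ (hu' i).2 (k2 n).2) hG hN hp (frc_meet (fo _) fun r hr => by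
          obtain ⟨t, e1, e2⟩ := nx_exists hf hb hfb hw (k0 n) (k1 (Nat.le_succ n))
            (k2 (n + 1)).1.le (hL _ (k2 _).1 (k0 _)) (hL _ (k2 _).1 (k0 _)) j d0 ((fo _).l hr)
            (d3.le hr)
          exact ⟨t, e2, t, e1, (fo _).l e1⟩)
      obtain ⟨v, d7, d9, d8⟩ := s1 _ _ h t hγ (hu' i).2 d1 d6 d4
      obtain ⟨n0, rfl⟩ := (hws v).1 ⟨d9, d7⟩
      have hw := (cp' h _).2 ⟨d1, d7⟩
      obtain ⟨s, e1, e2, e3⟩ := mt _ _ G t (fo _) hR (c2 (max n0 (n + 1)) _ _ _ hγ (hu' i).2 hw) d6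
        hG hN d5 (d8 _)
      obtain ⟨⟨p', h'⟩, e4, rfl, ⟨e5, e6, e0, e7, e8⟩, e9⟩ := s2 _ _ _ _ s hγ (hu' i).2 hw e3 e1
      obtain ⟨i', rfl⟩ := (hu p').1 ⟨(fo _).l e5, ((cp'' _ _).1 e4).1⟩
      refine ⟨i', ⟨(e6.and (d2.le e5)).mono fun G _ _ c k hk => c.2 k _ (c.1 k
        (hk.trans_le ((le_max_right _ _).trans (le_max_left _ _)))) (hfb G k), h',
        ((cp'' _ _).1 e4).2, e0, (e9.and (d2.le e5)).mono fun G _ _ c k m hm hb => ?_, e8⟩, e5, e2⟩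
      rcases lt_or_ge k (j (max n0 (n + 1))) with hk | hk
      · exact c.2 k m ((show h' G k = h G k from e7 G k hk) ▸ hm) hb
      · have := hj0 _ k ((le_max_right _ _).trans hk)
        exact Finset.mem_union_right _ (Finset.mem_biUnion.2 ⟨n0, Finset.mem_range.2
          ((le_max_left _ _).trans_lt this), c.1 k this m hm hb⟩))
    (q0 := q0) (e0 ▸ (fo _).l q1) (e0 ▸ q2) (ι0 := fun _ => i0) (ms_const _)
    (by
      simp only [mem_ofPred_eq, e0]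
      exact (frc_mem q1).mono fun G _ _ hG => ⟨hG,
        frc_of_all fun _ _ _ k hk => absurd hk (Nat.not_lt_zero _), h1, hh1, a0,
        frc_of_all fun _ _ _ k m hm _ => Finset.mem_union_left _ hm, a2⟩)
  obtain ⟨q, c5, c6⟩ := (c4.mono fun _ _ _ k => k.1).compat (fo δ) c3
  refine ⟨q, g, (fo δ).tr c6 a1, sg, Frc.le (frc_all fun n => ?_) c5⟩
  have c8 : Frc (RR δ) q' fun G => ∀ j, (Frc (RR δ) (u j) fun G => ∀ k < n + 1, f G k ∈ g G k) →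
      u j ∈ G → f G n ∈ g G n := frc_all fun j => by
    by_cases h : Frc (RR δ) (u j) fun G => ∀ k < n + 1, f G k ∈ g G k
    · exact Frc.of_ev (Eventually.mono h fun _ k _ k' => k k' n (Nat.lt_succ_self n))
    · exact frc_of_all fun _ _ _ k => (h k).elim
  exact (c4.and c8).mono fun G _ _ k => let ⟨j, j1, j2⟩ := k.1.2 (n + 1); k.2 j j2.1 j1

theorem lp (β0 α : Lv) (h : β0 ≤ α) : LP β0 α := by
  induction α using WellFoundedLT.induction with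
  | ind α ih =>
  rcases h.eq_or_lt with rfl | h
  · exact lp_refl _
  rcases lv_cases α with ⟨β, rfl⟩ | k
  · exact lp_succ (le_of_lt_sc h) (ih _ (lt_sc β) (le_of_lt_sc h))
  · exact lp_limit h k ih

end Pool.Agent.Lib.MP_fecf72_lc.LV
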