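import Pool.Agent.Lib.BDS.Lim

namespace Pool.Agent.Lib.MP_fecf72_lc.LV

open Set Filter

theorem mixM {U : Type 1} {R : U → U → Prop} (hR : Fo R) {ι : Type} [Countable ι] [Nonempty ι]
    [MeasurableSpace ι] [MeasurableSingletonClass ι] (A : U → (Set U → ℕ → ι) → Prop)
    (hA : ∀ a y, A a y → Ms univ y) : ∃ f : Set U → ℕ → ι, Ms {s | R s s} f ∧
      ∀ r x, R r r → A r x → ∃ s a y, R s r ∧ R s a ∧ A a y ∧ Frc R s fun G => f G = y G := by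
  obtain ⟨e, he⟩ := exists_surjective_nat ι
  obtain ⟨B, hB, hB1, hB2⟩ := exists_antichain (R := R) {s | R s s ∧ ∃ x, A s x}
  choose! hB0 c hc using fun b (hb : b ∈ B) => hB hb
  refine ⟨fun G n => e (sInf {m | ∃ s ∈ G, ∃ b ∈ B, R s b ∧ Frc R s fun G => c b G n = e m}),
    ms_pi fun n => ms_cmp e (ms_sInf fun m => ms_open' _ fun s ⟨_, _, h, _⟩ => hR.l h),
    fun r x hr hx => ?_⟩
  obtain ⟨b, hb, s, h1, h2⟩ := hB2 r ⟨hr, x, hx⟩ hr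
  refine ⟨s, b, c b, h1, h2, hc b hb, (frc_all fun n => frc_of_dense hR fun r1 h3 => ?_).mono
    fun _ _ _ k => funext k⟩
  obtain ⟨r2, i, h4, h5⟩ := ((hA _ _ (hc b hb)).app n).dec_val hR (hR.l h3)
  have h6 := hR.tr h4 (hR.tr h3 h2)
  refine ⟨r2, h4, h5.mono fun G hG h7 k => ?_⟩
  obtain ⟨m, rfl⟩ := he i
  obtain ⟨s', a1, b', a2, a3, a4⟩ := Nat.sInf_mem (s := {m | ∃ s ∈ G, ∃ b ∈ B, R s b ∧
    Frc R s fun G => c b G n = e m}) ⟨m, r2, h7, b, hb, h6, h5⟩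
  obtain ⟨t, -, a5, a6⟩ := hG.2 r2 h7 s' a1
  obtain rfl := hB1 b hb b' a2 t (hR.tr a5 h6) (hR.tr a6 a3)
  rw [k]
  exact (((h5.le a5).and (a4.le a6)).mono fun _ _ _ k => k.2.symm.trans k.1).elim hR (hR.l a5)

theorem suf_inj {σ τ : List ℕ} {n m : ℕ} (h : n :: σ <:+ τ) (k : m :: σ <:+ τ) : n = m :=
  List.head_eq_of_cons_eq ((List.suffix_of_suffix_length_le h k le_rfl).eq_of_length rfl)

/-- Amalgamation of conditions above the successors of a node. -/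
def amg (σ : List ℕ) (P : ℕ → Prop) (Z : ℕ → Lc) : Lc :=
  (σ, fun τ k => (τ = σ ∧ P k) ∨ ∃ n, n :: σ <:+ τ ∧ (Z n).2 τ k)

theorem amg_spec {σ : List ℕ} {P : ℕ → Prop} {Z : ℕ → Lc} {x : Lc} (h0 : Ab x σ)
    (h1 : ∀ k, ∃ n, k ≤ n ∧ P n) (h2 : ∀ n, P n → Nrm (Z n) ∧ (Z n).1 = n :: σ ∧ Qle (Z n) x) :
    Nrm (amg σ P Z) ∧ Qle (amg σ P Z) x ∧
      ∀ x', Qle x' (amg σ P Z) → σ.length < x'.1.length → ∃ n, P n ∧ Qle x' (Z n) := by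
  have key : ∀ τ, Ab (amg σ P Z) τ → τ = σ ∨ ∃ n, P n ∧ Ab (Z n) τ := fun τ h =>
    Ab.ind (x := amg σ P Z) (P := fun τ => τ = σ ∨ ∃ n, P n ∧ Ab (Z n) τ) (Or.inl rfl) (by
      rintro τ k - (⟨rfl, a⟩ | ⟨n', a1, a2⟩) b
      · exact Or.inr ⟨k, a, ab_of_eq (h2 k a).2.1⟩
      · rcases b with rfl | ⟨n, b1, b2⟩
        · exact absurd a1.length_le (by simp)
        · obtain rfl := suf_inj a1 ((h2 n b1).2.1 ▸ b2.suf)
          exact Or.inr ⟨_, b1, b2.cons a2⟩) h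
  refine ⟨fun τ h k => ?_, fun τ h => ?_, fun x' h k => ?_⟩
  · rcases key τ h with rfl | ⟨n, b1, b2⟩
    · exact (h1 k).imp fun n a => ⟨a.1, Or.inl ⟨rfl, a.2⟩⟩
    · exact ((h2 n b1).1 τ b2 k).imp fun m a => ⟨a.1, Or.inr ⟨n, (h2 n b1).2.1 ▸ b2.suf, a.2⟩⟩
  · rcases key τ h with rfl | ⟨n, b1, b2⟩
    exacts [h0, (h2 n b1).2.2 τ b2]
  · rcases key _ (h _ (ab_stem x')) with e | ⟨n, b1, b2⟩
    · exact absurd k (by simp [e])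
    refine ⟨n, b1, fun τ a => ?_⟩
    rcases key _ (h _ a) with e | ⟨m, c1, c2⟩
    · exact absurd (k.trans_le a.suf.length_le) (by simp [e])
    · obtain rfl : n = m := suf_inj (((h2 n b1).2.1 ▸ b2.suf).trans a.suf) ((h2 m c1).2.1 ▸ c2.suf)
      exact c2

theorem wt_amg {β p r : U0} {σ : List ℕ} {φ : Set U0 → Prop} (hp : p ∈ PP (sc β))
    (hr : RR β r (rs p β)) (h : Frc (RR β) r fun G => Ab (qv (dec p β) G) σ ∧ ∀ k, ∃ n, k ≤ n ∧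
      ∃ s ∈ G, Wt β p (n :: σ) {d | RR (sc β) d p ∧ Frc (RR (sc β)) d φ} s) :
    Wt β p σ {d | RR (sc β) d p ∧ Frc (RR (sc β)) d φ} r := by
  set D := {d | RR (sc β) d p ∧ Frc (RR (sc β)) d φ} with hD
  choose e he1 he2 using fun n => mixM (fo β) (fun a y => ∃ t ∈ D, RR β a (rs t β) ∧
    (Frc (RR β) a fun G => (qv (dec t β) G).1 = n :: σ) ∧ y = ev (dec t β))
    (by rintro a y ⟨t, -, -, -, rfl⟩; exact ms_ev' _)
  have mZ : ∀ n, Ms (PP β) fun G => dq (e n G) := fun n => (he1 n).comp meas_dq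
  have core : ∀ n r', r' ∈ PP β → (Frc (RR β) r' fun G => ∃ s ∈ G, Wt β p (n :: σ) D s) →
      ∃ s, ∃ t ∈ D, RR β s r' ∧ RR β s (rs t β) ∧ Frc (RR β) s fun G =>
        (qv (dec t β) G).1 = n :: σ ∧ dq (e n G) = qv (dec t β) G := by
    intro n r' a1 a2
    obtain ⟨G, hG, a3, s, a4, t, d, a5, a6, a7, a8⟩ := a2.exists (fo β) a1
    obtain ⟨s1, -, b1, b2⟩ := hG.2 r' a3 s a4
    obtain ⟨s2, a, _, b3, b4, ⟨t', b5, b6, b7, rfl⟩, b8⟩ := he2 n s1 _ ((fo β).l b1)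
      ⟨t, ⟨(fo _).tr a6 a5.1, a5.2.le a6⟩, (fo β).tr b2 a7, (a8.le b2).mono fun _ _ _ k => k.1, rfl⟩
    exact ⟨s2, t', b5, (fo β).tr b3 b1, (fo β).tr b4 b6, ((b7.le b4).and b8).mono
      fun G _ _ k => ⟨k.1, by rw [k.2, qv]⟩⟩
  have h1 : Frc (RR β) r fun G => ∀ n, (∃ s ∈ G, Wt β p (n :: σ) D s) → Nrm (dq (e n G)) ∧
      (dq (e n G)).1 = n :: σ ∧ Qle (dq (e n G)) (qv (dec p β) G) :=
    frc_all fun n => frc_of_dense (fo β) fun r1 a1 => by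
      obtain ⟨r2, a2, a3 | a3⟩ := (ms_wt β p (n :: σ) D).dec (fo β) ((fo β).l a1)
      · obtain ⟨s, t, b1, b2, b3, b4⟩ := core n r2 ((fo β).l a2) a3
        exact ⟨s, (fo β).tr b2 a2, (b4.and (((PP.ok ((fo _).l b1.1) (lt_sc β)).and
          (b1.1.lec (lt_sc β))).le b3)).mono fun G _ _ k _ => k.1.2 ▸ ⟨k.2.1, k.1.1, k.2.2⟩⟩
      · exact ⟨r2, a2, a3.mono fun _ _ _ k k' => (k k').elim⟩
  have h2 := (h.and h1).mono fun G _ _ k => amg_spec k.1.1 k.1.2 k.2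
  obtain ⟨t0, k1, k2, k3⟩ := exists_upd' (lt_sc β) hp hr
    (f := fun G => amg σ (fun n => ∃ s ∈ G, Wt β p (n :: σ) D s) fun n => dq (e n G))
    (Ms.prod (ms_const _) (ms_pi fun τ => ms_pi fun k => ((ms_const _).and (ms_wt _ _ _ _)).or
      (ms_ex fun n => (ms_const _).and (ms_suc (mZ n) τ k)))) (h2.mono fun _ _ _ k => ⟨k.1, k.2.1⟩)
  refine ⟨t0, t0, ⟨k1, frc_of_dense (fo _) fun r1 a1 => ?_⟩, (fo _).l k1,
    by rw [k2]; exact (fo β).l hr,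
    (k3.and h2).mono fun G _ _ k => k.1 ▸ ⟨rfl, k.2.2.1⟩⟩
  obtain ⟨r2, τ, a2, a3, a4⟩ := exists_long ((fo _).l a1) (P := fun L => σ.length < L)
    fun m => ⟨max m (σ.length + 1), le_max_left _ _, le_max_right m (σ.length + 1)⟩
  have a5 := (fo _).tr a2 a1
  have hr2 := (fo _).l a2
  obtain ⟨s1, n, b1, b2⟩ := Frc.ex (S := PP β) (fo β)
    (φ := fun n G => (∃ s ∈ G, Wt β p (n :: σ) D s) ∧ Qle (qv (dec r2 β) G) (dq (e n G)))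
    (((a4.and (a5.lec (lt_sc β))).and ((k3.and h2).le (k2 ▸ RR_rs a5 (lt_sc β).le))).mono
      fun G _ _ k => k.2.2.2.2 _ (k.2.1 ▸ k.1.2) (k.1.1 ▸ a3))
    (fun n => (ms_wt _ _ _ _).and (ms_qle (ms_qv (PP.sup hr2 (lt_sc β))) (mZ n)))
    (PP_rs hr2 (lt_sc β).le)
  obtain ⟨s, t, b3, b4, b5, b6⟩ := core n s1 ((fo β).l b1) (b2.mono fun _ _ _ k => k.1)
  obtain ⟨r3, c1, -, c2, c3⟩ := exists_glue (lt_sc β).le hr2 ((fo β).tr b4 b1)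
  refine ⟨r3, (fo _).tr c1 a2, b3.2.le (RR_succ ((fo _).l c1) ((fo _).l b3.1) (c2 ▸ b5) ?_)⟩
  rw [c2, c3 β (lt_irrefl _)]
  exact ((b2.le b4).and b6).mono fun _ _ _ k => k.2.2 ▸ k.1.2

theorem pigeon {P : ℕ → ℕ → Prop} {b : ℕ} (h : ∀ k, ∃ n, k ≤ n ∧ ∃ m, m ≤ b ∧ P n m) :
    ∃ m, m ≤ b ∧ ∀ k, ∃ n, k ≤ n ∧ P n m := by
  by_contra hc
  simp only [not_exists, not_and, not_forall] at hc
  choose! k hk using hc
  obtain ⟨n, h1, m, h2, h3⟩ := h (rmx k b)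
  exact hk m h2 n ((le_rmx k h2).trans h1) h3

theorem pd_dec {β : U0} {f b : Set U0 → ℕ} (hf : Ms univ f) (hb : Ms (PP β) b)
    (h : ∀ G, f G ≤ b G) : PD β {d | ∃ m, Frc (RR (sc β)) d fun G => f G = m} := by
  intro p0 hp0 σ0 h0
  obtain ⟨s0, b0, e1, e2⟩ := hb.dec_val (fo β) (PP_rs hp0 (lt_sc β).le)
  obtain ⟨p, e3, -, e4, e5⟩ := exists_glue (lt_sc β).le hp0 e1
  have hp := (fo _).l e3
  have e6 : Frc (RR (sc β)) p fun G => f G ≤ b0 :=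
    (Frc.lift' (lt_sc β).le hp (ms_cmp (· = b0) hb) (e4 ▸ e2)).mono fun G _ _ k => k ▸ h G
  have e7 : Frc (RR β) (rs p β) fun G => (qv (dec p β) G).1 = σ0 := by
    rw [e4, e5 β (lt_irrefl _)]; exact h0.le e1
  by_contra hc
  let D : ℕ → Set U0 := fun m => {d | RR (sc β) d p ∧ Frc (RR (sc β)) d fun G => f G = m}
  let gd : List ℕ → Set U0 → Prop := fun σ G => ∃ m, m ≤ b0 ∧ ∃ s ∈ G, Wt β p σ (D m) s
  have mg : ∀ σ, Ms (PP β) (gd σ) := fun σ => ms_ex fun m => (ms_const _).and (ms_wt _ _ _ _)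
  have mp := ms_qv (PP.sup hp (lt_sc β))
  have hA : ∀ G, ¬ gd σ0 G := by
    rintro G ⟨m, -, s, -, t, d, a1, a2, a3, a4⟩
    obtain ⟨t', b1, -, b2, b3⟩ := exists_glue (lt_sc β).le ((fo _).l a2) a3
    refine hc ⟨t', d, ⟨m, a1.2⟩, (fo _).tr b1 a2,
      (fo _).tr b1 ((fo _).tr a2 ((fo _).tr a1.1 e3)), ?_⟩
    rw [b2, b3 β (lt_irrefl _)]
    exact a4.mono fun _ _ _ k => k.1
  have hC : Frc (RR β) (rs p β) fun G => ∀ σ, Ab (qv (dec p β) G) σ → ¬ gd σ G →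
      ∀ k, ∃ n, k ≤ n ∧ (qv (dec p β) G).2 σ n ∧ ¬ gd (n :: σ) G := frc_all fun σ => by
    by_contra a0
    obtain ⟨r, a1, a2⟩ := Ms.of_not_frc (fo β) (S := PP β) ((ms_ab mp σ).imp ((mg σ).not.imp
      (ms_all fun k => ms_ex fun n => (ms_const _).and ((ms_suc mp σ n).and (mg _).not)))) a0
    have a3 : Frc (RR β) r fun G => (Ab (qv (dec p β) G) σ ∧ ¬ gd σ G) ∧ ∃ m, m ≤ b0 ∧
        ∀ k, ∃ n, k ≤ n ∧ ∃ s ∈ G, Wt β p (n :: σ) (D m) s :=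
      (a2.and ((PP.ok hp (lt_sc β)).le a1)).mono fun G _ _ k => by
        have c := k.1
        simp only [Classical.not_imp, not_forall, not_exists, not_and, not_not] at c
        obtain ⟨c1, c2, k0, c3⟩ := c
        refine ⟨⟨c1, c2⟩, pigeon fun j => ?_⟩
        obtain ⟨n, c4, c5⟩ := k.2 σ c1 (max j k0)
        exact ⟨n, (le_max_left _ _).trans c4, c3 n ((le_max_right _ _).trans c4) c5⟩
    obtain ⟨r', m, a4, a5⟩ := Frc.ex (S := PP β) (fo β) (a3.mono fun _ _ _ k => k.2)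
      (fun m => (ms_const _).and (ms_all fun k => ms_ex fun n => (ms_const _).and (ms_wt _ _ _ _)))
      ((fo β).l a1)
    have a6 := wt_amg hp ((fo β).tr a4 a1) (((a3.le a4).and a5).mono fun _ _ _ k => ⟨k.1.1.1, k.2.2⟩)
    exact (((a3.le a4).and a5).mono fun G _ hG k => k.1.1.2 ⟨m, k.2.1, r', hG, a6⟩).elim (fo β)
      ((fo β).l a4)
  have hZ : Frc (RR β) (rs p β) fun G => ∀ τ, Ab (σ0, fun σ n => (qv (dec p β) G).2 σ n ∧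
      ¬ gd (n :: σ) G) τ → Ab (qv (dec p β) G) τ ∧ ¬ gd τ G := e7.mono fun G _ _ k τ a =>
    Ab.ind (P := fun τ => Ab (qv (dec p β) G) τ ∧ ¬ gd τ G) (by exact ⟨ab_of_eq k, hA G⟩)
      (by exact fun τ n _ b c => ⟨c.1.cons b.1, b.2⟩) a
  obtain ⟨t1, k1, k2, k3⟩ := exists_upd' (lt_sc β) hp (PP_rs hp (lt_sc β).le)
    (f := fun G => (σ0, fun σ n => (qv (dec p β) G).2 σ n ∧ ¬ gd (n :: σ) G))
    (Ms.prod (ms_const _) (ms_pi fun σ => ms_pi fun n => (ms_suc mp σ n).and (mg _).not))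
    ((hZ.and hC).mono fun G _ _ k =>
      ⟨fun τ a => k.2 τ (k.1 τ a).1 (k.1 τ a).2, fun τ a => (k.1 τ a).1⟩)
  obtain ⟨d, m, k4, k5⟩ := hf.dec_val (fo _) ((fo _).l k1)
  obtain ⟨r2, τ, k6, -, k7⟩ := exists_long ((fo _).l k4) (P := fun _ => True)
    fun m => ⟨m, le_rfl, trivial⟩
  have k8 := (fo _).tr k6 k4
  have k9 := (fo _).tr k8 k1
  have k10 : m ≤ b0 := (((k5.le k6).and (e6.le k9)).mono fun _ _ _ k => k.1 ▸ k.2).elim (fo _)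
    ((fo _).l k6)
  have k11 := RR_rs k9 (lt_sc β).le
  exact (((k7.and (k8.lec (lt_sc β))).and ((k3.and hZ).le k11)).mono fun G _ hG k =>
    (k.2.2 τ (k.2.1 ▸ k.1.2 τ (ab_of_eq k.1.1))).2 ⟨m, k10, _, hG, r2, r2, ⟨k9, k5.le k6⟩,
      (fo _).l k6, (fo β).l k11, k7.and (k9.lec (lt_sc β))⟩).elim (fo β) ((fo β).l k11)

end Pool.Agent.Lib.MP_fecf72_lc.LV
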