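import Pool.Agent.Lib.BDS.Iter

namespace Pool.Agent.Lib.MP_fecf72_lc.LV

open Set Filter

/-- Indices attached to the nodes of a tree. -/
def tix (s : List ℕ) (i0 : ℕ) (nx : ℕ → List ℕ → ℕ) : List ℕ → ℕ
  | [] => i0
  | n :: τ => if τ.length < s.length then i0 else nx (tix s i0 nx τ) (n :: τ)

theorem tix_self (s : List ℕ) (i0 : ℕ) (nx : ℕ → List ℕ → ℕ) : tix s i0 nx s = i0 := by
  cases s
  exacts [rfl, if_pos (Nat.lt_succ_self _)]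

theorem meas_tix {α : Type*} [MeasurableSpace α] {s : α → List ℕ} {i0 : α → ℕ}
    {nx : α → ℕ → List ℕ → ℕ} (hs : Measurable s) (h0 : Measurable i0) (hn : Measurable nx) :
    ∀ τ, Measurable fun a => tix (s a) (i0 a) (nx a) τ
  | [] => h0
  | _ :: τ => Measurable.ite (measurableSet_setOfPred.2
      (meas_cmp (fun l : List ℕ => τ.length < l.length) hs)) h0
      (meas_app hn (meas_tix hs h0 hn τ)).eval

theorem exists_tree {α : Type*} [MeasurableSpace α] {X : α → ℕ → Lc} (hX : Measurable X)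
    {W : α → ℕ → Prop} (hW : Measurable W) {Q : α → ℕ → List ℕ → ℕ → Prop}
    (hQ : ∀ i σ j, Measurable fun a => Q a i σ j) {ι : α → ℕ} (hι : Measurable ι) :
    ∃ (y : α → Lc) (idx : α → List ℕ → ℕ), Measurable y ∧ Measurable idx ∧ ∀ a, W a (ι a) →
      (∀ i, W a i → Nrm (X a i)) → (∀ i σ, W a i → Ab (X a i) σ →
        ∃ j, W a j ∧ (X a j).1 = σ ∧ Qle (X a j) (X a i) ∧ Q a i σ j) →
      Nrm (y a) ∧ (y a).1 = (X a (ι a)).1 ∧ Qle (y a) (X a (ι a)) ∧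
      (∀ τ, Ab (y a) τ → W a (idx a τ) ∧ Qle (rst (y a) τ) (X a (idx a τ))) ∧
      ∀ τ n, Ab (y a) τ → (y a).2 τ n → Q a (idx a τ) (n :: τ) (idx a (n :: τ)) := by
  let nx : α → ℕ → List ℕ → ℕ := fun a i σ =>
    sInf {j | W a j ∧ (X a j).1 = σ ∧ Qle (X a j) (X a i) ∧ Q a i σ j}
  let idx : α → List ℕ → ℕ := fun a => tix (X a (ι a)).1 (ι a) (nx a)
  have m1 : Measurable nx := measurable_pi_lambda _ fun i => measurable_pi_lambda _ fun σ =>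
    meas_sInf fun j => hW.eval.and ((meas_eq_ctbl hX.eval.fst measurable_const).and
      ((meas_qle hX.eval hX.eval).and (hQ i σ j)))
  have m2 : Measurable idx := measurable_pi_lambda _ (meas_tix (meas_app hX hι).fst hι m1)
  refine ⟨fun a => ((X a (ι a)).1, fun τ n => (X a (idx a τ)).2 τ n), idx,
    (meas_app hX hι).fst.prodMk (measurable_pi_lambda _ fun τ => measurable_pi_lambda _ fun n =>
      (meas_app hX m2.eval).snd.eval.eval), m2, fun a h0 h1 h2 => ?_⟩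
  have e0 : idx a (X a (ι a)).1 = ι a := tix_self _ _ _
  have key : ∀ τ n, W a (idx a τ) ∧ (X a (idx a τ)).1 = τ → (X a (ι a)).1.length ≤ τ.length →
      (X a (idx a τ)).2 τ n → W a (idx a (n :: τ)) ∧ (X a (idx a (n :: τ))).1 = n :: τ ∧
        Qle (X a (idx a (n :: τ))) (X a (idx a τ)) ∧ Q a (idx a τ) (n :: τ) (idx a (n :: τ)) := by
    intro τ n k1 k2 k3
    have : idx a (n :: τ) = nx a (idx a τ) (n :: τ) := if_neg (not_lt.2 k2)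
    rw [this]
    exact Nat.sInf_mem (h2 _ _ k1.1 ((ab_of_eq k1.2).cons k3))
  have h3 := fus (s := (X a (ι a)).1) (c := fun τ => X a (idx a τ))
    (B := fun τ n => (X a (idx a τ)).2 τ n) (I := fun τ => W a (idx a τ) ∧ (X a (idx a τ)).1 = τ)
    (by rw [e0]; exact ⟨h0, rfl⟩) (fun _ h => h.2) fun τ n k1 k2 k3 =>
      let h := key τ n k1 k2 k3; ⟨⟨h.1, h.2.1⟩, h.2.2.1⟩
  refine ⟨fun τ h => h1 _ (h3 τ h).1.1 τ (ab_of_eq (h3 τ h).1.2), rfl, ?_,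
    fun τ h => ⟨(h3 τ h).1.1, (h3 τ h).2⟩, fun τ n h k =>
      (key τ n (h3 τ h).1 h.suf.length_le k).2.2.2⟩
  have := (h3 _ (ab_stem _)).2
  rwa [e0] at this

/-- The condition `s` sees an extension of `p` with stem `σ` below a member of `D`. -/
def Wt (β p : U0) (σ : List ℕ) (D : Set U0) (s : U0) : Prop :=
  ∃ t d, d ∈ D ∧ RR (sc β) t d ∧ RR β s (rs t β) ∧
    Frc (RR β) s fun G => (qv (dec t β) G).1 = σ ∧ Qle (qv (dec t β) G) (qv (dec p β) G)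

/-- Purely dense sets. -/
def PD (β : U0) (D : Set U0) : Prop :=
  ∀ p ∈ PP (sc β), ∀ σ, (Frc (RR β) (rs p β) fun G => (qv (dec p β) G).1 = σ) →
    ∃ t d, d ∈ D ∧ RR (sc β) t d ∧ RR (sc β) t p ∧
      Frc (RR β) (rs t β) fun G => (qv (dec t β) G).1 = σ

theorem pd_univ (β : U0) : PD β univ := fun p hp _ h => ⟨p, p, trivial, hp, hp, h⟩

theorem ms_wt (β p : U0) (σ : List ℕ) (D : Set U0) : Ms (PP β) fun G => ∃ s ∈ G, Wt β p σ D s :=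
  ms_open' _ fun _ ⟨_, _, h⟩ => (fo β).l h.2.2.1

theorem PD.frc {β p : U0} {D : Set U0} (h : PD β D) (hp : p ∈ PP (sc β)) (σ : List ℕ) :
    Frc (RR β) (rs p β) fun G => Ab (qv (dec p β) G) σ → ∃ s ∈ G, Wt β p σ D s := by
  refine frc_of_dense (fo β) fun r hr => ?_
  obtain ⟨r1, h1, h2 | h2⟩ := Ms.dec (S := PP β) (fo β)
    (ms_ab (ms_qv (PP.sup hp (lt_sc β))) σ) ((fo β).l hr)
  · obtain ⟨t1, h3, h4, h5⟩ := exists_rst (lt_sc β) hp ((fo β).tr h1 hr) h2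
    obtain ⟨t, d, h6, h7, h8, h9⟩ := h t1 ((fo _).l h3) σ
      (h4 ▸ h5.mono fun G _ _ k => by rw [k]; rfl)
    have h10 := RR_rs h8 (lt_sc β).le
    exact ⟨rs t β, (fo β).tr (h4 ▸ h10) h1, frc_of_all fun G _ hG _ => ⟨_, hG, t, d, h6, h7,
      (fo β).l h10, h9.and (((fo _).tr h8 h3).lec (lt_sc β))⟩⟩
  · exact ⟨r1, h1, h2.mono fun _ _ _ k k' => (k k').elim⟩

theorem club_sh : ∀ᶠ N in Club, ∀ β : U0, In N β → ∀ u : ℕ → U0,
    (∀ p, p ∈ PP (sc β) ∧ In N p ↔ p ∈ range u) → ∀ G, IsF (RR β) G → GenN N (RR β) G →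
      (∀ i, rs (u i) β ∈ G → Nrm (qv (dec (u i) β) G)) ∧
      (∀ i σ (D : Set U0), In N D → (∃ s ∈ G, Wt β (u i) σ D s) → ∃ j, rs (u j) β ∈ G ∧
        (qv (dec (u j) β) G).1 = σ ∧ Qle (qv (dec (u j) β) G) (qv (dec (u i) β) G) ∧
          ∃ k, u k ∈ D ∧ RR (sc β) (u j) (u k)) ∧
      ∀ i σ (D : Set U0), In N D → PD β D → rs (u i) β ∈ G → Ab (qv (dec (u i) β) G) σ →
        ∃ s ∈ G, Wt β (u i) σ D s := by
  filter_upwards [club_basic, club_reflect, club_meet',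
    clo2 fun (β p : U0) (G : Set U0) => Nrm (qv (dec p β) G),
    club_all fun σ => clo3' fun (β p : U0) (D : Set U0) => {s | Wt β p σ D s},
    club_all fun σ => sk4 fun (β p : U0) (D : Set U0) (s : U0) (z : U0 × U0) =>
      z.2 ∈ D ∧ RR (sc β) z.1 z.2 ∧ RR β s (rs z.1 β) ∧ Frc (RR β) s fun G =>
        (qv (dec z.1 β) G).1 = σ ∧ Qle (qv (dec z.1 β) G) (qv (dec p β) G),
    club_all fun σ => clo3' fun (β p t : U0) (G : Set U0) =>
      (qv (dec t β) G).1 = σ ∧ Qle (qv (dec t β) G) (qv (dec p β) G),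
    club_all fun σ => clo3' fun (β p : U0) (D : Set U0) (G : Set U0) =>
      Ab (qv (dec p β) G) σ → ∃ s ∈ G, Wt β p σ D s, clo_pair U0 U0]
    with N ⟨b1, b2, _, b4, _⟩ rf mt c1 c2 s1 c3 c4 cp β hβ u hu G hG hN
  have hR := b1 _ (b2 β hβ)
  have hu' := fun i => (hu (u i)).2 ⟨i, rfl⟩
  have hrs := fun p hp => b4 p β hp (b2 β hβ)
  refine ⟨fun i hi => rf _ _ _ G hR (hrs _ (hu' i).2) (c1 β _ hβ (hu' i).2)
    (PP.ok (hu' i).1 (lt_sc β)) hG hN hi, fun i σ D hD ⟨s, h1, h2⟩ => ?_, fun i σ D hD h hi =>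
      rf _ _ _ G hR (hrs _ (hu' i).2) (c4 σ β _ D hβ (hu' i).2 hD) (h.frc (hu' i).1 σ) hG hN hi⟩
  obtain ⟨s', h3, h4, h5⟩ := mt _ _ G (fo β) hR (c2 σ β _ D hβ (hu' i).2 hD) hG hN ⟨s, h2, h1⟩
  obtain ⟨⟨t, d⟩, h6, k1, k2, k3, k4⟩ := s1 σ β _ D s' hβ (hu' i).2 hD h5
    (let ⟨t, d, h⟩ := h3; ⟨(t, d), h⟩)
  obtain ⟨h7, h8⟩ := (cp t d).1 h6
  obtain ⟨j, rfl⟩ := (hu t).1 ⟨(fo _).l k2, h7⟩
  obtain ⟨k, rfl⟩ := (hu d).1 ⟨(fo _).r k2, h8⟩
  have := rf _ _ _ G hR h5 (c3 σ β _ _ hβ (hu' i).2 h7) k4 hG hN h4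
  exact ⟨j, hG.1 _ h4 _ k3, this.1, this.2, k, k1, k2⟩

theorem ms_X {β : U0} {u : ℕ → U0} (hu : ∀ i, u i ∈ PP (sc β)) :
    Ms (PP β) fun G i => qv (dec (u i) β) G := ms_pi fun i => ms_qv (PP.sup (hu i) (lt_sc β))

theorem ms_W {β : U0} {u : ℕ → U0} (hu : ∀ i, u i ∈ PP (sc β)) :
    Ms (PP β) fun G i => rs (u i) β ∈ G := ms_pi fun i => ms_mem (PP_rs (hu i) (lt_sc β).le)

theorem exists_new {β q : U0} (hq : q ∈ PP β) {y : Set U0 → Lc} (hy : Ms (PP β) y)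
    (h : Frc (RR β) q fun G => Nrm (y G)) :
    ∃ t ∈ PP (sc β), rs t β = q ∧ Frc (RR β) q fun G => qv (dec t β) G = y G := by
  obtain ⟨t, h1, h2⟩ := exists_upd' (lt_sc β) (PP_mono (lt_sc β).le hq) (s := q)
    ((rs_self hq le_rfl).symm ▸ hq) hy (h.mono fun G _ _ k => ⟨k, fun σ _ => by
      rw [PP.empty hq (lt_irrefl _), qv_empty]; exact ab_top σ⟩)
  exact ⟨t, (fo _).l h1, h2⟩

/-- The properness extension property between two levels. -/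
def PEL (N : Set Wd) (γ α : Lv) : Prop :=
  ∀ q ∈ PP γ, Frc (RR γ) q (GenN N (RR γ)) → ∀ (u : ℕ → U0) (ι : Set U0 → ℕ),
    (∀ i, u i ∈ PP α ∧ In N (u i)) → Ms (PP γ) ι → (Frc (RR γ) q fun G => rs (u (ι G)) γ ∈ G) →
      ∃ q' ∈ PP α, rs q' γ = q ∧ Frc (RR α) q' fun G => GenN N (RR α) G ∧ u (ι G) ∈ G

theorem club_pel_succ : ∀ᶠ N in Club, ∀ β : U0, In N β → PEL N β (sc β) := by
  filter_upwards [club_sh, club_countable, club_basic, clo0 (univ : Set U0)]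
    with N sh hc ⟨_, _, _, _, b5, _⟩ hU β hβ q hq h1 u0 ι0 h2 h3 h4
  obtain ⟨u, hu⟩ := exists_enum hc (· ∈ PP (sc β)) (top_mem _) b5
  obtain ⟨D, hD⟩ := exists_enum hc (Dn (RR (sc β))) (dn_univ _) hU
  choose ix hix using fun i => (hu (u0 i)).1 (h2 i)
  have hu' := fun i => (hu (u i)).2 ⟨i, rfl⟩
  have hu1 := fun i => (hu' i).1
  have mι : Ms (PP β) fun G => ix (ι0 G) := h3.comp (measurable_of_countable ix)
  obtain ⟨y, idx, my, mi, H⟩ := exists_tree (α := Fl (PP β)) (ms_X hu1) (ms_W hu1)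
    (Q := fun G i σ j => (∃ s ∈ G.g, Wt β (u i) σ (D σ.length.unpair.1) s) →
      ∃ k, u k ∈ D σ.length.unpair.1 ∧ RR (sc β) (u j) (u k))
    (fun i σ j => (ms_wt _ _ _ _).imp (ms_const _)) mι
  have H' := (h1.and h4).mono fun G hG _ k => H ⟨G⟩ (by simpa only [hix] using k.2)
    (sh β hβ u hu G hG k.1).1 fun i σ a1 a2 => by
      obtain ⟨-, b1, b2⟩ := sh β hβ u hu G hG k.1
      by_cases a3 : ∃ s ∈ G, Wt β (u i) σ (D σ.length.unpair.1) s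
      · obtain ⟨j, c1, c2, c3, c4⟩ := b1 i σ _ ((hD _).2 ⟨_, rfl⟩).2 a3
        exact ⟨j, c1, c2, c3, fun _ => c4⟩
      · obtain ⟨j, c1, c2, c3, -⟩ := b1 i σ _ hU (b2 i σ _ hU (pd_univ β) a1 a2)
        exact ⟨j, c1, c2, c3, fun k => (a3 k).elim⟩
  obtain ⟨t, ht, k1, k2⟩ := exists_new hq (y := fun G => y ⟨G⟩) my (H'.mono fun _ _ _ k => k.1)
  refine ⟨t, ht, k1, Frc.and ((frc_genN_iff (fo _) hc).2 fun E e1 e2 r hr => ?_)
    (frc_of_dense (fo _) fun r hr => ?_)⟩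
  · obtain ⟨j, rfl⟩ := (hD E).1 ⟨e2, e1⟩
    have a0 : RR β (rs r β) q := k1 ▸ RR_rs hr (lt_sc β).le
    obtain ⟨s, s0, a1, a2⟩ := Ms.dec_val (S := PP β) (f := fun G => (y ⟨G⟩).1) (fo β) my.fst
      ((fo β).l a0)
    obtain ⟨r1, a3, -, a4, -⟩ := exists_glue (lt_sc β).le ((fo _).l hr) a1
    obtain ⟨d, a5, a6⟩ := e2 r1 ((fo _).l a3)
    obtain ⟨r2, σ, a7, ⟨a8, a9⟩, a10⟩ := exists_long ((fo _).l a6)
      (P := fun L => s0.length < L ∧ L.unpair.1 = j) fun m =>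
        ⟨Nat.pair j (max m (s0.length + 1)), (le_max_left _ _).trans (Nat.right_le_pair _ _),
          (le_max_right _ _).trans (Nat.right_le_pair _ _), by simp⟩
    obtain ⟨n, τ, rfl⟩ : ∃ n τ, σ = n :: τ := List.exists_cons_of_length_pos (by omega)
    have b1 := (fo _).tr a7 ((fo _).tr a6 a3)
    have b2 : RR β (rs r2 β) s := a4 ▸ RR_rs ((fo _).tr a7 a6) (lt_sc β).le
    have b3 := (fo β).tr b2 ((fo β).tr a1 a0)
    have hr2 := (fo _).l a7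
    have b4 : Frc (RR β) (rs r2 β) fun G => Qle (qv (dec r2 β) G) (y ⟨G⟩) :=
      ((((fo _).tr b1 hr).lec (lt_sc β)).and (k2.le b3)).mono fun G _ _ k => k.2 ▸ k.1
    have b5 : ∀ i, Frc (RR β) (rs r2 β) fun G => Qle (qv (dec r2 β) G) (qv (dec (u i) β) G) →
        ∃ s ∈ G, Wt β (u i) (n :: τ) (D j) s := fun i => frc_of_dense (fo β) fun s1 c1 => by
      obtain ⟨s2, c2, c3 | c3⟩ := Ms.dec (S := PP β) (fo β) (ms_qle
        (ms_qv (PP.sup hr2 (lt_sc β))) (ms_qv (PP.sup (hu1 i) (lt_sc β)))) ((fo β).l c1)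
      · exact ⟨s2, c2, frc_of_all fun G _ hG _ => ⟨s2, hG, r2, d, a5, a7, (fo β).tr c2 c1,
          (a10.le ((fo β).tr c2 c1)).and c3⟩⟩
      · exact ⟨s2, c2, c3.mono fun _ _ _ k k' => (k k').elim⟩
    obtain ⟨r3, i, c1, c2, c3⟩ := get_below hr2 hu1
      (P := fun i _ => ∃ k, u k ∈ D j ∧ RR (sc β) (u i) (u k)) (fun _ => ms_const _)
      ((((b4.and (frc_all b5)).and (a10.and (a2.le b2))).and (H'.le b3)).mono
        fun G _ _ ⟨⟨⟨d1, d2⟩, d3, d4⟩, _, _, _, d5, d6⟩ => by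
          have e1 : Ab (y ⟨G⟩) (n :: τ) := d1 _ (ab_of_eq d3)
          have e0 : (y ⟨G⟩).1.length ≤ τ.length := by rw [d4]; exact Nat.lt_succ_iff.1 a8
          have e2 := e1.of_cons e0
          have e3 := d6 τ n e2.1 e2.2
          rw [a9] at e3
          exact ⟨_, e3 (d2 _ ((d1.rst (d3 ▸ List.suffix_cons n τ) e0).trans (d5 τ e2.1).2)),
            (d5 _ e1).1, (d1.rst' d3).trans (d5 _ e1).2⟩)
    obtain ⟨k, c4, c5⟩ := c3.elim (fo β) (PP_rs ((fo _).l c1) (lt_sc β).le)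
    exact ⟨u k, c4, (hu' k).2, r3, (fo _).tr c1 b1, (fo _).tr c2 c5⟩
  · have a0 : RR β (rs r β) q := k1 ▸ RR_rs hr (lt_sc β).le
    obtain ⟨r2, i, c1, c2, c3⟩ := get_below ((fo _).l hr) hu1
      (P := fun i G => ix (ι0 G) = i) (fun i => ms_cmp (· = i) mι)
      (((hr.lec (lt_sc β)).and (((k2.and H').and h4).le a0)).mono fun G _ _ k =>
        ⟨_, rfl, hix _ ▸ k.2.2, k.1.trans (k.2.1.1 ▸ k.2.1.2.2.2.1)⟩)
    exact ⟨r2, c1, ((frc_mem c2).and (Frc.lift' (lt_sc β).le ((fo _).l c1)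
      (ms_cmp (· = i) mι) c3)).mono fun G _ _ k => by
        rw [← hix, k.2]; exact k.1⟩

end Pool.Agent.Lib.MP_fecf72_lc.LV
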