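import Pool.Agent.Lib.BDS.Pres

namespace Pool.Agent.Lib.MP_fecf72_lc.LV

open Set Filter

/-- End point of the interval attached to a node. -/
def kk (τ : List ℕ) : ℕ := (τ.map (· + 1)).sum

/-- End points of the intervals attached to a sequence. -/
def Kf (a : ℕ → ℕ) (l : ℕ) : ℕ := ∑ i ∈ Finset.range l, (a i + 1)

/-- Number of elements up to `e`. -/
def cnt (c : Cs) (e : ℕ) : ℕ := Nat.count (fun j => c j = true) (e + 1)

theorem kf_eq {a : ℕ → ℕ} {τ : List ℕ} (h : ∀ n σ, n :: σ <:+ τ → a σ.length = n) :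
    ∀ σ, σ <:+ τ → Kf a σ.length = kk σ
  | [], _ => rfl
  | n :: σ, k => by
    have := kf_eq h σ ((List.suffix_cons n σ).trans k)
    simp only [Kf, kk, List.length_cons, Finset.sum_range_succ, List.map_cons, List.sum_cons,
      h n σ k] at this ⊢
    omega

theorem meas_kf (l : ℕ) : Measurable fun a => Kf a l :=
  Finset.measurable_sum _ fun i _ => meas_cmp (· + 1) (measurable_pi_apply i)

theorem meas_cnt (e : ℕ) : Measurable fun c => cnt c e := by
  unfold cnt
  induction e + 1 with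
  | zero => exact measurable_const
  | succ k ih =>
    simp only [Nat.count_succ]
    exact meas_cmp (fun z : ℕ × Bool => z.1 + if z.2 = true then 1 else 0)
      (ih.prodMk (measurable_pi_apply k))

theorem cnt_res {c : Cs} (h : ∀ m, ∃ j, m ≤ j ∧ c j = true) {n r : ℕ} (hr : r ≤ n) (m : ℕ) :
    ∃ j, m ≤ j ∧ c j = true ∧ cnt c j % (n + 1) = r := by
  have hi : {j | c j = true}.Infinite := infinite_of_not_bddAbove fun ⟨b, hb⟩ =>
    let ⟨j, h1, h2⟩ := h (b + 1); absurd (h1.trans (hb h2)) (Nat.not_succ_le_self b)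
  refine ⟨Nat.nth (fun j => c j = true) (r + (n + 1) * m + n),
    le_trans (show m ≤ r + (n + 1) * m + n by nlinarith) ((Nat.nth_strictMono hi).id_le _), Nat.nth_mem_of_infinite hi _, ?_⟩
  rw [cnt, Nat.count_nth_succ_of_infinite hi, show r + (n + 1) * m + n + 1 = r + (n + 1) * (m + 1)
    by ring, Nat.add_mul_mod_self_left, Nat.mod_eq_of_lt (Nat.lt_succ_of_le hr)]

theorem cnt_eq {c : Cs} {j e : ℕ} (h : j ≤ e) (k : ∀ i, j < i → i ≤ e → ¬ c i = true) :
    cnt c e = cnt c j := by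
  induction h with
  | refl => rfl
  | @step e h ih =>
    rw [cnt, Nat.count_succ, if_neg (k _ (Nat.lt_succ_of_le h) le_rfl)]
    exact ih fun i a b => k i a (Nat.le_succ_of_le b)

theorem exists_gap (R : ℕ) : ∀ {P : ℕ → Prop} (_ : ∀ m, ∃ n, m ≤ n ∧ P n) {s : ℕ → Finset ℕ}
    (_ : ∀ n, P n → (s n).card ≤ R), ∃ c, ∀ y, ∃ m, y ≤ m ∧ P m ∧ ∀ e ∈ s m, e < c ∨ y ≤ e := by
  induction R with
  | zero =>
    refine fun hP s hs => ⟨0, fun y => (hP y).imp fun m h => ⟨h.1, h.2, fun e he => ?_⟩⟩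
    simp [Finset.card_eq_zero.1 (Nat.le_zero.1 (hs m h.2))] at he
  | succ R ih =>
    intro P hP s hs
    by_contra hc
    have := not_exists.1 hc 0
    simp only [not_forall, not_exists, not_and, not_or, not_le] at this
    obtain ⟨y0, h0⟩ := this
    obtain ⟨c, h1⟩ := ih (P := fun n => P n ∧ y0 ≤ n) (fun m =>
      let ⟨n, a1, a2⟩ := hP (max m y0)
      ⟨n, (le_max_left _ _).trans a1, a2, (le_max_right _ _).trans a1⟩)
      (s := fun n => (s n).filter (y0 ≤ ·)) fun n hn => by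
        obtain ⟨e, a1, -, a2⟩ := h0 n hn.2 hn.1
        exact Nat.lt_succ_iff.1 ((Finset.card_lt_card (Finset.filter_ssubset.2
          ⟨e, a1, not_le.2 a2⟩)).trans_le (hs n hn.1))
    refine hc ⟨max c y0, fun y => (h1 y).imp fun m h => ⟨h.1, h.2.1.1, fun e he => ?_⟩⟩
    rcases lt_or_ge e y0 with a | a
    · exact Or.inl (lt_max_of_lt_right a)
    · exact (h.2.2 e (Finset.mem_filter.2 ⟨he, a⟩)).imp_left lt_max_of_lt_left

theorem exists_thin {α : Type*} [MeasurableSpace α] {y : α → Lc} (hy : Measurable y)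
    {lab : α → List ℕ → Finset ℕ} (hl : Measurable lab) {R : List ℕ → ℕ}
    (hR : ∀ a τ m, (lab a (m :: τ)).card ≤ R τ) :
    ∃ c : α → Cs, Measurable c ∧ ∀ n r, r ≤ n → ∃ z : α → Lc, Measurable z ∧ ∀ a, Nrm (y a) →
      Nrm (z a) ∧ (z a).1 = (y a).1 ∧ Qle (z a) (y a) ∧ ∀ σ m, Ab (z a) (m :: σ) →
        (y a).1.length < σ.length → ∀ e1 e e2, kk σ ≤ e1 → e1 ≤ e → e ≤ e2 → e2 < kk (m :: σ) →
          e ∈ lab a (m :: σ) → cnt (c a) e1 % (n + 1) = r ∨ cnt (c a) e2 % (n + 1) = r := by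
  classical
  let cc : α → List ℕ → ℕ := fun a τ =>
    sInf {c | ∀ j, ∃ m, j ≤ m ∧ (y a).2 τ m ∧ ∀ e, e ∈ lab a (m :: τ) → e < c ∨ j ≤ e}
  let nn : α → List ℕ → ℕ → ℕ := fun a τ j =>
    sInf {m | j ≤ m ∧ (y a).2 τ m ∧ ∀ e, e ∈ lab a (m :: τ) → e < cc a τ ∨ j ≤ e}
  let g0 : α → List ℕ → ℕ → ℕ := fun a τ j => max (kk (nn a τ j :: τ)) (cc a (nn a τ j :: τ))
  let g : α → ℕ → ℕ := fun a j => rmx (fun i => g0 a ((Encodable.decode i).getD []) j) j
  let Y : α → ℕ → ℕ := fun a i => Nat.rec 0 (fun _ v => max (g a v) (v + 1)) i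
  have ml : ∀ σ e, Measurable fun a => e ∈ lab a σ := fun σ e => meas_cmp (e ∈ ·) hl.eval
  have m1 : Measurable cc := measurable_pi_lambda _ fun τ => meas_sInf fun c =>
    Measurable.forall fun j => Measurable.exists fun m => measurable_const.and
      (hy.snd.eval.eval.and (Measurable.forall fun e => (ml _ e).imp measurable_const))
  have m2 : ∀ τ j, Measurable fun a => nn a τ j := fun τ j => meas_sInf fun m =>
    measurable_const.and (hy.snd.eval.eval.and (Measurable.forall fun e => (ml _ e).imp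
      ((meas_lt measurable_const m1.eval).or measurable_const)))
  have m3 : Measurable g := measurable_pi_lambda _ fun j => meas_rmx
    (measurable_pi_lambda _ fun i => meas_max (meas_cmp (fun m => kk (m :: _)) (m2 _ j))
      (meas_app m1 (meas_cmp (· :: _) (m2 _ j)))) measurable_const
  have m4 : ∀ i, Measurable fun a => Y a i := fun i => by
    induction i with
    | zero => exact measurable_const
    | succ i ih => exact meas_max (meas_app m3 ih) (meas_cmp (· + 1) ih)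
  let c : α → Cs := fun a j => @decide (∃ i, Y a i = j) (Classical.dec _)
  have m5 : Measurable c := measurable_pi_lambda _ fun j =>
    meas_bool (by
      simp only [c, decide_eq_true_eq]
      exact Measurable.exists fun i => meas_cmp (· = j) (m4 i))
  refine ⟨_, m5, fun n r hr => ⟨fun a => ((y a).1, fun τ m => ∃ j, (∃ i, Y a i = j) ∧
    cnt (c a) j % (n + 1) = r ∧ Encodable.encode τ ≤ j ∧ nn a τ j = m),
    hy.fst.prodMk (measurable_pi_lambda _ fun τ => measurable_pi_lambda _ fun m =>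
      Measurable.exists fun j => (Measurable.exists fun i => meas_cmp (· = j) (m4 i)).and
        ((meas_cmp (· % (n + 1) = r) ((meas_cnt j).comp m5)).and
          (measurable_const.and (meas_cmp (· = m) (m2 τ j))))), fun a h0 => ?_⟩⟩
  have k1 : ∀ τ, Ab (y a) τ → ∀ j, j ≤ nn a τ j ∧ (y a).2 τ (nn a τ j) ∧
      ∀ e, e ∈ lab a (nn a τ j :: τ) → e < cc a τ ∨ j ≤ e := fun τ h j =>
    Nat.sInf_mem (Nat.sInf_mem (s := {c | ∀ j, ∃ m, j ≤ m ∧ (y a).2 τ m ∧
      ∀ e, e ∈ lab a (m :: τ) → e < c ∨ j ≤ e}) (exists_gap (R τ) (h0 τ h) fun m _ => hR a τ m) j)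
  have hc : ∀ j, c a j = true ↔ ∃ i, Y a i = j := fun j => by simp only [c, decide_eq_true_eq]
  have k2 : StrictMono (Y a) := strictMono_nat_of_lt_succ fun i =>
    le_max_right (g a (Y a i)) (Y a i + 1)
  have k3 : ∀ j e τ, (∃ i, Y a i = j) → Encodable.encode τ ≤ j → j ≤ e → e < g0 a τ j →
      cnt (c a) e = cnt (c a) j := by
    rintro _ e τ ⟨i, rfl⟩ a1 a2 a3
    refine cnt_eq a2 fun i' b1 b2 b3 => ?_
    obtain ⟨i'', rfl⟩ := (hc _).1 b3
    have b4 := le_rmx (fun i' => g0 a ((Encodable.decode i').getD []) (Y a i)) a1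
    simp only [Encodable.encodek, Option.getD_some] at b4
    exact absurd (k2.monotone (Nat.succ_le_of_lt (k2.lt_iff_lt.1 b1)))
      (not_le.2 ((b2.trans_lt a3).trans_le (b4.trans (le_max_left _ _))))
  have k4 : Qle ((y a).1, fun τ m => ∃ j, (∃ i, Y a i = j) ∧
      cnt (c a) j % (n + 1) = r ∧ Encodable.encode τ ≤ j ∧
        nn a τ j = m) (y a) := fun τ h =>
    Ab.ind (P := Ab (y a)) (by exact ab_stem _) (by
      rintro τ _ - ⟨j, -, -, -, rfl⟩ b
      exact b.cons (k1 τ b j).2.1) h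
  refine ⟨fun τ h m => ?_, rfl, k4, fun σ m h hs e1 e e2 b1 b2 b3 b4 b5 => ?_⟩
  · obtain ⟨j, b1, b2, b3⟩ := cnt_res (c := c a)
      (fun m => ⟨Y a m, k2.id_le m, (hc _).2 ⟨m, rfl⟩⟩) hr (max m (Encodable.encode τ))
    exact ⟨_, ((le_max_left _ _).trans b1).trans (k1 τ (k4 τ h) j).1, j, (hc _).1 b2, b3,
      (le_max_right _ _).trans b1, rfl⟩
  · obtain ⟨m0, τ, rfl⟩ : ∃ n τ, σ = n :: τ := List.exists_cons_of_length_pos (by omega)
    obtain ⟨c1, j1, c2, c3, c4, rfl⟩ := h.of_cons hs.le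
    obtain ⟨d1, j0, d2, d3, d4, rfl⟩ := c1.of_cons (Nat.lt_succ_iff.1 hs)
    rcases (k1 _ (k4 _ c1) j1).2.2 e b5 with h | h
    · refine Or.inl ((congrArg (· % (n + 1)) (k3 j0 e1 τ d2 d4 ?_
        ((b2.trans_lt h).trans_le (le_max_right _ _)))).trans d3)
      have := (k1 τ (k4 τ d1) j0).1
      simp only [kk, List.map_cons, List.sum_cons] at b1
      omega
    · exact Or.inr ((congrArg (· % (n + 1)) (k3 j1 e2 _ c2 c4 (h.trans b3)
        (b4.trans_le (le_max_left _ _)))).trans c3)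

end Pool.Agent.Lib.MP_fecf72_lc.LV
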